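import Mathlib
import Pool.Agent.Lib.MP_05cdf2_gt.M.Defs

/-! MP_05cdf2_gt, stream G (helper49): the action of `Gam g` on the abelianisation `Gen g → ℤ`.

`abv x` = exponent sums of `x`. `rhoM φ` = matrix of the action of an endomorphism `φ` (columns are
the images of the generators). -/

set_option autoImplicit false

namespace TorG
open TorM Matrix

variable {g : ℕ}

/-- exponent sums, as a homomorphism -/
noncomputable def ab : F g →* Multiplicative (Gen g → ℤ) :=
  FreeGroup.lift fun i => Multiplicative.ofAdd (Pi.single i (1 : ℤ))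

/-- exponent sums -/
noncomputable def abv (x : F g) : Gen g → ℤ := Multiplicative.toAdd (ab x)

@[simp] theorem abv_one : abv (1 : F g) = 0 := by
  simp [abv]

@[simp] theorem abv_mul (x y : F g) : abv (x * y) = abv x + abv y := by
  simp [abv]

@[simp] theorem abv_inv (x : F g) : abv x⁻¹ = -abv x := by
  simp [abv]

@[simp] theorem abv_of (i : Gen g) : abv (FreeGroup.of i : F g) = Pi.single i 1 := by
  simp [abv, ab]

open scoped commutatorElement in
@[simp] theorem abv_comm (x y : F g) : abv ⁅x, y⁆ = 0 := by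
  simp [commutatorElement_def]

theorem abv_conj (x y : F g) : abv (x * y * x⁻¹) = abv y := by
  simp

/-- matrix of the action of an endomorphism on the abelianisation -/
noncomputable def rhoE (φ : F g →* F g) : Matrix (Gen g) (Gen g) ℤ :=
  Matrix.of fun i j => abv (φ (FreeGroup.of j)) i

theorem abv_map (φ : F g →* F g) (x : F g) : abv (φ x) = rhoE φ *ᵥ abv x := by
  induction x using FreeGroup.induction_on with
  | C1 => simp
  | of i =>
    ext j
    simp [rhoE]
  | inv_of i h =>
    rw [map_inv, abv_inv, abv_inv, h, Matrix.mulVec_neg]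
  | mul x y hx hy =>
    rw [map_mul, abv_mul, hx, hy, abv_mul, Matrix.mulVec_add]

theorem rhoE_ext {φ ψ : F g →* F g} (h : ∀ x, abv (φ x) = abv (ψ x)) : rhoE φ = rhoE ψ := by
  ext i j
  simp [rhoE, h]

theorem rhoE_comp (φ ψ : F g →* F g) : rhoE (φ.comp ψ) = rhoE φ * rhoE ψ := by
  ext i j
  have h1 := congrFun (abv_map φ (ψ (FreeGroup.of j))) i
  show abv (φ (ψ (FreeGroup.of j))) i = _
  rw [h1]
  rfl

/-- matrix of the action of an automorphism on the abelianisation -/
noncomputable def rhoM (φ : MulAut (F g)) : Matrix (Gen g) (Gen g) ℤ := rhoE φ.toMonoidHom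

theorem abv_aut (φ : MulAut (F g)) (x : F g) : abv (φ x) = rhoM φ *ᵥ abv x :=
  abv_map φ.toMonoidHom x

theorem rhoM_apply (φ : MulAut (F g)) (i j : Gen g) : rhoM φ i j = abv (φ (FreeGroup.of j)) i := rfl

@[simp] theorem rhoM_one : rhoM (1 : MulAut (F g)) = 1 := by
  ext i j
  rw [rhoM_apply, MulAut.one_apply, abv_of, Matrix.one_apply]
  simp [Pi.single_apply]

@[simp] theorem rhoM_mul (φ ψ : MulAut (F g)) : rhoM (φ * ψ) = rhoM φ * rhoM ψ :=
  rhoE_comp φ.toMonoidHom ψ.toMonoidHom

theorem rhoM_eq_one_iff (φ : MulAut (F g)) : rhoM φ = 1 ↔ ∀ x, abv (φ x) = abv x := by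
  constructor
  · intro h x
    rw [abv_aut, h, Matrix.one_mulVec]
  · intro h
    rw [← rhoM_one]
    exact rhoE_ext (φ := φ.toMonoidHom) (ψ := (1 : MulAut (F g)).toMonoidHom) h

end TorG
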