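import Mathlib
import Pool.Agent.Lib.MP_05cdf2_gt.G.Ab
import Pool.Agent.Lib.MP_05cdf2_gt.M.Aut
import Pool.Agent.Lib.MP_05cdf2_gt.M.Std
import Pool.Agent.Lib.MP_05cdf2_gt.K.Chord

/-! MP_05cdf2_gt, stream G (helper49): the intersection form from the cyclic order.

`pr y x = ∑ h, ([h x < y] - [h < y])` (a finite sum), the signed number of crossings of the path from `1` to `y`
with the translates of the path from `1` to `x`. It is additive in both variables and
`pr y x = ∑ i, (y_{a_i} x_{b_i} - y_{b_i} x_{a_i})` (`pr_eq`). -/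

set_option autoImplicit false

namespace TorG
open TorM Matrix

variable {g : ℕ}

/-- the summand -/
noncomputable def pt (y x h : F g) : ℤ := (if h * x < y then (1 : ℤ) else 0) - (if h < y then 1 else 0)

/-- the intersection form -/
noncomputable def pr (y x : F g) : ℤ := ∑ᶠ h : F g, pt y x h

theorem lt_sep_finite (y x : F g) : {h : F g | ¬ (h * x < y ↔ h < y)}.Finite := by
  refine ((sep_finite y x).union ((Set.finite_singleton y).union (Set.finite_singleton (y * x⁻¹)))).subset ?_
  intro h hh
  by_contra hcon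
  simp only [Set.mem_union, Set.mem_ofPred_eq, Set.mem_singleton_iff, not_or, not_not] at hcon hh
  obtain ⟨h1, h2, h3⟩ := hcon
  have h4 : h * x ≠ y := fun h4 => h3 (by rw [← h4, mul_inv_cancel_right])
  apply hh
  rw [lt_iff_le_and_ne, lt_iff_le_and_ne, h1]
  exact ⟨fun a => ⟨a.1, h2⟩, fun a => ⟨a.1, h4⟩⟩

theorem pt_supp (y x : F g) : (Function.support (pt y x)).Finite := by
  refine (lt_sep_finite y x).subset ?_
  intro h hh h2
  apply hh
  unfold pt
  by_cases h3 : h < y
  · rw [if_pos (h2.2 h3), if_pos h3, sub_self]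
  · rw [if_neg (fun h4 => h3 (h2.1 h4)), if_neg h3, sub_self]

theorem pr_mul_right (y x x' : F g) : pr y (x * x') = pr y x + pr y x' := by
  have h1 : pr y x' = ∑ᶠ h : F g, pt y x' (h * x) := by
    unfold pr
    exact (finsum_comp_equiv (Equiv.mulRight x) (f := pt y x')).symm
  rw [h1]
  unfold pr
  rw [← finsum_add_distrib (pt_supp y x)]
  · refine finsum_congr fun h => ?_
    unfold pt
    rw [mul_assoc]
    ring
  · have : (fun h : F g => pt y x' (h * x)) = pt y x' ∘ (Equiv.mulRight x) := rfl
    rw [this]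
    exact (pt_supp y x').preimage (Equiv.injective _).injOn

theorem pr_one_right (y : F g) : pr y 1 = 0 := by
  have h := pr_mul_right y 1 1
  rw [mul_one] at h
  omega

theorem ind_cocycle (y y' h : F g) : (if h < y then (1 : ℤ) else 0) + (if y⁻¹ * h < y' then 1 else 0) =
    (if h < y * y' then 1 else 0) + (if y * y' < y then 1 else 0) := by
  classical
  have e0 := one_le y
  have e1 := one_le (y * y')
  have e2 := one_le h
  have e3 := one_le (y⁻¹ * h)
  have e4 := one_le y'
  -- `y⁻¹ h < y'` iff `h ∈ [y, y y')` in the cyclic order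
  by_cases c1 : y' = 1
  · subst c1
    rw [mul_one, if_neg (not_lt.2 e3), if_neg (lt_irrefl y)]
  by_cases c2 : h = y
  · subst c2
    rw [inv_mul_cancel, if_neg (lt_irrefl h), if_pos (one_lt c1)]
    have hne : h ≠ h * y' := fun hh => c1 (by simpa using hh.symm)
    rcases lt_or_gt_of_ne hne with h5 | h5
    · rw [if_pos h5, if_neg (not_lt.2 h5.le), zero_add, add_zero]
    · rw [if_neg (not_lt.2 h5.le), if_pos h5]
  by_cases c3 : h = y * y'
  · subst c3
    rw [inv_mul_cancel_left, if_neg (lt_irrefl y'), if_neg (lt_irrefl (y * y'))]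
    simp
  have hc : y⁻¹ * h ≠ 1 := fun hh => c2 (inv_mul_eq_one.1 hh).symm
  have key : y⁻¹ * h < y' ↔ Cyc y h (y * y') := by
    have h6 : Cyc (1 : F g) (y⁻¹ * h) y' ↔ y⁻¹ * h < y' := by
      unfold Cyc
      constructor
      · rintro (h | h | h)
        · exact h.2
        · exact absurd h.2 (not_lt.2 e4)
        · exact absurd h.1 (not_lt.2 e4)
      · intro h
        exact Or.inl ⟨one_lt hc, h⟩
    rw [← h6, ← cyc_mul y 1 (y⁻¹ * h) y', mul_one, mul_inv_cancel_left]
  have hne : y ≠ y * y' := fun hh => c1 (by simpa using hh.symm)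
  have key2 : (if y⁻¹ * h < y' then (1 : ℤ) else 0) = if Cyc y h (y * y') then 1 else 0 := by
    by_cases hk : Cyc y h (y * y')
    · rw [if_pos hk, if_pos (key.2 hk)]
    · rw [if_neg hk, if_neg (fun h5 => hk (key.1 h5))]
  rw [key2]
  unfold Cyc
  split_ifs <;> grind

theorem pr_mul_left (y y' x : F g) : pr (y * y') x = pr y x + pr y' x := by
  have h1 : pr y' x = ∑ᶠ h : F g, pt y' x (y⁻¹ * h) := by
    unfold pr
    exact (finsum_comp_equiv (Equiv.mulLeft y⁻¹) (f := pt y' x)).symm
  rw [h1]
  unfold pr
  rw [← finsum_add_distrib (pt_supp y x)]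
  · refine finsum_congr fun h => ?_
    have e1 := ind_cocycle y y' h
    have e2 := ind_cocycle y y' (h * x)
    unfold pt
    rw [mul_assoc]
    linarith
  · have : (fun h : F g => pt y' x (y⁻¹ * h)) = pt y' x ∘ (Equiv.mulLeft y⁻¹) := rfl
    rw [this]
    exact (pt_supp y' x).preimage (Equiv.injective _).injOn

/-- additivity in the first variable, as a homomorphism -/
noncomputable def prL (x : F g) : F g →* Multiplicative ℤ where
  toFun y := Multiplicative.ofAdd (pr y x)
  map_one' := by
    have h := pr_mul_left 1 1 x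
    rw [mul_one] at h
    have : pr 1 x = 0 := by omega
    rw [this]
    rfl
  map_mul' y y' := by
    rw [pr_mul_left]
    rfl

/-- additivity in the second variable, as a homomorphism -/
noncomputable def prR (y : F g) : F g →* Multiplicative ℤ where
  toFun x := Multiplicative.ofAdd (pr y x)
  map_one' := by
    rw [pr_one_right]
    rfl
  map_mul' x x' := by
    rw [pr_mul_right]
    rfl

/-- the algebraic intersection form -/
noncomputable def om (u v : Gen g → ℤ) : ℤ := ∑ i : Fin g, (u (Sum.inl i) * v (Sum.inr i) - u (Sum.inr i) * v (Sum.inl i))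

theorem om_add_left (u u' v : Gen g → ℤ) : om (u + u') v = om u v + om u' v := by
  unfold om
  rw [← Finset.sum_add_distrib]
  exact Finset.sum_congr rfl fun i _ => by simp; ring

theorem om_add_right (u v v' : Gen g → ℤ) : om u (v + v') = om u v + om u v' := by
  unfold om
  rw [← Finset.sum_add_distrib]
  exact Finset.sum_congr rfl fun i _ => by simp; ring

theorem om_zero_left (v : Gen g → ℤ) : om 0 v = 0 := by simp [om]
theorem om_zero_right (u : Gen g → ℤ) : om u 0 = 0 := by simp [om]

/-! the values on the generators -/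

/-- the letter as an element -/
abbrev le (l : Ltr g) : F g := FreeGroup.mk [l]

theorem le_inv (l : Ltr g) : le (inv l) = (le l)⁻¹ := by
  rw [FreeGroup.inv_mk]
  rfl

theorem le_toWord (l : Ltr g) : (le l).toWord = [l] := std_toWord l

theorem le_mul_toWord {l m : Ltr g} (h : m ≠ inv l) : (le l * le m).toWord = [l, m] := by
  rcases std_mul (le l) m with h1 | h1
  · rw [h1, le_toWord]
    rfl
  · rw [le_toWord] at h1
    exfalso
    have h2 : ((le l * le m).toWord ++ [inv m]) = [] ++ [l] := by rw [← h1]; rfl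
    have h3 := List.append_inj_right' h2 rfl
    have h4 : inv m = l := by simpa using h3
    apply h
    rw [← h4, TorM.inv_inv]

theorem key_le (l : Ltr g) : key (le l) = [rk l + 1, pos (4 * g) (rk (inv l)) (4 * g)] := by
  unfold key
  rw [le_toWord]
  show [pos (4 * g) (4 * g) (rk l), pos (4 * g) (rk (inv l)) (4 * g)] = _
  rw [rot_pos_lt]

theorem le_lt_le {l m : Ltr g} (h : l ≠ m) : le l < le m ↔ rk l < rk m := by
  have h1 : rk l ≠ rk m := fun h2 => h (rk_injective h2)
  rw [lt_iff, key_le, key_le, List.cons_lt_cons_iff]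
  constructor
  · rintro (h2 | h2)
    · omega
    · omega
  · intro h2
    left
    omega

theorem le_mul_lt {l m : Ltr g} (h : m ≠ inv l) : le l * le m < le l ↔ rk (inv l) < rk m := by
  have h1 : rk m ≠ rk (inv l) := fun h2 => h (rk_injective h2)
  have h2 : key (le l * le m) = (rk l + 1) :: pos (4 * g) (rk (inv l)) (rk m) ::
      [pos (4 * g) (rk (inv m)) (4 * g)] := by
    unfold key
    rw [le_mul_toWord h]
    show [pos (4 * g) (4 * g) (rk l), pos (4 * g) (rk (inv l)) (rk m), pos (4 * g) (rk (inv m)) (4 * g)] = _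
    rw [rot_pos_lt]
  rw [lt_iff, h2, key_le, List.cons_lt_cons_iff, List.cons_lt_cons_iff]
  have h3 := rk_lt m
  have h4 := rk_lt (inv l)
  have h5 : pos (4 * g) (rk (inv l)) (4 * g) = 4 * g - rk (inv l) := by
    unfold pos
    rw [if_pos h4.le]
  rw [h5]
  have h6 : (rk (inv l) < rk m ∧ pos (4 * g) (rk (inv l)) (rk m) = rk m - rk (inv l)) ∨
      (rk m < rk (inv l) ∧ pos (4 * g) (rk (inv l)) (rk m) = rk m + (4 * g + 1) - rk (inv l)) := by
    unfold pos
    rcases lt_or_gt_of_ne h1 with h7 | h7
    · right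
      exact ⟨h7, by rw [if_neg (by omega)]⟩
    · left
      exact ⟨h7, by rw [if_pos h7.le]⟩
  simp only [lt_self_iff_false, true_and, false_or]
  rcases h6 with ⟨h7, h8⟩ | ⟨h7, h8⟩
  · rw [h8]
    constructor
    · intro _
      exact h7
    · intro _
      left
      omega
  · rw [h8]
    constructor
    · rintro (h9 | ⟨h9, -⟩) <;> omega
    · intro h9
      omega

theorem pt_zero {l m : Ltr g} {h : F g} (h1 : h ≠ 1) (h2 : h ≠ le l) (h3 : h * le m ≠ 1)
    (h4 : h * le m ≠ le l) : pt (le l) (le m) h = 0 := by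
  have hU := U_letter l m h
  have e1 := one_lt h1
  have e2 := one_lt h3
  have e3 := one_le (le l)
  have key : h * le m < le l ↔ h < le l := by
    unfold Cr Cyc at hU
    grind
  unfold pt
  by_cases h5 : h < le l
  · rw [if_pos (key.2 h5), if_pos h5, sub_self]
  · rw [if_neg (fun h6 => h5 (key.1 h6)), if_neg h5, sub_self]

theorem finsum_four {G : Type} [Group G] {A B : G} (n1 : 1 ≠ A) (n2 : 1 ≠ B⁻¹) (n3 : 1 ≠ A * B⁻¹)
    (n4 : A ≠ B⁻¹) {f : G → ℤ} (hf : ∀ h, h ≠ 1 → h ≠ A → h ≠ B⁻¹ → h ≠ A * B⁻¹ → f h = 0) :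
    ∑ᶠ h, f h = f 1 + (f A + (f B⁻¹ + f (A * B⁻¹))) := by
  classical
  have n5 : A ≠ A * B⁻¹ := by
    intro h
    exact n2 (by simpa using h)
  have n6 : B⁻¹ ≠ A * B⁻¹ := by
    intro h
    exact n1 (by simpa using h.symm : A = 1).symm
  rw [finsum_eq_sum_of_support_subset (s := {1, A, B⁻¹, A * B⁻¹})]
  · rw [Finset.sum_insert (by simp [n1, n2, n3, -one_eq_inv]), Finset.sum_insert (by simp [n4, n5, -left_eq_mul]),
      Finset.sum_insert (by simp [n6, -right_eq_mul]), Finset.sum_singleton]
  · intro h hh
    by_contra hcon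
    simp only [Finset.coe_insert, Finset.coe_singleton, Set.mem_insert_iff, Set.mem_singleton_iff,
      not_or] at hcon
    obtain ⟨c1, c2, c3, c4⟩ := hcon
    exact hh (hf h c1 c2 c3 c4)

theorem finsum_three {G : Type} [Group G] {A : G} (n1 : 1 ≠ A) (n2 : 1 ≠ A⁻¹) (n4 : A ≠ A⁻¹)
    {f : G → ℤ} (hf : ∀ h, h ≠ 1 → h ≠ A → h ≠ A⁻¹ → f h = 0) :
    ∑ᶠ h, f h = f 1 + (f A + f A⁻¹) := by
  classical
  rw [finsum_eq_sum_of_support_subset (s := {1, A, A⁻¹})]
  · rw [Finset.sum_insert (by simp [n1, n2, -one_eq_inv]), Finset.sum_insert (by simp [n4]),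
      Finset.sum_singleton]
  · intro h hh
    by_contra hcon
    simp only [Finset.coe_insert, Finset.coe_singleton, Set.mem_insert_iff, Set.mem_singleton_iff,
      not_or] at hcon
    obtain ⟨c1, c2, c3⟩ := hcon
    exact hh (hf h c1 c2 c3)

theorem pr_gen_ne {i j : Gen g} (hij : i ≠ j) : pr (FreeGroup.of i : F g) (FreeGroup.of j) =
    (if rk ((j, true) : Ltr g) < rk ((i, true) : Ltr g) then (1 : ℤ) else 0) +
    (if rk ((i, false) : Ltr g) < rk ((j, true) : Ltr g) then 1 else 0) -
    (if rk ((j, false) : Ltr g) < rk ((i, true) : Ltr g) then 1 else 0) -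
    (if rk ((i, false) : Ltr g) < rk ((j, false) : Ltr g) then 1 else 0) := by
  classical
  let l : Ltr g := (i, true)
  let m : Ltr g := (j, true)
  have hlm : l ≠ m := fun h => hij (congrArg Prod.fst h)
  have hml : m ≠ inv l := fun h => by
    have := congrArg Prod.snd h
    simp [l, m, TorM.inv] at this
  have hml2 : inv m ≠ l := fun h => by
    have := congrArg Prod.snd h
    simp [l, m, TorM.inv] at this
  have hml3 : inv m ≠ inv l := fun h => hlm (by
    have := congrArg TorM.inv h
    rw [TorM.inv_inv, TorM.inv_inv] at this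
    exact this.symm)
  have e1 : (FreeGroup.of i : F g) = le l := rfl
  have e2 : (FreeGroup.of j : F g) = le m := rfl
  have inj : ∀ a b : Ltr g, le a = le b → a = b := by
    intro a b hab
    have := congrArg FreeGroup.toWord hab
    rw [le_toWord, le_toWord] at this
    simpa using this
  have ne1 : ∀ a : Ltr g, le a ≠ 1 := by
    intro a ha
    have := congrArg FreeGroup.toWord ha
    rw [le_toWord, FreeGroup.toWord_one] at this
    simp at this
  have n1 : (1 : F g) ≠ le l := (ne1 l).symm
  have n2 : (1 : F g) ≠ (le m)⁻¹ := by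
    rw [← le_inv]
    exact (ne1 _).symm
  have n3 : (1 : F g) ≠ le l * (le m)⁻¹ := by
    intro h
    exact hlm (inj _ _ (by rw [eq_comm, mul_inv_eq_one] at h; exact h))
  have n4 : le l ≠ (le m)⁻¹ := by
    rw [← le_inv]
    intro h
    exact hml2 (inj _ _ h).symm
  unfold pr
  rw [e1, e2, finsum_four n1 n2 n3 n4]
  · have t1 : pt (le l) (le m) 1 = (if rk m < rk l then (1 : ℤ) else 0) - 1 := by
      unfold pt
      rw [one_mul, if_pos (one_lt (ne1 l))]
      simp only [le_lt_le hlm.symm]
    have t2 : pt (le l) (le m) (le l) = if rk (inv l) < rk m then (1 : ℤ) else 0 := by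
      unfold pt
      rw [if_neg (lt_irrefl _), sub_zero]
      simp only [le_mul_lt hml]
    have t3 : pt (le l) (le m) (le m)⁻¹ = 1 - if rk (inv m) < rk l then (1 : ℤ) else 0 := by
      unfold pt
      rw [inv_mul_cancel, if_pos (one_lt (ne1 l)), ← le_inv]
      simp only [le_lt_le hml2]
    have t4 : pt (le l) (le m) (le l * (le m)⁻¹) = - if rk (inv l) < rk (inv m) then (1 : ℤ) else 0 := by
      unfold pt
      rw [inv_mul_cancel_right, if_neg (lt_irrefl _), ← le_inv]
      simp only [le_mul_lt hml3]
      ring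
    rw [t1, t2, t3, t4]
    show _ = (if rk m < rk l then (1 : ℤ) else 0) + (if rk (inv l) < rk m then (1 : ℤ) else 0) -
      (if rk (inv m) < rk l then (1 : ℤ) else 0) - (if rk (inv l) < rk (inv m) then (1 : ℤ) else 0)
    ring
  · intro h c1 c2 c3 c4
    exact pt_zero c1 c2 (fun h5 => c3 (eq_inv_of_mul_eq_one_left h5)) (fun h5 => c4 (eq_mul_inv_of_mul_eq h5))

theorem pr_gen_self (i : Gen g) : pr (FreeGroup.of i : F g) (FreeGroup.of i) = 0 := by
  classical
  let l : Ltr g := (i, true)
  have hml : l ≠ inv l := fun h => by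
    have := congrArg Prod.snd h
    simp [l, TorM.inv] at this
  have e1 : (FreeGroup.of i : F g) = le l := rfl
  have inj : ∀ a b : Ltr g, le a = le b → a = b := by
    intro a b hab
    have := congrArg FreeGroup.toWord hab
    rw [le_toWord, le_toWord] at this
    simpa using this
  have ne1 : ∀ a : Ltr g, le a ≠ 1 := by
    intro a ha
    have := congrArg FreeGroup.toWord ha
    rw [le_toWord, FreeGroup.toWord_one] at this
    simp at this
  have n1 : (1 : F g) ≠ le l := (ne1 l).symm
  have n2 : (1 : F g) ≠ (le l)⁻¹ := by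
    rw [← le_inv]
    exact (ne1 _).symm
  have n4 : le l ≠ (le l)⁻¹ := by
    rw [← le_inv]
    intro h
    exact hml (inj _ _ h)
  unfold pr
  rw [e1, finsum_three n1 n2 n4]
  · have t1 : pt (le l) (le l) 1 = - 1 := by
      unfold pt
      rw [one_mul, if_pos (one_lt (ne1 l)), if_neg (lt_irrefl _)]
      ring
    have t2 : pt (le l) (le l) (le l) = if rk (inv l) < rk l then (1 : ℤ) else 0 := by
      unfold pt
      rw [if_neg (lt_irrefl _), sub_zero]
      simp only [le_mul_lt hml]
    have t3 : pt (le l) (le l) (le l)⁻¹ = 1 - if rk (inv l) < rk l then (1 : ℤ) else 0 := by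
      unfold pt
      rw [inv_mul_cancel, if_pos (one_lt (ne1 l)), ← le_inv]
      simp only [le_lt_le hml.symm]
    rw [t1, t2, t3]
    ring
  · intro h c1 c2 c3
    exact pt_zero c1 c2 (fun h5 => c3 (eq_inv_of_mul_eq_one_left h5)) (fun h5 => c1 (mul_eq_right.1 h5))

theorem om_single (i j : Gen g) : om (Pi.single i 1) (Pi.single j 1) =
    match i, j with
    | Sum.inl i, Sum.inr j => if i = j then 1 else 0
    | Sum.inr i, Sum.inl j => if i = j then -1 else 0
    | _, _ => 0 := by
  classical
  unfold om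
  rcases i with i | i <;> rcases j with j | j
  · simp
  · simp [Pi.single_apply, eq_comm]
  · simp [Pi.single_apply, Finset.sum_ite_eq, eq_comm]
    split_ifs <;> simp_all
  · simp

theorem pr_gen (i j : Gen g) : pr (FreeGroup.of i : F g) (FreeGroup.of j) = om (Pi.single i 1) (Pi.single j 1) := by
  rw [om_single]
  by_cases hij : i = j
  · subst hij
    rw [pr_gen_self]
    rcases i with i | i <;> rfl
  · rw [pr_gen_ne hij]
    rcases i with i | i <;> rcases j with j | j
    · have : (i : ℕ) ≠ j := fun h => hij (by rw [Fin.ext h])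
      simp only [rk]
      split_ifs <;> omega
    · simp only [rk, Fin.ext_iff]
      split_ifs <;> omega
    · simp only [rk, Fin.ext_iff]
      split_ifs <;> omega
    · have : (i : ℕ) ≠ j := fun h => hij (by rw [Fin.ext h])
      simp only [rk]
      split_ifs <;> omega

/-- `om` in the second variable as a homomorphism on `F g` -/
noncomputable def omR (u : Gen g → ℤ) : F g →* Multiplicative ℤ where
  toFun x := Multiplicative.ofAdd (om u (abv x))
  map_one' := by
    rw [abv_one, om_zero_right]
    rfl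
  map_mul' x x' := by
    rw [abv_mul, om_add_right]
    rfl

/-- `om` in the first variable as a homomorphism on `F g` -/
noncomputable def omL (v : Gen g → ℤ) : F g →* Multiplicative ℤ where
  toFun x := Multiplicative.ofAdd (om (abv x) v)
  map_one' := by
    rw [abv_one, om_zero_left]
    rfl
  map_mul' x x' := by
    rw [abv_mul, om_add_left]
    rfl

/-- the intersection form -/
theorem pr_eq (y x : F g) : pr y x = om (abv y) (abv x) := by
  have h1 : ∀ i : Gen g, prR (FreeGroup.of i : F g) = omR (abv (FreeGroup.of i)) := by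
    intro i
    ext j
    show pr _ _ = om _ _
    rw [pr_gen, abv_of, abv_of]
  have h2 : prL x = omL (abv x) := by
    ext i
    exact congrArg Multiplicative.toAdd (DFunLike.congr_fun (h1 i) x)
  exact congrArg Multiplicative.toAdd (DFunLike.congr_fun h2 y)

end TorG
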