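import Mathlib
import Pool.Agent.Lib.MP_05cdf2_gt.G.Pair

/-! MP_05cdf2_gt, stream G (helper49): closed cuts.

A closed cut is a subset `D` of `F g` (the lifts of the base point on one side of a lift of a simple closed
curve): `D` and its complement are nonempty, no chord of `D` crosses a chord of the complement, `D ζ = D`, any
two translates are nested, and two points are separated by finitely many translates.
`LtD D x y`: `x, y ∈ D` and one goes counterclockwise from `x` to `y` inside `D`. -/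

set_option autoImplicit false

namespace TorG
open TorM

variable {g : ℕ}

/-- left translate -/
def tr (h : F g) (D : Set (F g)) : Set (F g) := {x | h⁻¹ * x ∈ D}

theorem mem_tr {h x : F g} {D : Set (F g)} : x ∈ tr h D ↔ h⁻¹ * x ∈ D := Iff.rfl

theorem mul_mem_tr {h x : F g} {D : Set (F g)} : h * x ∈ tr h D ↔ x ∈ D := by
  rw [mem_tr, inv_mul_cancel_left]

@[simp] theorem tr_one (D : Set (F g)) : tr 1 D = D := by
  ext x
  simp [mem_tr]

theorem tr_tr (h k : F g) (D : Set (F g)) : tr h (tr k D) = tr (h * k) D := by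
  ext x
  simp [mem_tr, mul_assoc]

theorem tr_compl (h : F g) (D : Set (F g)) : tr h Dᶜ = (tr h D)ᶜ := rfl

theorem tr_subset {h : F g} {A B : Set (F g)} : tr h A ⊆ tr h B ↔ A ⊆ B := by
  constructor
  · intro H x hx
    have := H (mul_mem_tr.2 hx)
    exact mul_mem_tr.1 this
  · intro H x hx
    exact H hx

theorem tr_inj {h : F g} {A B : Set (F g)} (H : tr h A = tr h B) : A = B :=
  Set.Subset.antisymm (tr_subset.1 H.subset) (tr_subset.1 H.superset)

/-- nested sets -/
def Nest (A B : Set (F g)) : Prop := A ⊆ B ∨ B ⊆ A ∨ (∀ x, ¬ (x ∈ A ∧ x ∈ B)) ∨ (∀ x, x ∈ A ∨ x ∈ B)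

theorem Nest.symm {A B : Set (F g)} (h : Nest A B) : Nest B A := by
  rcases h with h | h | h | h
  · exact Or.inr (Or.inl h)
  · exact Or.inl h
  · exact Or.inr (Or.inr (Or.inl fun x hx => h x hx.symm))
  · exact Or.inr (Or.inr (Or.inr fun x => (h x).symm))

theorem Nest.compl_left {A B : Set (F g)} (h : Nest A B) : Nest Aᶜ B := by
  rcases h with h | h | h | h
  · exact Or.inr (Or.inr (Or.inr fun x => by
      by_cases hx : x ∈ A
      · exact Or.inr (h hx)
      · exact Or.inl hx))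
  · exact Or.inr (Or.inr (Or.inl fun x hx => hx.1 (h hx.2)))
  · exact Or.inr (Or.inl fun x hx hxA => h x ⟨hxA, hx⟩)
  · exact Or.inl fun x hx => (h x).resolve_left hx

theorem Nest.compl_right {A B : Set (F g)} (h : Nest A B) : Nest A Bᶜ := h.symm.compl_left.symm

theorem nest_tr {h : F g} {A B : Set (F g)} : Nest (tr h A) (tr h B) ↔ Nest A B := by
  have key : ∀ (h : F g) {A B : Set (F g)}, Nest A B → Nest (tr h A) (tr h B) := by
    intro h A B H
    rcases H with H | H | H | H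
    · exact Or.inl (tr_subset.2 H)
    · exact Or.inr (Or.inl (tr_subset.2 H))
    · exact Or.inr (Or.inr (Or.inl fun x hx => H _ hx))
    · exact Or.inr (Or.inr (Or.inr fun x => H _))
  constructor
  · intro H
    have := key h⁻¹ H
    rw [tr_tr, tr_tr, inv_mul_cancel, tr_one, tr_one] at this
    exact this
  · exact key h

/-- cuts with locally finite translates -/
structure WCut (D : Set (F g)) : Prop where
  ne : D.Nonempty
  ne' : Dᶜ.Nonempty
  nocr : ∀ a ∈ D, ∀ b ∈ D, ∀ c ∉ D, ∀ d ∉ D, ¬ Cr a b c d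
  zeta : ∀ x, x * zeta g ∈ D ↔ x ∈ D
  fin : ∀ x y : F g, {A | (∃ h, A = tr h D) ∧ ¬ (x ∈ A ↔ y ∈ A)}.Finite

/-- closed cuts -/
structure CCut (D : Set (F g)) : Prop extends WCut D where
  nest : ∀ h : F g, Nest (tr h D) D

theorem WCut.compl {D : Set (F g)} (hD : WCut D) : WCut Dᶜ where
  ne := hD.ne'
  ne' := by
    rw [compl_compl]
    exact hD.ne
  nocr a ha b hb c hc d hd := by
    rw [Set.notMem_compl_iff] at hc hd
    intro h
    exact hD.nocr c hc d hd a ha b hb (cr_comm.1 h)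
  zeta x := not_congr (hD.zeta x)
  fin x y := by
    refine ((hD.fin x y).image (fun A : Set (F g) => Aᶜ)).subset ?_
    rintro A ⟨⟨h, rfl⟩, h2⟩
    refine ⟨tr h D, ⟨⟨h, rfl⟩, ?_⟩, rfl⟩
    intro h3
    exact h2 (not_congr h3)

theorem CCut.compl {D : Set (F g)} (hD : CCut D) : CCut Dᶜ where
  toWCut := hD.toWCut.compl
  nest h := by
    rw [tr_compl]
    exact (hD.nest h).compl_left.compl_right

theorem WCut.translate {D : Set (F g)} (hD : WCut D) (k : F g) : WCut (tr k D) where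
  ne := by
    obtain ⟨x, hx⟩ := hD.ne
    exact ⟨k * x, mul_mem_tr.2 hx⟩
  ne' := by
    obtain ⟨x, hx⟩ := hD.ne'
    exact ⟨k * x, fun h => hx (mul_mem_tr.1 h)⟩
  nocr a ha b hb c hc d hd := by
    intro h
    refine hD.nocr _ ha _ hb _ hc _ hd ?_
    rw [cr_mul]
    exact h
  zeta x := by
    rw [mem_tr, mem_tr, ← mul_assoc]
    exact hD.zeta _
  fin x y := by
    refine (hD.fin x y).subset ?_
    rintro A ⟨⟨h, rfl⟩, h2⟩
    exact ⟨⟨h * k, tr_tr h k D⟩, h2⟩

theorem CCut.translate {D : Set (F g)} (hD : CCut D) (k : F g) : CCut (tr k D) where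
  toWCut := hD.toWCut.translate k
  nest h := by
    have h1 := hD.nest (k⁻¹ * h * k)
    rw [← nest_tr (h := k), tr_tr] at h1
    rw [tr_tr]
    have e : k * (k⁻¹ * h * k) = h * k := by group
    rwa [e] at h1

/-- the image under an element of `Gam g` -/
def im (φ : MulAut (F g)) (D : Set (F g)) : Set (F g) := {x | φ.symm x ∈ D}

theorem mem_im {φ : MulAut (F g)} {x : F g} {D : Set (F g)} : x ∈ im φ D ↔ φ.symm x ∈ D := Iff.rfl

theorem map_mem_im {φ : MulAut (F g)} {x : F g} {D : Set (F g)} : φ x ∈ im φ D ↔ x ∈ D := by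
  rw [mem_im, MulEquiv.symm_apply_apply]

theorem im_tr (φ : MulAut (F g)) (h : F g) (D : Set (F g)) : im φ (tr h D) = tr (φ h) (im φ D) := by
  ext x
  rw [mem_im, mem_tr, mem_tr, mem_im, map_mul, map_inv, MulEquiv.symm_apply_apply]

theorem im_compl (φ : MulAut (F g)) (D : Set (F g)) : im φ Dᶜ = (im φ D)ᶜ := rfl

theorem im_subset {φ : MulAut (F g)} {A B : Set (F g)} : im φ A ⊆ im φ B ↔ A ⊆ B := by
  constructor
  · intro H x hx
    exact map_mem_im.1 (H (map_mem_im.2 hx))
  · intro H x hx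
    exact H hx

theorem nest_im (φ : MulAut (F g)) {A B : Set (F g)} (H : Nest A B) : Nest (im φ A) (im φ B) := by
  rcases H with H | H | H | H
  · exact Or.inl (im_subset.2 H)
  · exact Or.inr (Or.inl (im_subset.2 H))
  · exact Or.inr (Or.inr (Or.inl fun x hx => H _ hx))
  · exact Or.inr (Or.inr (Or.inr fun x => H _))

theorem symm_zeta {φ : MulAut (F g)} (h : φ (zeta g) = zeta g) : φ.symm (zeta g) = zeta g := by
  rw [MulEquiv.symm_apply_eq]
  exact h.symm

theorem WCut.im {D : Set (F g)} (hD : WCut D) (φ : Gam g) : WCut (im (φ : MulAut (F g)) D) where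
  ne := by
    obtain ⟨x, hx⟩ := hD.ne
    exact ⟨(φ : MulAut (F g)) x, map_mem_im.2 hx⟩
  ne' := by
    obtain ⟨x, hx⟩ := hD.ne'
    exact ⟨(φ : MulAut (F g)) x, fun h => hx (map_mem_im.1 h)⟩
  nocr a ha b hb c hc d hd := by
    intro h
    refine hD.nocr _ ha _ hb _ hc _ hd ?_
    rw [← aut_cr (φ : MulAut (F g)) φ.2]
    simpa using h
  zeta x := by
    rw [mem_im, mem_im, map_mul, symm_zeta φ.2]
    exact hD.zeta _
  fin x y := by
    refine ((hD.fin ((φ : MulAut (F g)).symm x) ((φ : MulAut (F g)).symm y)).image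
      (TorG.im (φ : MulAut (F g)))).subset ?_
    rintro A ⟨⟨h, rfl⟩, h2⟩
    refine ⟨tr ((φ : MulAut (F g)).symm h) D, ⟨⟨_, rfl⟩, ?_⟩, ?_⟩
    · intro h3
      apply h2
      rw [mem_tr, mem_tr, mem_im, mem_im, map_mul, map_mul, map_inv]
      exact h3
    · rw [im_tr, MulEquiv.apply_symm_apply]

theorem CCut.im {D : Set (F g)} (hD : CCut D) (φ : Gam g) : CCut (im (φ : MulAut (F g)) D) where
  toWCut := hD.toWCut.im φ
  nest h := by
    have h1 := nest_im (φ : MulAut (F g)) (hD.nest ((φ : MulAut (F g)).symm h))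
    rw [im_tr, MulEquiv.apply_symm_apply] at h1
    exact h1

/-- stabiliser of a set -/
def stD (D : Set (F g)) : Subgroup (F g) where
  carrier := {h | tr h D = D}
  one_mem' := tr_one D
  mul_mem' := fun {a b} ha hb => by
    show tr (a * b) D = D
    rw [← tr_tr, hb, ha]
  inv_mem' := fun {a} ha => by
    show tr a⁻¹ D = D
    have h : tr a D = D := ha
    conv_lhs => rw [← h]
    rw [tr_tr, inv_mul_cancel, tr_one]

theorem mem_stD {h : F g} {D : Set (F g)} : h ∈ stD D ↔ tr h D = D := Iff.rfl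

theorem mul_mem_iff {h x : F g} {D : Set (F g)} (hh : h ∈ stD D) : h * x ∈ D ↔ x ∈ D := by
  conv_lhs => rw [← mem_stD.1 hh]
  exact mul_mem_tr

theorem stD_compl (D : Set (F g)) : stD Dᶜ = stD D := by
  ext h
  rw [mem_stD, mem_stD, tr_compl, compl_inj_iff]

theorem mem_stD_tr {h k : F g} {D : Set (F g)} : h ∈ stD (tr k D) ↔ k⁻¹ * h * k ∈ stD D := by
  rw [mem_stD, mem_stD, tr_tr]
  constructor
  · intro H
    have := congrArg (tr k⁻¹) H
    rw [tr_tr, tr_tr, inv_mul_cancel, tr_one, ← mul_assoc] at this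
    exact this
  · intro H
    have := congrArg (tr k) H
    rw [tr_tr] at this
    have e : k * (k⁻¹ * h * k) = h * k := by group
    rwa [e] at this

/-! the order on `D` -/

/-- `x` is before `y` in `D` -/
def LtD (D : Set (F g)) (x y : F g) : Prop := x ∈ D ∧ y ∈ D ∧ x ≠ y ∧ ∀ c ∉ D, Cyc x y c

theorem ltD_of {D : Set (F g)} (hD : WCut D) {x y c : F g} (hx : x ∈ D) (hy : y ∈ D) (hc : c ∉ D)
    (h : Cyc x y c) : LtD D x y := by
  have hxy : x ≠ y := by
    rintro rfl
    unfold Cyc at h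
    grind
  refine ⟨hx, hy, hxy, fun d hd => ?_⟩
  have h1 := hD.nocr x hx y hy c hc d hd
  have hxd : x ≠ d := fun e => hd (e ▸ hx)
  have hyd : y ≠ d := fun e => hd (e ▸ hy)
  have hxc : x ≠ c := fun e => hc (e ▸ hx)
  have hyc : y ≠ c := fun e => hc (e ▸ hy)
  unfold Cr Cyc at h1
  unfold Cyc at h ⊢
  grind

theorem ltD_trichotomy {D : Set (F g)} (hD : WCut D) {x y : F g} (hx : x ∈ D) (hy : y ∈ D) :
    LtD D x y ∨ x = y ∨ LtD D y x := by
  obtain ⟨c, hc⟩ := hD.ne'
  by_cases hxy : x = y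
  · exact Or.inr (Or.inl hxy)
  have hxc : x ≠ c := fun e => hc (e ▸ hx)
  have hyc : y ≠ c := fun e => hc (e ▸ hy)
  have h : Cyc x y c ∨ Cyc y x c := by
    unfold Cyc
    grind
  rcases h with h | h
  · exact Or.inl (ltD_of hD hx hy hc h)
  · exact Or.inr (Or.inr (ltD_of hD hy hx hc h))

theorem LtD.trans {D : Set (F g)} (hD : WCut D) {x y z : F g} (h1 : LtD D x y) (h2 : LtD D y z) :
    LtD D x z := by
  obtain ⟨c, hc⟩ := hD.ne'
  have h3 := h1.2.2.2 c hc
  have h4 := h2.2.2.2 c hc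
  refine ltD_of hD h1.1 h2.2.1 hc ?_
  unfold Cyc at *
  grind

theorem LtD.asymm {D : Set (F g)} (hD : WCut D) {x y : F g} (h1 : LtD D x y) : ¬ LtD D y x := by
  intro h2
  obtain ⟨c, hc⟩ := hD.ne'
  have h3 := h1.2.2.2 c hc
  have h4 := h2.2.2.2 c hc
  unfold Cyc at *
  grind

theorem LtD.irrefl {D : Set (F g)} {x : F g} : ¬ LtD D x x := fun h => h.2.2.1 rfl

theorem ltD_tr {D : Set (F g)} {h x y : F g} : LtD (tr h D) (h * x) (h * y) ↔ LtD D x y := by
  unfold LtD
  rw [mul_mem_tr, mul_mem_tr]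
  constructor
  · rintro ⟨h1, h2, h3, h4⟩
    refine ⟨h1, h2, fun e => h3 (by rw [e]), fun c hc => ?_⟩
    have := h4 (h * c) (fun h5 => hc (mul_mem_tr.1 h5))
    rwa [cyc_mul] at this
  · rintro ⟨h1, h2, h3, h4⟩
    refine ⟨h1, h2, fun e => h3 (mul_left_cancel e), fun c hc => ?_⟩
    have := h4 (h⁻¹ * c) hc
    rw [← cyc_mul h, mul_inv_cancel_left] at this
    exact this

theorem ltD_stD {D : Set (F g)} {h x y : F g} (hh : h ∈ stD D) : LtD D (h * x) (h * y) ↔ LtD D x y := by
  have := ltD_tr (D := D) (h := h) (x := x) (y := y)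
  rwa [mem_stD.1 hh] at this

theorem ltD_im {D : Set (F g)} (φ : Gam g) {x y : F g} :
    LtD (im (φ : MulAut (F g)) D) ((φ : MulAut (F g)) x) ((φ : MulAut (F g)) y) ↔ LtD D x y := by
  unfold LtD
  rw [map_mem_im, map_mem_im]
  constructor
  · rintro ⟨h1, h2, h3, h4⟩
    refine ⟨h1, h2, fun e => h3 (by rw [e]), fun c hc => ?_⟩
    have := h4 ((φ : MulAut (F g)) c) (fun h5 => hc (map_mem_im.1 h5))
    rwa [aut_cyc (φ : MulAut (F g)) φ.2] at this
  · rintro ⟨h1, h2, h3, h4⟩
    refine ⟨h1, h2, fun e => h3 ((φ : MulAut (F g)).injective e), fun c hc => ?_⟩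
    have := h4 ((φ : MulAut (F g)).symm c) hc
    rw [← aut_cyc (φ : MulAut (F g)) φ.2, MulEquiv.apply_symm_apply] at this
    exact this

end TorG
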