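import Mathlib
import Pool.Agent.Lib.MP_05cdf2_gt.G.CutDef

/-! MP_05cdf2_gt, stream G (helper49): the stabiliser of a closed cut is infinite cyclic.

`IsGen D γ`: `γ` generates the stabiliser of `D` and moves the points of `D` counterclockwise. -/

set_option autoImplicit false

namespace TorG
open TorM

variable {g : ℕ} {D : Set (F g)}

theorem fin_int (hD : WCut D) {a b : F g} (s : F g) :
    {z | z * s ∉ D ∧ LtD D a z ∧ LtD D z b}.Finite := by
  refine (cr_finite a b s).subset ?_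
  rintro z ⟨h1, h2, h3⟩
  have h4 := h2.2.2.2 _ h1
  have h5 := h3.2.2.2 _ h1
  have h6 := (h2.trans hD h3).2.2.2 _ h1
  show Cr a b z (z * s)
  unfold Cr Cyc at *
  grind

theorem exists_bd (hD : WCut D) : ∃ s z : F g, z ∈ D ∧ z * s ∉ D := by
  obtain ⟨z, hz⟩ := hD.ne
  obtain ⟨w, hw⟩ := hD.ne'
  exact ⟨z⁻¹ * w, z, hz, by rwa [mul_inv_cancel_left]⟩

theorem exists_letter (hD : WCut D) : ∃ (l : Ltr g) (z : F g), z ∈ D ∧ z * le l ∉ D := by
  by_contra hcon
  push Not at hcon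
  obtain ⟨z, hz⟩ := hD.ne
  obtain ⟨w, hw⟩ := hD.ne'
  have key : ∀ (L : List (Ltr g)) (z : F g), z ∈ D → z * FreeGroup.mk L ∈ D := by
    intro L
    induction L with
    | nil =>
      intro z hz
      have : (FreeGroup.mk [] : F g) = 1 := rfl
      rwa [this, mul_one]
    | cons l L ih =>
      intro z hz
      have h1 : (FreeGroup.mk (l :: L) : F g) = FreeGroup.mk [l] * FreeGroup.mk L := by
        rw [FreeGroup.mul_mk]
        rfl
      rw [h1, ← mul_assoc]
      exact ih _ (hcon l z hz)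
  apply hw
  have h2 := key (z⁻¹ * w).toWord z hz
  rwa [FreeGroup.mk_toWord, mul_inv_cancel_left] at h2

theorem tr_inv_eq {x y : F g} (h : tr x⁻¹ D = tr y⁻¹ D) : y * x⁻¹ ∈ stD D := by
  rw [mem_stD, ← tr_tr, h, tr_tr, mul_inv_cancel, tr_one]

theorem exists_nontrivial (hD : WCut D) : ∃ h ∈ stD D, h ≠ 1 := by
  by_contra hcon
  push Not at hcon
  have hfin : ∀ h : F g, {x | ¬ (x ∈ D ↔ x * h ∈ D)}.Finite := by
    intro h
    refine Set.Finite.of_finite_image (f := fun x => tr x⁻¹ D) ((hD.fin 1 h).subset ?_) ?_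
    · rintro A ⟨x, hx, rfl⟩
      refine ⟨⟨x⁻¹, rfl⟩, ?_⟩
      show ¬ (1 ∈ tr x⁻¹ D ↔ h ∈ tr x⁻¹ D)
      rw [mem_tr, mem_tr, _root_.inv_inv, mul_one]
      exact hx
    · intro x _ y _ hxy
      have h1 := hcon _ (tr_inv_eq hxy)
      exact (mul_inv_eq_one.1 h1).symm
  by_cases h1 : (1 : F g) ∈ D
  · obtain ⟨b, hb⟩ := hD.ne'
    obtain ⟨x, -, hx1, hx2⟩ := exit1 D hfin h1 hb
    exact hx2 ((hD.zeta x).2 hx1)
  · obtain ⟨b, hb⟩ := hD.ne
    obtain ⟨x, -, hx1, hx2⟩ := exit1 Dᶜ (fun h => (hfin h).subset fun x hx hx2 => hx (not_congr hx2))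
      h1 (fun h => h hb)
    exact hx2 (fun h => hx1 ((hD.zeta x).1 h))

theorem pow_mem_stD {γ : F g} (hγ : γ ∈ stD D) (n : ℤ) : γ ^ n ∈ stD D := (stD D).zpow_mem hγ n

theorem ltD_pow_succ {γ b : F g} (hγ : γ ∈ stD D) (hb : LtD D b (γ * b)) (n : ℤ) :
    LtD D (γ ^ n * b) (γ ^ (n + 1) * b) := by
  rw [zpow_add_one, mul_assoc, ltD_stD (pow_mem_stD hγ n)]
  exact hb

theorem ltD_pow (hD : WCut D) {γ b : F g} (hγ : γ ∈ stD D) (hb : LtD D b (γ * b)) (n : ℤ) (m : ℕ) :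
    LtD D (γ ^ n * b) (γ ^ (n + (m + 1 : ℕ)) * b) := by
  induction m with
  | zero => exact_mod_cast ltD_pow_succ hγ hb n
  | succ m ih =>
    have h1 := ltD_pow_succ hγ hb (n + (m + 1 : ℕ))
    refine ih.trans hD ?_
    have e : n + ((m + 1 + 1 : ℕ) : ℤ) = n + ((m + 1 : ℕ) : ℤ) + 1 := by push_cast; ring
    rw [e]
    exact h1

theorem ltD_pow_lt (hD : WCut D) {γ b : F g} (hγ : γ ∈ stD D) (hb : LtD D b (γ * b)) {n m : ℤ}
    (h : n < m) : LtD D (γ ^ n * b) (γ ^ m * b) := by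
  have h1 := ltD_pow hD hγ hb n (m - n - 1).toNat
  have e : n + (((m - n - 1).toNat + 1 : ℕ) : ℤ) = m := by
    push_cast
    rw [Int.toNat_of_nonneg (by omega)]
    ring
  rwa [e] at h1

theorem arch_up (hD : WCut D) {γ b s w : F g} (hγ : γ ∈ stD D) (hb : LtD D b (γ * b))
    (hs : b * s ∉ D) (hw : w ∈ D) : ∃ n : ℕ, LtD D w (γ ^ (n : ℤ) * b) := by
  by_contra hcon
  push Not at hcon
  have hbD := hb.1
  have h1 : ∀ n : ℕ, LtD D (γ ^ (n : ℤ) * b) w := by
    intro n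
    have h2 := hcon (n + 1)
    have h3 : LtD D (γ ^ (n : ℤ) * b) (γ ^ ((n + 1 : ℕ) : ℤ) * b) :=
      ltD_pow_lt hD hγ hb (by push_cast; omega)
    rcases ltD_trichotomy hD hw h3.2.1 with h4 | h4 | h4
    · exact absurd h4 h2
    · rwa [← h4] at h3
    · exact h3.trans hD h4
  have hfin := fin_int hD (a := b) (b := w) s
  refine Set.not_injOn_infinite_finite_image (s := Set.univ) (f := fun n : ℕ => γ ^ ((n + 1 : ℕ) : ℤ) * b)
    Set.infinite_univ (hfin.subset ?_) ?_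
  · rintro _ ⟨n, -, rfl⟩
    refine ⟨?_, ?_, h1 (n + 1)⟩
    · show γ ^ ((n + 1 : ℕ) : ℤ) * b * s ∉ D
      rw [mul_assoc, mul_mem_iff (pow_mem_stD hγ _)]
      exact hs
    · have := ltD_pow_lt hD hγ hb (n := 0) (m := ((n + 1 : ℕ) : ℤ)) (by push_cast; omega)
      rwa [zpow_zero, one_mul] at this
  · intro n _ m _ hnm
    by_contra hne
    rcases lt_or_gt_of_ne hne with h | h
    · have := ltD_pow_lt hD hγ hb (n := ((n + 1 : ℕ) : ℤ)) (m := ((m + 1 : ℕ) : ℤ)) (by push_cast; omega)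
      simp only at hnm
      rw [hnm] at this
      exact LtD.irrefl this
    · have := ltD_pow_lt hD hγ hb (n := ((m + 1 : ℕ) : ℤ)) (m := ((n + 1 : ℕ) : ℤ)) (by push_cast; omega)
      simp only at hnm
      rw [hnm] at this
      exact LtD.irrefl this

theorem arch_down (hD : WCut D) {γ b s w : F g} (hγ : γ ∈ stD D) (hb : LtD D b (γ * b))
    (hs : b * s ∉ D) (hw : w ∈ D) : ∃ n : ℕ, LtD D (γ ^ (-(n : ℤ)) * b) w := by
  by_contra hcon
  push Not at hcon
  have hbD := hb.1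
  have h1 : ∀ n : ℕ, LtD D w (γ ^ (-(n : ℤ)) * b) := by
    intro n
    have h2 := hcon (n + 1)
    have h3 : LtD D (γ ^ (-((n + 1 : ℕ) : ℤ)) * b) (γ ^ (-(n : ℤ)) * b) :=
      ltD_pow_lt hD hγ hb (by push_cast; omega)
    rcases ltD_trichotomy hD hw h3.1 with h4 | h4 | h4
    · exact h4.trans hD h3
    · rwa [← h4] at h3
    · exact absurd h4 h2
  have hfin := fin_int hD (a := w) (b := b) s
  refine Set.not_injOn_infinite_finite_image (s := Set.univ) (f := fun n : ℕ => γ ^ (-((n + 1 : ℕ) : ℤ)) * b)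
    Set.infinite_univ (hfin.subset ?_) ?_
  · rintro _ ⟨n, -, rfl⟩
    refine ⟨?_, h1 (n + 1), ?_⟩
    · show γ ^ (-((n + 1 : ℕ) : ℤ)) * b * s ∉ D
      rw [mul_assoc, mul_mem_iff (pow_mem_stD hγ _)]
      exact hs
    · have := ltD_pow_lt hD hγ hb (n := -((n + 1 : ℕ) : ℤ)) (m := 0) (by push_cast; omega)
      rwa [zpow_zero, one_mul] at this
  · intro n _ m _ hnm
    by_contra hne
    rcases lt_or_gt_of_ne hne with h | h
    · have := ltD_pow_lt hD hγ hb (n := -((m + 1 : ℕ) : ℤ)) (m := -((n + 1 : ℕ) : ℤ)) (by push_cast; omega)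
      simp only at hnm
      rw [hnm] at this
      exact LtD.irrefl this
    · have := ltD_pow_lt hD hγ hb (n := -((n + 1 : ℕ) : ℤ)) (m := -((m + 1 : ℕ) : ℤ)) (by push_cast; omega)
      simp only at hnm
      rw [hnm] at this
      exact LtD.irrefl this

/-- `γ` is the positive generator of the stabiliser of `D` -/
structure IsGen (D : Set (F g)) (γ : F g) : Prop where
  mem : γ ∈ stD D
  pow : ∀ h ∈ stD D, ∃ n : ℤ, h = γ ^ n
  pos : ∀ z ∈ D, LtD D z (γ * z)

theorem exists_gen (hD : WCut D) : ∃ γ, IsGen D γ := by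
  classical
  obtain ⟨s, b, hb, hs⟩ := exists_bd hD
  -- a positive element
  have hex : ∃ γ, γ ∈ stD D ∧ LtD D b (γ * b) := by
    obtain ⟨h, hh, h1⟩ := exists_nontrivial hD
    have h2 : h * b ∈ D := (mul_mem_iff hh).2 hb
    rcases ltD_trichotomy hD hb h2 with h3 | h3 | h3
    · exact ⟨h, hh, h3⟩
    · exact absurd (by simpa using h3.symm) h1
    · refine ⟨h⁻¹, (stD D).inv_mem hh, ?_⟩
      rw [← ltD_stD hh, mul_inv_cancel_left]
      exact h3
  let μ : F g → ℕ := fun γ => {z | z * s ∉ D ∧ LtD D b z ∧ LtD D z (γ * b)}.ncard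
  have hex2 : ∃ n : ℕ, ∃ γ, γ ∈ stD D ∧ LtD D b (γ * b) ∧ μ γ = n := by
    obtain ⟨γ, h1, h2⟩ := hex
    exact ⟨μ γ, γ, h1, h2, rfl⟩
  obtain ⟨γ, hγ, hpos, hμ⟩ := Nat.find_spec hex2
  have hmin : ∀ δ, δ ∈ stD D → LtD D b (δ * b) → ¬ LtD D (δ * b) (γ * b) := by
    intro δ hδ h1 h2
    have h3 : μ δ < μ γ := by
      refine Set.ncard_lt_ncard ?_ (fin_int hD s)
      refine ⟨?_, ?_⟩
      · rintro z ⟨a1, a2, a3⟩
        exact ⟨a1, a2, a3.trans hD h2⟩
      · intro h4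
        have h5 : δ * b ∈ {z | z * s ∉ D ∧ LtD D b z ∧ LtD D z (γ * b)} := by
          refine ⟨?_, h1, h2⟩
          rw [mul_assoc, mul_mem_iff hδ]
          exact hs
        exact LtD.irrefl (h4 h5).2.2
    have h4 := Nat.find_min hex2 (m := μ δ) (by omega)
    exact h4 ⟨δ, hδ, h1, rfl⟩
  refine ⟨γ, hγ, ?_, ?_⟩
  · intro h hh
    have hhb : h * b ∈ D := (mul_mem_iff hh).2 hb
    obtain ⟨n, hn⟩ := arch_up hD hγ hpos hs hhb
    obtain ⟨m, hm⟩ := arch_down hD hγ hpos hs hhb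
    obtain ⟨k, hk, hk2⟩ := Int.exists_greatest_of_bdd
      (P := fun k : ℤ => LtD D (γ ^ k * b) (h * b) ∨ γ ^ k * b = h * b)
      ⟨n, fun k hk => by
        by_contra hlt
        have h5 := ltD_pow_lt hD hγ hpos (n := (n : ℤ)) (m := k) (by omega)
        have h6 := hn.trans hD h5
        rcases hk with hk | hk
        · exact h6.asymm hD hk
        · rw [hk] at h6
          exact LtD.irrefl h6⟩ ⟨-(m : ℤ), Or.inl hm⟩
    refine ⟨k, ?_⟩
    rcases hk with hk | hk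
    · exfalso
      have h7 : LtD D (h * b) (γ ^ (k + 1) * b) := by
        rcases ltD_trichotomy hD hhb ((mul_mem_iff (pow_mem_stD hγ (k + 1))).2 hb) with h8 | h8 | h8
        · exact h8
        · have := hk2 (k + 1) (Or.inr h8.symm)
          omega
        · have := hk2 (k + 1) (Or.inl h8)
          omega
      have hδ : (γ ^ k)⁻¹ * h ∈ stD D := (stD D).mul_mem ((stD D).inv_mem (pow_mem_stD hγ k)) hh
      refine hmin ((γ ^ k)⁻¹ * h) hδ ?_ ?_
      · rw [← ltD_stD (pow_mem_stD hγ k), ← mul_assoc, mul_inv_cancel_left]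
        exact hk
      · rw [← ltD_stD (pow_mem_stD hγ k), ← mul_assoc, mul_inv_cancel_left, ← mul_assoc,
          ← zpow_add_one]
        exact h7
    · exact (mul_right_cancel hk).symm
  · intro w hw
    have hw2 : γ * w ∈ D := (mul_mem_iff hγ).2 hw
    have hne : γ ≠ 1 := by
      rintro rfl
      rw [one_mul] at hpos
      exact LtD.irrefl hpos
    rcases ltD_trichotomy hD hw hw2 with h3 | h3 | h3
    · exact h3
    · exact absurd (by simpa using h3.symm) hne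
    · exfalso
      obtain ⟨n, hn⟩ := arch_up hD hγ hpos hs hw
      -- `w ≼ γ^(-k) w`
      have h4 : ∀ k : ℕ, w = γ ^ (-(k : ℤ)) * w ∨ LtD D w (γ ^ (-(k : ℤ)) * w) := by
        intro k
        induction k with
        | zero => left; simp
        | succ k ih =>
          right
          have h5 : LtD D (γ ^ (-(k : ℤ)) * w) (γ ^ (-((k + 1 : ℕ) : ℤ)) * w) := by
            have h6 : LtD D w (γ⁻¹ * w) := by
              rw [← ltD_stD hγ, mul_inv_cancel_left]
              exact h3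
            have e : γ ^ (-((k + 1 : ℕ) : ℤ)) = γ ^ (-(k : ℤ)) * γ⁻¹ := by
              rw [← zpow_sub_one]
              congr 1
              push_cast
              ring
            rw [e, mul_assoc, ltD_stD (pow_mem_stD hγ _)]
            exact h6
          rcases ih with ih | ih
          · rwa [← ih] at h5
          · exact ih.trans hD h5
      obtain ⟨m, hm⟩ := arch_down hD hγ hpos hs hw
      have h7 : LtD D (γ ^ (-((n + m : ℕ) : ℤ)) * w) (γ ^ (-(m : ℤ)) * b) := by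
        have h8 := (ltD_stD (pow_mem_stD hγ (-((n + m : ℕ) : ℤ)))).2 hn
        rw [← mul_assoc, ← zpow_add] at h8
        have e : -((n + m : ℕ) : ℤ) + (n : ℤ) = -(m : ℤ) := by push_cast; ring
        rwa [e] at h8
      have h9 := h7.trans hD hm
      rcases h4 (n + m) with h10 | h10
      · rw [← h10] at h9
        exact LtD.irrefl h9
      · exact h9.asymm hD h10

theorem IsGen.lt (hD : WCut D) {γ z : F g} (h : IsGen D γ) (hz : z ∈ D) {n m : ℤ} (hnm : n < m) :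
    LtD D (γ ^ n * z) (γ ^ m * z) := ltD_pow_lt hD h.mem (h.pos z hz) hnm

theorem IsGen.zpow_inj (hD : WCut D) {γ : F g} (h : IsGen D γ) {n m : ℤ} (hnm : γ ^ n = γ ^ m) :
    n = m := by
  obtain ⟨z, hz⟩ := hD.ne
  rcases lt_trichotomy n m with h1 | h1 | h1
  · have := h.lt hD hz h1
    rw [hnm] at this
    exact absurd this LtD.irrefl
  · exact h1
  · have := h.lt hD hz h1
    rw [hnm] at this
    exact absurd this LtD.irrefl

theorem IsGen.unique (hD : WCut D) {γ δ : F g} (h : IsGen D γ) (h' : IsGen D δ) : γ = δ := by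
  obtain ⟨n, hn⟩ := h.pow δ h'.mem
  obtain ⟨m, hm⟩ := h'.pow γ h.mem
  have h1 : γ ^ (1 : ℤ) = γ ^ (n * m) := by
    rw [zpow_one, zpow_mul, ← hn, ← hm]
  have h2 := h.zpow_inj hD h1
  have h3 : IsUnit n := IsUnit.of_mul_eq_one m h2.symm
  rcases Int.isUnit_iff.1 h3 with rfl | rfl
  · rw [hn, zpow_one]
  · exfalso
    obtain ⟨z, hz⟩ := hD.ne
    have h4 := h'.pos z hz
    rw [hn] at h4
    have h5 := h.lt hD hz (n := -1) (m := 0) (by omega)
    rw [zpow_zero, one_mul] at h5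
    exact h5.asymm hD h4

/-- every point of `D` is between two powers of `γ` applied to a given point -/
theorem IsGen.arch (hD : WCut D) {γ : F g} (h : IsGen D γ) {z w : F g} (hz : z ∈ D) (hw : w ∈ D) :
    ∃ n : ℤ, LtD D w (γ ^ n * z) := by
  obtain ⟨s, b, hb, hs⟩ := exists_bd hD
  obtain ⟨n, hn⟩ := arch_up hD h.mem (h.pos b hb) hs hw
  obtain ⟨m, hm⟩ := arch_down hD h.mem (h.pos b hb) hs hz
  refine ⟨n + m, hn.trans hD ?_⟩
  have h8 := (ltD_stD (pow_mem_stD h.mem ((n : ℤ) + m))).2 hm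
  rw [← mul_assoc, ← zpow_add] at h8
  have e : (n : ℤ) + m + -(m : ℤ) = n := by ring
  rwa [e] at h8

theorem IsGen.arch' (hD : WCut D) {γ : F g} (h : IsGen D γ) {z w : F g} (hz : z ∈ D) (hw : w ∈ D) :
    ∃ n : ℤ, LtD D (γ ^ n * z) w := by
  obtain ⟨n, hn⟩ := h.arch hD hw hz
  refine ⟨-n, ?_⟩
  have h8 := (ltD_stD (pow_mem_stD h.mem (-n))).2 hn
  rwa [← mul_assoc, ← zpow_add, neg_add_cancel, zpow_zero, one_mul] at h8

theorem IsGen.tr {γ : F g} (h : IsGen D γ) (k : F g) : IsGen (tr k D) (k * γ * k⁻¹) where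
  mem := by
    rw [mem_stD_tr]
    have e : k⁻¹ * (k * γ * k⁻¹) * k = γ := by group
    rw [e]
    exact h.mem
  pow := by
    intro x hx
    rw [mem_stD_tr] at hx
    obtain ⟨n, hn⟩ := h.pow _ hx
    refine ⟨n, ?_⟩
    rw [conj_zpow, ← hn]
    group
  pos := by
    intro z hz
    have h1 := h.pos _ (mem_tr.1 hz)
    rw [← ltD_tr (h := k)] at h1
    have e1 : k * (k⁻¹ * z) = z := by group
    have e2 : k * (γ * (k⁻¹ * z)) = k * γ * k⁻¹ * z := by group
    rwa [e1, e2] at h1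

theorem IsGen.im {γ : F g} (h : IsGen D γ) (φ : Gam g) :
    IsGen (im (φ : MulAut (F g)) D) ((φ : MulAut (F g)) γ) where
  mem := by
    rw [mem_stD, ← im_tr, mem_stD.1 h.mem]
  pow := by
    intro x hx
    have h1 : (φ : MulAut (F g)).symm x ∈ stD D := by
      rw [mem_stD]
      have h2 : TorG.im (φ : MulAut (F g)) (TorG.tr ((φ : MulAut (F g)).symm x) D) =
          TorG.im (φ : MulAut (F g)) D := by
        rw [im_tr, MulEquiv.apply_symm_apply]
        exact hx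
      exact Set.Subset.antisymm (im_subset.1 h2.subset) (im_subset.1 h2.superset)
    obtain ⟨n, hn⟩ := h.pow _ h1
    refine ⟨n, ?_⟩
    rw [← map_zpow, ← hn, MulEquiv.apply_symm_apply]
  pos := by
    intro z hz
    have h1 := h.pos _ (mem_im.1 hz)
    rw [← ltD_im φ, map_mul, MulEquiv.apply_symm_apply] at h1
    exact h1

theorem IsGen.compl (hD : WCut D) {γ : F g} (h : IsGen D γ) : IsGen Dᶜ γ⁻¹ := by
  have hmem : γ⁻¹ ∈ stD Dᶜ := by
    rw [stD_compl]
    exact (stD D).inv_mem h.mem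
  have hpow : ∀ x ∈ stD Dᶜ, ∃ n : ℤ, x = γ⁻¹ ^ n := by
    intro x hx
    rw [stD_compl] at hx
    obtain ⟨n, hn⟩ := h.pow x hx
    exact ⟨-n, by rw [hn, inv_zpow', neg_neg]⟩
  obtain ⟨δ, hδ⟩ := exists_gen hD.compl
  -- `δ` is a power of `γ` and generates
  have hδ1 : δ ∈ stD D := by
    rw [← stD_compl]
    exact hδ.mem
  obtain ⟨n, hn⟩ := h.pow δ hδ1
  obtain ⟨m, hm⟩ := hδ.pow γ (by rw [stD_compl]; exact h.mem)
  have h1 : γ ^ (1 : ℤ) = γ ^ (n * m) := by
    rw [zpow_one, zpow_mul, ← hn, ← hm]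
  have h2 := h.zpow_inj hD h1
  have h3 : IsUnit n := IsUnit.of_mul_eq_one m h2.symm
  rcases Int.isUnit_iff.1 h3 with rfl | rfl
  · exfalso
    rw [zpow_one] at hn
    subst hn
    obtain ⟨l, z, hz, hzl⟩ := exists_letter hD
    have a1 := h.pos z hz
    have a2 := hδ.pos (z * le l) hzl
    have a3 := a1.2.2.2 _ hzl
    have a4 : δ * (z * le l) ∉ D := fun hh => hzl ((mul_mem_iff h.mem).1 hh)
    have a5 := a1.2.2.2 _ a4
    have a6 := a2.2.2.2 z (fun hh => hh hz)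
    have a7 := a2.2.2.2 (δ * z) (fun hh => hh ((mul_mem_iff h.mem).2 hz))
    have hU := U_iff.1 (U_letter l l) z (δ * z)
    apply hU
    rw [mul_assoc]
    unfold Cr Cyc at *
    grind
  · rw [zpow_neg, zpow_one] at hn
    rwa [hn] at hδ

end TorG
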