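import Mathlib
import Pool.Agent.Lib.MP_05cdf2_gt.G.CutGen

/-! MP_05cdf2_gt, stream G (helper49): the signed number of translates of a closed cut which separate `1` from
`x` is `om (abv γ) (abv x)`, `γ` the positive generator of the stabiliser.

Assume `1 ∈ D`. Then `{h | h < γ}` is a fundamental domain for the action of `γ` on `D`. In
`pr γ x = ∑ h, ([h x < γ] - [h < γ])` sum first over the cosets `γ^ℤ h`. -/

set_option autoImplicit false

namespace TorG
open TorM

variable {g : ℕ} {D : Set (F g)}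

/-- `w` is in `[1, γ)` -/
theorem lt_gen_iff (hD : WCut D) {γ : F g} (hγ : IsGen D γ) (h1 : (1 : F g) ∈ D) (w : F g) :
    w < γ ↔ w ∈ D ∧ (w = 1 ∨ LtD D 1 w) ∧ LtD D w γ := by
  obtain ⟨c, hc⟩ := hD.ne'
  have hp := hγ.pos 1 h1
  rw [mul_one] at hp
  have e1 := hp.2.2.2 c hc
  have o1 := one_le γ
  have o2 := one_le w
  have o3 := one_le c
  constructor
  · intro hw
    have hwD : w ∈ D := by
      by_contra hn
      have := hp.2.2.2 w hn
      unfold Cyc at this
      grind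
    refine ⟨hwD, ?_, ?_⟩
    · by_cases hw1 : w = 1
      · exact Or.inl hw1
      · right
        refine ltD_of hD h1 hwD hc ?_
        have := one_lt hw1
        unfold Cyc at *
        grind
    · refine ltD_of hD hwD hp.2.1 hc ?_
      unfold Cyc at *
      grind
  · rintro ⟨-, h2, h3⟩
    have e2 := h3.2.2.2 c hc
    rcases h2 with rfl | h2
    · unfold Cyc at *
      grind
    · have e3 := h2.2.2.2 c hc
      unfold Cyc at *
      grind

theorem floor_ex (hD : WCut D) {γ : F g} (hγ : IsGen D γ) (h1 : (1 : F g) ∈ D) {h : F g} (hh : h ∈ D) :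
    ∃ n : ℤ, γ ^ n * h < γ := by
  obtain ⟨a, ha⟩ := hγ.arch hD h1 hh
  obtain ⟨b, hb⟩ := hγ.arch' hD h1 hh
  rw [mul_one] at ha hb
  have hmem : ∀ k : ℤ, γ ^ k ∈ D := fun k => by
    have := (mul_mem_iff (pow_mem_stD hγ.mem k)).2 h1
    rwa [mul_one] at this
  have hlt : ∀ {n m : ℤ}, n < m → LtD D (γ ^ n) (γ ^ m) := by
    intro n m hnm
    have := hγ.lt hD h1 hnm
    rwa [mul_one, mul_one] at this
  obtain ⟨k, hk, hk2⟩ := Int.exists_greatest_of_bdd
    (P := fun k : ℤ => LtD D (γ ^ k) h ∨ γ ^ k = h)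
    ⟨a, fun k hk => by
      by_contra hlt2
      have h5 := hlt (n := a) (m := k) (by omega)
      have h6 := ha.trans hD h5
      rcases hk with hk | hk
      · exact h6.asymm hD hk
      · rw [hk] at h6
        exact LtD.irrefl h6⟩ ⟨b, Or.inl hb⟩
  refine ⟨-k, ?_⟩
  rw [lt_gen_iff hD hγ h1]
  refine ⟨(mul_mem_iff (pow_mem_stD hγ.mem _)).2 hh, ?_, ?_⟩
  · rcases hk with hk | hk
    · right
      rw [← ltD_stD (pow_mem_stD hγ.mem k), mul_one, ← mul_assoc, ← zpow_add, add_neg_cancel, zpow_zero,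
        one_mul]
      exact hk
    · left
      rw [← hk, ← zpow_add, neg_add_cancel, zpow_zero]
  · rw [← ltD_stD (pow_mem_stD hγ.mem k), ← mul_assoc, ← zpow_add, add_neg_cancel, zpow_zero,
      one_mul, ← zpow_add_one]
    rcases ltD_trichotomy hD hh (hmem (k + 1)) with h8 | h8 | h8
    · exact h8
    · have := hk2 (k + 1) (Or.inr h8.symm)
      omega
    · have := hk2 (k + 1) (Or.inl h8)
      omega

theorem floor_unique (hD : WCut D) {γ : F g} (hγ : IsGen D γ) (h1 : (1 : F g) ∈ D) {h : F g} {n m : ℤ}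
    (hn : γ ^ n * h < γ) (hm : γ ^ m * h < γ) : n = m := by
  have key : ∀ {n m : ℤ}, n < m → γ ^ n * h < γ → γ ^ m * h < γ → False := by
    intro n m hnm hn hm
    rw [lt_gen_iff hD hγ h1] at hn hm
    obtain ⟨a1, a2, a3⟩ := hn
    obtain ⟨b1, b2, b3⟩ := hm
    have e : γ ^ m * h = γ ^ (m - n) * (γ ^ n * h) := by
      rw [← mul_assoc, ← zpow_add, sub_add_cancel]
    -- `γ ≼ γ^(m-n) ≼ γ^m h`
    have c1 : γ = γ ^ (m - n) ∨ LtD D γ (γ ^ (m - n)) := by
      by_cases hmn : m - n = 1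
      · left
        rw [hmn, zpow_one]
      · right
        have := hγ.lt hD h1 (n := 1) (m := m - n) (by omega)
        rwa [zpow_one, mul_one, mul_one] at this
    have c2 : γ ^ (m - n) = γ ^ m * h ∨ LtD D (γ ^ (m - n)) (γ ^ m * h) := by
      rw [e]
      rcases a2 with a2 | a2
      · left
        rw [a2, mul_one]
      · right
        have := (ltD_stD (pow_mem_stD hγ.mem (m - n))).2 a2
        rwa [mul_one] at this
    rcases c1 with c1 | c1
    · rw [← c1] at c2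
      rcases c2 with c2 | c2
      · rw [← c2] at b3
        exact LtD.irrefl b3
      · exact c2.asymm hD b3
    · rcases c2 with c2 | c2
      · rw [← c2] at b3
        exact c1.asymm hD b3
      · exact (c1.trans hD c2).asymm hD b3
  rcases lt_trichotomy n m with h2 | h2 | h2
  · exact (key h2 hn hm).elim
  · exact h2
  · exact (key h2 hm hn).elim

open Classical in
theorem floor_sum (hD : WCut D) {γ : F g} (hγ : IsGen D γ) (h1 : (1 : F g) ∈ D) (h : F g) :
    ∑ᶠ n : ℤ, (if γ ^ n * h < γ then (1 : ℤ) else 0) = if h ∈ D then 1 else 0 := by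
  by_cases hh : h ∈ D
  · obtain ⟨n, hn⟩ := floor_ex hD hγ h1 hh
    rw [if_pos hh, finsum_eq_single _ n]
    · rw [if_pos hn]
    · intro m hm
      rw [if_neg]
      intro h2
      exact hm (floor_unique hD hγ h1 h2 hn)
  · rw [if_neg hh]
    refine finsum_eq_zero_of_forall_eq_zero fun n => ?_
    rw [if_neg]
    intro h2
    rw [lt_gen_iff hD hγ h1] at h2
    exact hh ((mul_mem_iff (pow_mem_stD hγ.mem n)).1 h2.1)

open Classical in
theorem floor_supp (hD : WCut D) {γ : F g} (hγ : IsGen D γ) (h1 : (1 : F g) ∈ D) (h : F g) :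
    (Function.support fun n : ℤ => if γ ^ n * h < γ then (1 : ℤ) else 0).Finite := by
  refine Set.Subsingleton.finite fun n hn m hm => ?_
  have h2 : γ ^ n * h < γ := by
    by_contra h3
    exact hn (if_neg h3)
  have h4 : γ ^ m * h < γ := by
    by_contra h3
    exact hm (if_neg h3)
  exact floor_unique hD hγ h1 h2 h4

open Classical in
theorem coset_sum (hD : WCut D) {γ : F g} (hγ : IsGen D γ) (h1 : (1 : F g) ∈ D) (x h : F g) :
    ∑ᶠ n : ℤ, pt γ x (γ ^ n * h) = (if h * x ∈ D then (1 : ℤ) else 0) - if h ∈ D then 1 else 0 := by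
  rw [← floor_sum hD hγ h1 (h * x), ← floor_sum hD hγ h1 h, ← finsum_sub_distrib
    (floor_supp hD hγ h1 _) (floor_supp hD hγ h1 _)]
  refine finsum_congr fun n => ?_
  unfold pt
  rw [mul_assoc]

open Classical in
theorem cross_aux (hD : WCut D) {γ : F g} (hγ : IsGen D γ) (h1 : (1 : F g) ∈ D) (x : F g) :
    (({A | (∃ h, A = tr h D) ∧ (1 : F g) ∉ A ∧ x ∈ A}.ncard : ℤ) -
      ({A | (∃ h, A = tr h D) ∧ (1 : F g) ∈ A ∧ x ∉ A}.ncard : ℤ)) = pr γ x := by
  let S := (pt_supp γ x).toFinset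
  let p : F g → Set (F g) := fun h => tr h⁻¹ D
  let T0 := (hD.fin 1 x).toFinset
  let t := S.image p ∪ T0
  have hpr : pr γ x = ∑ h ∈ S, pt γ x h := finsum_eq_sum _ (pt_supp γ x)
  have hmap : ∀ h ∈ S, p h ∈ t := fun h hh => Finset.mem_union_left _ (Finset.mem_image_of_mem _ hh)
  rw [hpr, ← Finset.sum_fiberwise_of_maps_to hmap]
  have hfib : ∀ A ∈ t, ∑ h ∈ S with p h = A, pt γ x h =
      (if x ∈ A then (1 : ℤ) else 0) - if (1 : F g) ∈ A then 1 else 0 := by
    intro A hA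
    obtain ⟨h0, rfl⟩ : ∃ h0, A = p h0 := by
      rcases Finset.mem_union.1 hA with hA | hA
      · obtain ⟨h0, -, rfl⟩ := Finset.mem_image.1 hA
        exact ⟨h0, rfl⟩
      · obtain ⟨⟨h, rfl⟩, -⟩ := (Set.Finite.mem_toFinset _).1 hA
        exact ⟨h⁻¹, by show tr h D = tr h⁻¹⁻¹ D; rw [_root_.inv_inv]⟩
    have e1 : ∑ h ∈ S with p h = p h0, pt γ x h = ∑ᶠ h ∈ {h | p h = p h0}, pt γ x h := by
      rw [finsum_mem_eq_sum_filter _ _ (pt_supp γ x)]
      rfl
    have inj : Function.Injective fun n : ℤ => γ ^ n * h0 := by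
      intro n m hnm
      exact hγ.zpow_inj hD (mul_right_cancel hnm)
    have e2 : {h | p h = p h0} = Set.range fun n : ℤ => γ ^ n * h0 := by
      ext h
      constructor
      · intro hh
        have h2 : h * h0⁻¹ ∈ stD D := tr_inv_eq (D := D) (x := h0) (y := h) hh.symm
        obtain ⟨n, hn⟩ := hγ.pow _ h2
        exact ⟨n, by show γ ^ n * h0 = h; rw [← hn]; group⟩
      · rintro ⟨n, rfl⟩
        show tr (γ ^ n * h0)⁻¹ D = tr h0⁻¹ D
        rw [mul_inv_rev, ← tr_tr]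
        congr 1
        exact (stD D).inv_mem (pow_mem_stD hγ.mem n)
    rw [e1, e2, finsum_mem_range inj, coset_sum hD hγ h1 x h0]
    show _ = (if h0⁻¹⁻¹ * x ∈ D then (1 : ℤ) else 0) - if h0⁻¹⁻¹ * 1 ∈ D then 1 else 0
    rw [_root_.inv_inv, mul_one]
  rw [Finset.sum_congr rfl hfib]
  have horb : ∀ A ∈ t, ∃ h, A = tr h D := by
    intro A hA
    rcases Finset.mem_union.1 hA with hA | hA
    · obtain ⟨h0, -, rfl⟩ := Finset.mem_image.1 hA
      exact ⟨_, rfl⟩
    · exact ((Set.Finite.mem_toFinset _).1 hA).1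
  have hin : ∀ A, (∃ h, A = tr h D) → ¬ ((1 : F g) ∈ A ↔ x ∈ A) → A ∈ t := fun A h2 h3 =>
    Finset.mem_union_right _ ((Set.Finite.mem_toFinset _).2 ⟨h2, h3⟩)
  have c1 : {A | (∃ h, A = tr h D) ∧ (1 : F g) ∉ A ∧ x ∈ A} = ((t.filter fun A => (1 : F g) ∉ A ∧ x ∈ A : Finset (Set (F g))) : Set (Set (F g))) := by
    ext A
    rw [Finset.coe_filter]
    constructor
    · rintro ⟨a1, a2, a3⟩
      exact ⟨hin A a1 (fun h => a2 (h.2 a3)), a2, a3⟩
    · rintro ⟨a1, a2⟩
      exact ⟨horb A a1, a2⟩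
  have c2 : {A | (∃ h, A = tr h D) ∧ (1 : F g) ∈ A ∧ x ∉ A} = ((t.filter fun A => (1 : F g) ∈ A ∧ x ∉ A : Finset (Set (F g))) : Set (Set (F g))) := by
    ext A
    rw [Finset.coe_filter]
    constructor
    · rintro ⟨a1, a2, a3⟩
      exact ⟨hin A a1 (fun h => a3 (h.1 a2)), a2, a3⟩
    · rintro ⟨a1, a2⟩
      exact ⟨horb A a1, a2⟩
  rw [c1, c2, Set.ncard_coe_finset, Set.ncard_coe_finset, Finset.card_filter, Finset.card_filter]
  push_cast
  rw [← Finset.sum_sub_distrib]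
  refine Finset.sum_congr rfl fun A _ => ?_
  by_cases a1 : (1 : F g) ∈ A <;> by_cases a2 : x ∈ A <;> simp [a1, a2]

/-- the crossing formula -/
theorem cross_formula (hD : WCut D) {γ : F g} (hγ : IsGen D γ) (x : F g) :
    (({A | (∃ h, A = tr h D) ∧ (1 : F g) ∉ A ∧ x ∈ A}.ncard : ℤ) -
      ({A | (∃ h, A = tr h D) ∧ (1 : F g) ∈ A ∧ x ∉ A}.ncard : ℤ)) = om (abv γ) (abv x) := by
  obtain ⟨z, hz⟩ := hD.ne
  have h1 : (1 : F g) ∈ tr z⁻¹ D := by
    rw [mem_tr, _root_.inv_inv, mul_one]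
    exact hz
  have h2 := cross_aux (hD.translate z⁻¹) (hγ.tr z⁻¹) h1 x
  rw [pr_eq] at h2
  have e1 : abv (z⁻¹ * γ * z⁻¹⁻¹) = abv γ := abv_conj _ _
  rw [e1] at h2
  rw [← h2]
  have e2 : ∀ A, (∃ h, A = tr h D) ↔ ∃ h, A = tr h (tr z⁻¹ D) := by
    intro A
    constructor
    · rintro ⟨h, rfl⟩
      exact ⟨h * z, by rw [tr_tr]; congr 1; group⟩
    · rintro ⟨h, rfl⟩
      exact ⟨_, tr_tr _ _ _⟩
  simp only [e2]

end TorG
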