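import Mathlib
import Pool.Agent.Lib.MP_05cdf2_gt.G.CutCross

/-! MP_05cdf2_gt, stream G (helper49): ordered products over finite chains of sets.

`IsL L S`: `L` lists the members of `S` in strictly decreasing order. `Pc c S`: the product of the `c A`, `A ∈ S`,
in decreasing order. -/

set_option autoImplicit false

namespace TorG
open TorM

variable {g : ℕ}

/-- `L` lists `S` in strictly decreasing order -/
def IsL (L : List (Set (F g))) (S : Set (Set (F g))) : Prop :=
  L.Pairwise (fun A B => B ⊂ A) ∧ ∀ A, A ∈ L ↔ A ∈ S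

theorem IsL.unique : ∀ {L L' : List (Set (F g))} {S : Set (Set (F g))}, IsL L S → IsL L' S → L = L'
  | [], [], _, _, _ => rfl
  | [], B :: L', _, h, h' => by
    have := (h.2 B).2 ((h'.2 B).1 List.mem_cons_self)
    exact absurd this List.not_mem_nil
  | A :: L, [], _, h, h' => by
    have := (h'.2 A).2 ((h.2 A).1 List.mem_cons_self)
    exact absurd this List.not_mem_nil
  | A :: L, B :: L', S, h, h' => by
    have hA := List.pairwise_cons.1 h.1
    have hB := List.pairwise_cons.1 h'.1
    have hAB : A = B := by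
      have h1 := (h'.2 A).2 ((h.2 A).1 List.mem_cons_self)
      have h2 := (h.2 B).2 ((h'.2 B).1 List.mem_cons_self)
      rcases List.mem_cons.1 h1 with h1 | h1
      · exact h1
      rcases List.mem_cons.1 h2 with h2 | h2
      · exact h2.symm
      · exact absurd (hA.1 B h2) (hB.1 A h1).asymm
    subst hAB
    congr 1
    have nA : A ∉ L := fun hh => (hA.1 A hh).ne rfl
    have nA' : A ∉ L' := fun hh => (hB.1 A hh).ne rfl
    refine IsL.unique (S := {C | C ∈ L}) ⟨hA.2, fun C => Iff.rfl⟩ ⟨hB.2, fun C => ?_⟩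
    constructor
    · intro hC
      have h1 := (h.2 C).2 ((h'.2 C).1 (List.mem_cons_of_mem _ hC))
      rcases List.mem_cons.1 h1 with h1 | h1
      · exact absurd (h1 ▸ hC) nA'
      · exact h1
    · intro hC
      have h1 := (h'.2 C).2 ((h.2 C).1 (List.mem_cons_of_mem _ hC))
      rcases List.mem_cons.1 h1 with h1 | h1
      · exact absurd (h1 ▸ hC) nA
      · exact h1

theorem exists_isL (n : ℕ) : ∀ S : Set (Set (F g)), S.Finite → (∀ A ∈ S, ∀ B ∈ S, A ⊆ B ∨ B ⊆ A) →
    S.ncard = n → ∃ L, IsL L S := by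
  induction n with
  | zero =>
    intro S hS _ h0
    rw [Set.ncard_eq_zero hS] at h0
    subst h0
    exact ⟨[], List.Pairwise.nil, fun A => by simp⟩
  | succ n ih =>
    intro S hS hch hn
    have hne : S.Nonempty := by
      rw [Set.nonempty_iff_ne_empty]
      rintro rfl
      simp at hn
    obtain ⟨M, hM, hmax⟩ := hS.exists_maximalFor id S hne
    have hmax2 : ∀ A ∈ S, A ⊆ M := by
      intro A hA
      rcases hch A hA M hM with h | h
      · exact h
      · exact hmax hA h
    obtain ⟨L, hL1, hL2⟩ := ih (S \ {M}) (hS.subset Set.sdiff_subset)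
      (fun A hA B hB => hch A hA.1 B hB.1) (by
        rw [Set.ncard_sdiff_singleton_of_mem hM, hn]
        rfl)
    refine ⟨M :: L, List.pairwise_cons.2 ⟨fun B hB => ?_, hL1⟩, fun A => ?_⟩
    · have hB2 := (hL2 B).1 hB
      exact (hmax2 B hB2.1).ssubset_of_ne hB2.2
    · rw [List.mem_cons, hL2]
      constructor
      · rintro (rfl | h)
        · exact hM
        · exact h.1
      · intro h
        by_cases hAM : A = M
        · exact Or.inl hAM
        · exact Or.inr ⟨h, hAM⟩

open Classical in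
/-- the ordered product -/
noncomputable def Pc (c : Set (F g) → F g) (S : Set (Set (F g))) : F g :=
  if h : ∃ L, IsL L S then (h.choose.map c).prod else 1

theorem Pc_eq {c : Set (F g) → F g} {S : Set (Set (F g))} {L : List (Set (F g))} (h : IsL L S) :
    Pc c S = (L.map c).prod := by
  have hex : ∃ L, IsL L S := ⟨L, h⟩
  unfold Pc
  rw [dif_pos hex, hex.choose_spec.unique h]

theorem isL_empty : IsL ([] : List (Set (F g))) ∅ := ⟨List.Pairwise.nil, fun A => by simp⟩

theorem Pc_empty (c : Set (F g) → F g) : Pc c ∅ = 1 := by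
  rw [Pc_eq isL_empty]
  rfl

theorem IsL.append {L L' : List (Set (F g))} {S S' : Set (Set (F g))} (h : IsL L S) (h' : IsL L' S')
    (hlt : ∀ A ∈ S, ∀ B ∈ S', B ⊂ A) : IsL (L ++ L') (S ∪ S') := by
  refine ⟨List.pairwise_append.2 ⟨h.1, h'.1, fun A hA B hB => hlt A ((h.2 A).1 hA) B ((h'.2 B).1 hB)⟩,
    fun A => ?_⟩
  rw [List.mem_append, h.2, h'.2]
  rfl

theorem IsL.reverse_compl {L : List (Set (F g))} {S : Set (Set (F g))} (h : IsL L S) :
    IsL (L.reverse.map fun A => Aᶜ) {A | Aᶜ ∈ S} := by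
  refine ⟨?_, fun A => ?_⟩
  · rw [List.pairwise_map, List.pairwise_reverse]
    refine h.1.imp ?_
    intro A B hBA
    exact compl_lt_compl_iff_lt.2 hBA
  · rw [List.mem_map]
    constructor
    · rintro ⟨B, hB, rfl⟩
      rw [List.mem_reverse, h.2] at hB
      show Bᶜᶜ ∈ S
      rwa [compl_compl]
    · intro hA
      exact ⟨Aᶜ, by rw [List.mem_reverse, h.2]; exact hA, compl_compl A⟩

theorem IsL.tr {L : List (Set (F g))} {S : Set (Set (F g))} (h : IsL L S) (k : F g) :
    IsL (L.map (tr k)) {A | tr k⁻¹ A ∈ S} := by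
  refine ⟨?_, fun A => ?_⟩
  · rw [List.pairwise_map]
    refine h.1.imp ?_
    intro A B hBA
    exact ⟨tr_subset.2 hBA.1, fun hh => hBA.2 (tr_subset.1 hh)⟩
  · rw [List.mem_map]
    constructor
    · rintro ⟨B, hB, rfl⟩
      rw [h.2] at hB
      show TorG.tr k⁻¹ (TorG.tr k B) ∈ S
      rwa [tr_tr, inv_mul_cancel, tr_one]
    · intro hA
      exact ⟨TorG.tr k⁻¹ A, (h.2 _).2 hA, by rw [tr_tr, mul_inv_cancel, tr_one]⟩

theorem IsL.im {L : List (Set (F g))} {S : Set (Set (F g))} (h : IsL L S) (φ : MulAut (F g)) :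
    IsL (L.map (im φ)) {A | im φ⁻¹ A ∈ S} := by
  have e1 : ∀ A, TorG.im φ⁻¹ (TorG.im φ A) = A := by
    intro A
    ext x
    rw [mem_im, mem_im]
    show φ.symm (φ x) ∈ A ↔ _
    rw [MulEquiv.symm_apply_apply]
  have e2 : ∀ A, TorG.im φ (TorG.im φ⁻¹ A) = A := by
    intro A
    ext x
    rw [mem_im, mem_im]
    show φ (φ.symm x) ∈ A ↔ _
    rw [MulEquiv.apply_symm_apply]
  refine ⟨?_, fun A => ?_⟩
  · rw [List.pairwise_map]
    refine h.1.imp ?_
    intro A B hBA
    exact ⟨im_subset.2 hBA.1, fun hh => hBA.2 (im_subset.1 hh)⟩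
  · rw [List.mem_map]
    constructor
    · rintro ⟨B, hB, rfl⟩
      rw [h.2] at hB
      show TorG.im φ⁻¹ (TorG.im φ B) ∈ S
      rwa [e1]
    · intro hA
      exact ⟨TorG.im φ⁻¹ A, (h.2 _).2 hA, e2 A⟩

theorem map_prod_congr {α : Type} {c d : α → F g} {L : List α} (h : ∀ A ∈ L, c A = d A) :
    (L.map c).prod = (L.map d).prod := by
  rw [List.map_congr_left h]

theorem reverse_inv_prod {α : Type} (c : α → F g) (L : List α) :
    (L.reverse.map fun A => (c A)⁻¹).prod = ((L.map c).prod)⁻¹ := by
  induction L with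
  | nil => simp
  | cons A L ih =>
    rw [List.reverse_cons, List.map_append, List.prod_append, ih]
    simp

theorem conj_prod {α : Type} (c : α → F g) (k : F g) (L : List α) :
    (L.map fun A => k * c A * k⁻¹).prod = k * (L.map c).prod * k⁻¹ := by
  induction L with
  | nil => simp
  | cons A L ih =>
    rw [List.map_cons, List.prod_cons, ih, List.map_cons, List.prod_cons]
    group

/-- the list of the translated cuts -/
def scan (c : Set (F g) → F g) : F g → List (Set (F g)) → List (Set (F g))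
  | _, [] => []
  | p, A :: L => tr p A :: scan c (p * c A) L

theorem scan_map (c : Set (F g) → F g) (q : F g) : ∀ (L : List (Set (F g))) (p : F g),
    (scan c p L).map (tr q) = scan c (q * p) L
  | [], _ => rfl
  | A :: L, p => by
    show tr q (tr p A) :: (scan c (p * c A) L).map (tr q) = tr (q * p) A :: scan c (q * p * c A) L
    rw [scan_map c q L, tr_tr, mul_assoc]

end TorG
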