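import Mathlib
import Pool.Agent.Lib.MP_05cdf2_gt.G.Ab

/-! MP_05cdf2_gt, stream G (helper49): `Gam g` acts by symplectic matrices.

`Heis p q`: pairs `(u, s)` with `(u, s) (v, t) = (u + v, s + t + u p * v q)`. A homomorphism `F g → Heis p q`
over `M • abv` takes on `ζ` the value `(0, (M J Mᵀ) p q)` up to sign; compare the homomorphisms `ψ` and
`ψ ∘ φ`. -/

set_option autoImplicit false

namespace TorG
open TorM Matrix

variable {g : ℕ}

/-- a Heisenberg group -/
structure Heis (g : ℕ) (p q : Gen g) where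
  /-- abelian part -/
  u : Gen g → ℤ
  /-- central part -/
  s : ℤ

namespace Heis
variable {p q : Gen g}

@[ext] theorem ext' {x y : Heis g p q} (h1 : x.u = y.u) (h2 : x.s = y.s) : x = y := by
  cases x; cases y; simp_all

instance : Mul (Heis g p q) := ⟨fun x y => ⟨x.u + y.u, x.s + y.s + x.u p * y.u q⟩⟩
instance : One (Heis g p q) := ⟨⟨0, 0⟩⟩
instance : Inv (Heis g p q) := ⟨fun x => ⟨-x.u, -x.s + x.u p * x.u q⟩⟩

@[simp] theorem mul_u (x y : Heis g p q) : (x * y).u = x.u + y.u := rfl
@[simp] theorem mul_s (x y : Heis g p q) : (x * y).s = x.s + y.s + x.u p * y.u q := rfl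
@[simp] theorem one_u : (1 : Heis g p q).u = 0 := rfl
@[simp] theorem one_s : (1 : Heis g p q).s = 0 := rfl
@[simp] theorem inv_u (x : Heis g p q) : x⁻¹.u = -x.u := rfl
@[simp] theorem inv_s (x : Heis g p q) : x⁻¹.s = -x.s + x.u p * x.u q := rfl

instance : Group (Heis g p q) where
  mul_assoc x y z := by
    ext
    · simp [add_assoc]
    · simp; ring
  one_mul x := by ext <;> simp
  mul_one x := by ext <;> simp
  inv_mul_cancel x := by ext <;> simp

/-- projection to the abelian part -/
def toU : Heis g p q →* Multiplicative (Gen g → ℤ) where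
  toFun x := Multiplicative.ofAdd x.u
  map_one' := rfl
  map_mul' _ _ := rfl

/-- the standard homomorphism -/
noncomputable def std (p q : Gen g) : F g →* Heis g p q :=
  FreeGroup.lift fun i => ⟨Pi.single i 1, 0⟩

theorem std_u (x : F g) : (std p q x).u = abv x := by
  have h : (toU (p := p) (q := q)).comp (std p q) = ab := by
    ext i
    simp [std, toU, ab]
  exact congrArg Multiplicative.toAdd (DFunLike.congr_fun h x)

open scoped commutatorElement in
theorem comm_s (x y : Heis g p q) : ⁅x, y⁆.s = x.u p * y.u q - y.u p * x.u q := by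
  simp [commutatorElement_def]
  ring

open scoped commutatorElement in
theorem comm_u (x y : Heis g p q) : ⁅x, y⁆.u = 0 := by
  simp [commutatorElement_def]

theorem list_prod (l : List (Heis g p q)) (h : ∀ x ∈ l, x.u = 0) :
    l.prod.u = 0 ∧ l.prod.s = (l.map fun x => x.s).sum := by
  induction l with
  | nil => simp
  | cons x l ih =>
    have hx := h x List.mem_cons_self
    obtain ⟨h1, h2⟩ := ih fun y hy => h y (List.mem_cons_of_mem _ hy)
    simp [hx, h1, h2]

open scoped commutatorElement in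
theorem map_zeta_s (Ψ : F g →* Heis g p q) : (Ψ (zeta g)).s =
    ∑ i : Fin g, ((Ψ (FreeGroup.of (Sum.inl i))).u p * (Ψ (FreeGroup.of (Sum.inr i))).u q -
      (Ψ (FreeGroup.of (Sum.inr i))).u p * (Ψ (FreeGroup.of (Sum.inl i))).u q) := by
  unfold zeta
  rw [map_list_prod, List.map_map]
  rw [(list_prod _ ?_).2, List.map_map]
  · rw [← List.ofFn_eq_map, List.sum_ofFn]
    refine Finset.sum_congr rfl fun i _ => ?_
    simp only [Function.comp_apply, map_commutatorElement]
    rw [comm_s]
  · intro x hx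
    obtain ⟨i, -, rfl⟩ := List.mem_map.1 hx
    simp only [Function.comp_apply, map_commutatorElement]
    exact comm_u _ _

end Heis

theorem rhoM_symp {φ : MulAut (F g)} (h : φ (zeta g) = zeta g) :
    rhoM φ ∈ symplecticGroup (Fin g) ℤ := by
  rw [SymplecticGroup.mem_iff]
  have key : ∀ p q : Gen g, ∑ i : Fin g, (rhoM φ p (Sum.inl i) * rhoM φ q (Sum.inr i) -
      rhoM φ p (Sum.inr i) * rhoM φ q (Sum.inl i)) =
      ∑ i : Fin g, ((1 : Matrix (Gen g) (Gen g) ℤ) p (Sum.inl i) * (1 : Matrix (Gen g) (Gen g) ℤ) q (Sum.inr i) -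
      (1 : Matrix (Gen g) (Gen g) ℤ) p (Sum.inr i) * (1 : Matrix (Gen g) (Gen g) ℤ) q (Sum.inl i)) := by
    intro p q
    have h1 := Heis.map_zeta_s (p := p) (q := q) (Heis.std p q)
    have h2 := Heis.map_zeta_s (p := p) (q := q) ((Heis.std p q).comp φ.toMonoidHom)
    have h3 : ((Heis.std p q).comp φ.toMonoidHom) (zeta g) = Heis.std p q (zeta g) := by
      show Heis.std p q (φ (zeta g)) = _
      rw [h]
    rw [h3, h1] at h2
    have e : ∀ j : Gen g, (((Heis.std p q).comp φ.toMonoidHom) (FreeGroup.of j)).u =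
        fun i => rhoM φ i j := by
      intro j
      show (Heis.std p q (φ (FreeGroup.of j))).u = _
      rw [Heis.std_u]
      rfl
    simp only [e, Heis.std_u, abv_of] at h2
    rw [← h2]
    simp [Matrix.one_apply, Pi.single_apply, eq_comm]
  ext p q
  have e : ∀ M : Matrix (Gen g) (Gen g) ℤ, (M * J (Fin g) ℤ * Mᵀ) p q =
      -∑ i : Fin g, (M p (Sum.inl i) * M q (Sum.inr i) - M p (Sum.inr i) * M q (Sum.inl i)) := by
    intro M
    rw [Matrix.mul_apply, Fintype.sum_sum_type, ← Finset.sum_neg_distrib, ← Finset.sum_add_distrib]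
    refine Finset.sum_congr rfl fun i _ => ?_
    have e1 : (M * J (Fin g) ℤ) p (Sum.inl i) = M p (Sum.inr i) := by
      rw [Matrix.mul_apply, Fintype.sum_sum_type]
      simp [J, Matrix.one_apply]
    have e2 : (M * J (Fin g) ℤ) p (Sum.inr i) = - M p (Sum.inl i) := by
      rw [Matrix.mul_apply, Fintype.sum_sum_type]
      simp [J, Matrix.one_apply]
    rw [e1, e2, Matrix.transpose_apply, Matrix.transpose_apply]
    ring
  rw [e, key, ← e, Matrix.transpose_one, Matrix.mul_one, Matrix.one_mul]

/-- the symplectic representation -/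
noncomputable def rho (g : ℕ) : Gam g →* symplecticGroup (Fin g) ℤ where
  toFun φ := ⟨rhoM (φ : MulAut (F g)), rhoM_symp φ.2⟩
  map_one' := Subtype.ext rhoM_one
  map_mul' φ ψ := Subtype.ext (rhoM_mul _ _)

theorem rho_val (φ : Gam g) : ((rho g φ : symplecticGroup (Fin g) ℤ) : Matrix (Gen g) (Gen g) ℤ) =
    rhoM (φ : MulAut (F g)) := rfl

/-- the Torelli group of the surface with one boundary component -/
noncomputable def Tor1 (g : ℕ) : Subgroup (Gam g) := (rho g).ker

noncomputable instance (g : ℕ) : (Tor1 g).Normal := by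
  unfold Tor1
  infer_instance

theorem mem_Tor1 (φ : Gam g) : φ ∈ Tor1 g ↔ ∀ x, abv ((φ : MulAut (F g)) x) = abv x := by
  unfold Tor1
  rw [MonoidHom.mem_ker, ← rhoM_eq_one_iff, ← rho_val]
  constructor
  · intro h
    rw [h]
    rfl
  · intro h
    exact Subtype.ext h

end TorG
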