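import Mathlib
import Pool.Agent.Lib.MP_05cdf2_gt.G.Symp

/-! MP_05cdf2_gt, stream G (helper49): elements of `Gam g`.

`mvA i`: `b_i ↦ b_i a_i`. `mvB i`: `a_i ↦ a_i b_i`. For consecutive handles `i, j`:
`mvC i j`: `a_i ↦ a_i u`, `b_i ↦ u⁻¹ b_i u`, `a_j ↦ u⁻¹ a_j` with `u = b_i⁻¹ a_j b_j a_j⁻¹`;
`mvP i j`: `a_i ↦ a_j`, `b_i ↦ b_j`, `a_j ↦ c⁻¹ a_i c`, `b_j ↦ c⁻¹ b_i c` with `c = [a_j, b_j]`. -/

set_option autoImplicit false

namespace TorG
open TorM Matrix
open scoped commutatorElement

variable {g : ℕ}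

/-- `a_i` -/
def ga (i : Fin g) : F g := FreeGroup.of (Sum.inl i)
/-- `b_i` -/
def gb (i : Fin g) : F g := FreeGroup.of (Sum.inr i)

/-- an endomorphism from the images of the generators -/
def endo (A B : Fin g → F g) : F g →* F g := FreeGroup.lift (Sum.elim A B)

@[simp] theorem endo_ga (A B : Fin g → F g) (i : Fin g) : endo A B (ga i) = A i := by
  simp [endo, ga]

@[simp] theorem endo_gb (A B : Fin g → F g) (i : Fin g) : endo A B (gb i) = B i := by
  simp [endo, gb]

theorem endo_ext {φ ψ : F g →* F g} (h1 : ∀ i, φ (ga i) = ψ (ga i)) (h2 : ∀ i, φ (gb i) = ψ (gb i)) :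
    φ = ψ := by
  ext i
  rcases i with i | i
  · exact h1 i
  · exact h2 i

/-- an automorphism from two mutually inverse endomorphisms -/
def mkAut (φ ψ : F g →* F g) (h1 : ψ.comp φ = MonoidHom.id _) (h2 : φ.comp ψ = MonoidHom.id _) :
    MulAut (F g) where
  toFun := φ
  invFun := ψ
  left_inv x := DFunLike.congr_fun h1 x
  right_inv x := DFunLike.congr_fun h2 x
  map_mul' := φ.map_mul

@[simp] theorem mkAut_apply (φ ψ : F g →* F g) (h1 : ψ.comp φ = MonoidHom.id _)
    (h2 : φ.comp ψ = MonoidHom.id _) (x : F g) : mkAut φ ψ h1 h2 x = φ x := rfl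

theorem zeta_eq (g : ℕ) : zeta g = ((List.finRange g).map fun i => ⁅ga i, gb i⁆).prod := rfl

theorem fix_zeta_one (φ : F g →* F g) (h : ∀ k, φ ⁅ga k, gb k⁆ = ⁅ga k, gb k⁆) : φ (zeta g) = zeta g := by
  rw [zeta_eq, map_list_prod, List.map_map]
  congr 1
  exact List.map_congr_left fun i _ => h i

theorem finRange_split {i j : Fin g} (hij : (j : ℕ) = i + 1) :
    ∃ l1 l2 : List (Fin g), List.finRange g = l1 ++ [i, j] ++ l2 ∧ (∀ k ∈ l1, k ≠ i ∧ k ≠ j) ∧
      (∀ k ∈ l2, k ≠ i ∧ k ≠ j) := by
  have hj := j.isLt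
  have hi := i.isLt
  have e : List.finRange g = (List.finRange g).take i ++ ([i, j] ++ (List.finRange g).drop (i + 2)) := by
    conv_lhs => rw [← List.take_append_drop (i : ℕ) (List.finRange g)]
    congr 1
    rw [List.drop_eq_getElem_cons (by simp), List.drop_eq_getElem_cons (by simp; omega)]
    have h1 : (List.finRange g)[(i : ℕ)]'(by simp) = i := by simp
    have h2 : (List.finRange g)[(i : ℕ) + 1]'(by simp; omega) = j := by
      rw [List.getElem_finRange]
      exact Fin.ext hij.symm
    rw [h1, h2]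
    rfl
  refine ⟨(List.finRange g).take i, (List.finRange g).drop (i + 2), ?_, ?_, ?_⟩
  · rw [List.append_assoc]; exact e
  · intro k hk
    rw [List.mem_iff_getElem] at hk
    obtain ⟨n, hn, hk⟩ := hk
    rw [List.length_take] at hn
    have : (k : ℕ) = n := by
      rw [← hk]
      simp
    constructor
    · rintro rfl
      omega
    · rintro rfl
      omega
  · intro k hk
    rw [List.mem_iff_getElem] at hk
    obtain ⟨n, hn, hk⟩ := hk
    have : (k : ℕ) = i + 2 + n := by
      rw [← hk]
      simp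
    constructor
    · rintro rfl
      omega
    · rintro rfl
      omega

theorem fix_zeta_two {i j : Fin g} (hij : (j : ℕ) = i + 1) (φ : F g →* F g)
    (h : ∀ k, k ≠ i → k ≠ j → φ ⁅ga k, gb k⁆ = ⁅ga k, gb k⁆)
    (h2 : φ (⁅ga i, gb i⁆ * ⁅ga j, gb j⁆) = ⁅ga i, gb i⁆ * ⁅ga j, gb j⁆) : φ (zeta g) = zeta g := by
  obtain ⟨l1, l2, e, h3, h4⟩ := finRange_split hij
  rw [zeta_eq, e]
  have e1 : φ (l1.map fun i => ⁅ga i, gb i⁆).prod = (l1.map fun i => ⁅ga i, gb i⁆).prod := by
    rw [map_list_prod, List.map_map]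
    congr 1
    exact List.map_congr_left fun k hk => h k (h3 k hk).1 (h3 k hk).2
  have e2 : φ (l2.map fun i => ⁅ga i, gb i⁆).prod = (l2.map fun i => ⁅ga i, gb i⁆).prod := by
    rw [map_list_prod, List.map_map]
    congr 1
    exact List.map_congr_left fun k hk => h k (h4 k hk).1 (h4 k hk).2
  have e3 : φ (([i, j].map fun i => ⁅ga i, gb i⁆).prod) = ([i, j].map fun i => ⁅ga i, gb i⁆).prod := by
    simpa only [List.map_cons, List.map_nil, List.prod_cons, List.prod_nil, mul_one] using h2
  rw [List.map_append, List.map_append, List.prod_append, List.prod_append, map_mul, map_mul, e1, e2, e3]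

/-- `b_i ↦ b_i a_i` -/
def mvA (i : Fin g) : Gam g :=
  ⟨mkAut (endo ga fun k => if k = i then gb i * ga i else gb k)
    (endo ga fun k => if k = i then gb i * (ga i)⁻¹ else gb k)
    (endo_ext (by intro k; simp) (by intro k; by_cases hk : k = i <;> simp [hk]))
    (endo_ext (by intro k; simp) (by intro k; by_cases hk : k = i <;> simp [hk])), by
    refine fix_zeta_one (endo ga fun k => if k = i then gb i * ga i else gb k) fun k => ?_
    rw [map_commutatorElement]
    by_cases hk : k = i
    · subst hk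
      simp only [endo_ga, endo_gb, if_true, commutatorElement_def]
      group
    · simp [hk]⟩

/-- `a_i ↦ a_i b_i` -/
def mvB (i : Fin g) : Gam g :=
  ⟨mkAut (endo (fun k => if k = i then ga i * gb i else ga k) gb)
    (endo (fun k => if k = i then ga i * (gb i)⁻¹ else ga k) gb)
    (endo_ext (by intro k; by_cases hk : k = i <;> simp [hk]) (by intro k; simp))
    (endo_ext (by intro k; by_cases hk : k = i <;> simp [hk]) (by intro k; simp)), by
    refine fix_zeta_one (endo (fun k => if k = i then ga i * gb i else ga k) gb) fun k => ?_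
    rw [map_commutatorElement]
    by_cases hk : k = i
    · subst hk
      simp only [endo_ga, endo_gb, if_true, commutatorElement_def]
      group
    · simp [hk]⟩

section
variable (i j : Fin g)

/-- `u = b_i⁻¹ a_j b_j a_j⁻¹` -/
def mvu : F g := (gb i)⁻¹ * ga j * gb j * (ga j)⁻¹

/-- the endomorphism of `mvC` -/
def eC : F g →* F g :=
  endo (fun k => if k = i then ga i * mvu i j else if k = j then (mvu i j)⁻¹ * ga j else ga k)
    (fun k => if k = i then (mvu i j)⁻¹ * gb i * mvu i j else gb k)

/-- its inverse -/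
def eC' : F g →* F g :=
  endo (fun k => if k = i then ga i * (mvu i j)⁻¹ else if k = j then mvu i j * ga j else ga k)
    (fun k => if k = i then mvu i j * gb i * (mvu i j)⁻¹ else gb k)

variable {i j}

theorem eC_u (hij : i ≠ j) : eC i j (mvu i j) = mvu i j := by
  simp only [mvu, eC, map_mul, map_inv, endo_ga, endo_gb, if_neg hij.symm, if_true]
  group

theorem eC'_u (hij : i ≠ j) : eC' i j (mvu i j) = mvu i j := by
  simp only [mvu, eC', map_mul, map_inv, endo_ga, endo_gb, if_neg hij.symm, if_true]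
  group

theorem eC'_eC (hij : i ≠ j) : (eC' i j).comp (eC i j) = MonoidHom.id _ := by
  have h := eC'_u hij
  refine endo_ext (fun k => ?_) (fun k => ?_)
  · rw [MonoidHom.comp_apply, MonoidHom.id_apply]
    unfold eC
    rw [endo_ga]
    split_ifs with h1 h2
    · subst h1
      rw [map_mul, h]
      simp [eC']
    · subst h2
      rw [map_mul, map_inv, h]
      simp [eC', h1]
    · simp [eC', h1, h2]
  · rw [MonoidHom.comp_apply, MonoidHom.id_apply]
    unfold eC
    rw [endo_gb]
    split_ifs with h1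
    · subst h1
      rw [map_mul, map_mul, map_inv, h]
      simp [eC', mul_assoc]
    · simp [eC', h1]

theorem eC_eC' (hij : i ≠ j) : (eC i j).comp (eC' i j) = MonoidHom.id _ := by
  have h := eC_u hij
  refine endo_ext (fun k => ?_) (fun k => ?_)
  · rw [MonoidHom.comp_apply, MonoidHom.id_apply]
    unfold eC'
    rw [endo_ga]
    split_ifs with h1 h2
    · subst h1
      rw [map_mul, map_inv, h]
      simp [eC]
    · subst h2
      rw [map_mul, h]
      simp [eC, h1]
    · simp [eC, h1, h2]
  · rw [MonoidHom.comp_apply, MonoidHom.id_apply]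
    unfold eC'
    rw [endo_gb]
    split_ifs with h1
    · subst h1
      rw [map_mul, map_mul, map_inv, h]
      simp [eC, mul_assoc]
    · simp [eC, h1]

theorem eC_zeta (hij : (j : ℕ) = i + 1) : eC i j (zeta g) = zeta g := by
  have hne : i ≠ j := by rintro rfl; omega
  refine fix_zeta_two hij _ (fun k hk1 hk2 => ?_) ?_
  · rw [map_commutatorElement]
    simp [eC, hk1, hk2]
  · have e1 : eC i j (ga i) = ga i * mvu i j := by simp [eC]
    have e2 : eC i j (gb i) = (mvu i j)⁻¹ * gb i * mvu i j := by simp [eC]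
    have e3 : eC i j (ga j) = (mvu i j)⁻¹ * ga j := by simp [eC, hne.symm]
    have e4 : eC i j (gb j) = gb j := by simp [eC, hne.symm]
    rw [map_mul, map_commutatorElement, map_commutatorElement, e1, e2, e3, e4]
    simp only [commutatorElement_def, mvu]
    group

variable (i j)

/-- the swap of two consecutive handles -/
def eP : F g →* F g :=
  endo (fun k => if k = i then ga j else if k = j then ⁅ga j, gb j⁆⁻¹ * ga i * ⁅ga j, gb j⁆ else ga k)
    (fun k => if k = i then gb j else if k = j then ⁅ga j, gb j⁆⁻¹ * gb i * ⁅ga j, gb j⁆ else gb k)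

/-- its inverse -/
def eP' : F g →* F g :=
  endo (fun k => if k = j then ga i else if k = i then ⁅ga i, gb i⁆ * ga j * ⁅ga i, gb i⁆⁻¹ else ga k)
    (fun k => if k = j then gb i else if k = i then ⁅ga i, gb i⁆ * gb j * ⁅ga i, gb i⁆⁻¹ else gb k)

variable {i j}

theorem eP'_eP (hij : i ≠ j) : (eP' i j).comp (eP i j) = MonoidHom.id _ := by
  have h : eP' i j ⁅ga j, gb j⁆ = ⁅ga i, gb i⁆ := by
    rw [map_commutatorElement]
    simp [eP']
  refine endo_ext (fun k => ?_) (fun k => ?_)
  · rw [MonoidHom.comp_apply, MonoidHom.id_apply]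
    unfold eP
    rw [endo_ga]
    split_ifs with h1 h2
    · subst h1
      simp [eP']
    · subst h2
      rw [map_mul, map_mul, map_inv, h]
      simp only [eP', endo_ga, endo_gb, if_neg hij, if_true]
      group
    · simp [eP', h1, h2]
  · rw [MonoidHom.comp_apply, MonoidHom.id_apply]
    unfold eP
    rw [endo_gb]
    split_ifs with h1 h2
    · subst h1
      simp [eP']
    · subst h2
      rw [map_mul, map_mul, map_inv, h]
      simp only [eP', endo_ga, endo_gb, if_neg hij, if_true]
      group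
    · simp [eP', h1, h2]

theorem eP_eP' (hij : i ≠ j) : (eP i j).comp (eP' i j) = MonoidHom.id _ := by
  have h : eP i j ⁅ga i, gb i⁆ = ⁅ga j, gb j⁆ := by
    rw [map_commutatorElement]
    simp [eP]
  refine endo_ext (fun k => ?_) (fun k => ?_)
  · rw [MonoidHom.comp_apply, MonoidHom.id_apply]
    unfold eP'
    rw [endo_ga]
    split_ifs with h1 h2
    · subst h1
      simp [eP]
    · subst h2
      rw [map_mul, map_mul, map_inv, h]
      simp only [eP, endo_ga, endo_gb, if_neg hij.symm, if_true]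
      group
    · simp [eP, h1, h2]
  · rw [MonoidHom.comp_apply, MonoidHom.id_apply]
    unfold eP'
    rw [endo_gb]
    split_ifs with h1 h2
    · subst h1
      simp [eP]
    · subst h2
      rw [map_mul, map_mul, map_inv, h]
      simp only [eP, endo_ga, endo_gb, if_neg hij.symm, if_true]
      group
    · simp [eP, h1, h2]

theorem eP_zeta (hij : (j : ℕ) = i + 1) : eP i j (zeta g) = zeta g := by
  have hne : i ≠ j := by rintro rfl; omega
  refine fix_zeta_two hij _ (fun k hk1 hk2 => ?_) ?_
  · rw [map_commutatorElement]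
    simp [eP, hk1, hk2]
  · have e1 : eP i j (ga i) = ga j := by simp [eP]
    have e2 : eP i j (gb i) = gb j := by simp [eP]
    have e3 : eP i j (ga j) = ⁅ga j, gb j⁆⁻¹ * ga i * ⁅ga j, gb j⁆ := by simp [eP, hne.symm]
    have e4 : eP i j (gb j) = ⁅ga j, gb j⁆⁻¹ * gb i * ⁅ga j, gb j⁆ := by simp [eP, hne.symm]
    rw [map_mul, map_commutatorElement, map_commutatorElement, e1, e2, e3, e4]
    simp only [commutatorElement_def]
    group

end

/-- `mvC` -/
def mvC (i j : Fin g) (hij : (j : ℕ) = i + 1) : Gam g :=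
  have hne : i ≠ j := by rintro rfl; omega
  ⟨mkAut (eC i j) (eC' i j) (eC'_eC hne) (eC_eC' hne), eC_zeta hij⟩

/-- `mvP` -/
def mvP (i j : Fin g) (hij : (j : ℕ) = i + 1) : Gam g :=
  have hne : i ≠ j := by rintro rfl; omega
  ⟨mkAut (eP i j) (eP' i j) (eP'_eP hne) (eP_eP' hne), eP_zeta hij⟩

end TorG
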