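import Mathlib
import Pool.Agent.Lib.MP_05cdf2_gt.G.Moves
import Pool.Agent.Lib.MP_05cdf2_gt.C.Big

/-! MP_05cdf2_gt, stream G (helper49): `Gam g → Sp_2g(ℤ)` is onto for `g ≥ 3`.

`InI M`: the matrix `M` is the image of an element of `Gam g`. -/

set_option autoImplicit false

namespace TorG
open TorM Matrix
open Pool.Agent.Lib.MP_05cdf2_gt.C
open scoped commutatorElement
set_option linter.unusedSimpArgs false

variable {g : ℕ}

/-- the matrix `M` comes from `Gam g` -/
def InI (M : Matrix (Gen g) (Gen g) ℤ) : Prop := ∃ φ : Gam g, rhoM (φ : MulAut (F g)) = M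

theorem InI.one : InI (1 : Matrix (Gen g) (Gen g) ℤ) := ⟨1, rhoM_one⟩

theorem InI.mul {M N : Matrix (Gen g) (Gen g) ℤ} (hM : InI M) (hN : InI N) : InI (M * N) := by
  obtain ⟨φ, rfl⟩ := hM
  obtain ⟨ψ, rfl⟩ := hN
  exact ⟨φ * ψ, rhoM_mul _ _⟩

theorem InI.inv {M N : Matrix (Gen g) (Gen g) ℤ} (hM : InI M) (h : M * N = 1) : InI N := by
  obtain ⟨φ, rfl⟩ := hM
  refine ⟨φ⁻¹, ?_⟩
  have h1 : rhoM ((φ⁻¹ : Gam g) : MulAut (F g)) * rhoM (φ : MulAut (F g)) = 1 := by
    rw [← rhoM_mul, ← rhoM_one]
    congr 1
    exact inv_mul_cancel (φ : MulAut (F g))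
  calc rhoM ((φ⁻¹ : Gam g) : MulAut (F g)) = rhoM ((φ⁻¹ : Gam g) : MulAut (F g)) *
        (rhoM (φ : MulAut (F g)) * N) := by rw [h, mul_one]
    _ = N := by rw [← mul_assoc, h1, one_mul]

theorem abv_ga (k : Fin g) : abv (ga k) = Pi.single (Sum.inl k) 1 := abv_of _
theorem abv_gb (k : Fin g) : abv (gb k) = Pi.single (Sum.inr k) 1 := abv_of _

theorem rho_mvA (i : Fin g) : rhoM ((mvA i : Gam g) : MulAut (F g)) = UM (Matrix.single i i 1) := by
  have h1 : ∀ k, ((mvA i : Gam g) : MulAut (F g)) (ga k) = ga k :=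
    fun k => endo_ga ga (fun k => if k = i then gb i * ga i else gb k) k
  have h2 : ∀ k, ((mvA i : Gam g) : MulAut (F g)) (gb k) = if k = i then gb i * ga i else gb k :=
    fun k => endo_gb _ _ k
  ext p (q | q)
  · rw [rhoM_apply]
    show abv (((mvA i : Gam g) : MulAut (F g)) (ga q)) p = _
    rw [h1, abv_ga]
    rcases p with p | p <;> simp [UM, Matrix.one_apply, Pi.single_apply]
  · rw [rhoM_apply]
    show abv (((mvA i : Gam g) : MulAut (F g)) (gb q)) p = _
    rw [h2]
    by_cases hq : q = i
    · subst hq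
      rw [if_pos rfl, abv_mul, abv_ga, abv_gb]
      rcases p with p | p <;> simp [UM, Matrix.one_apply, Pi.single_apply, Matrix.single_apply, eq_comm]
    · rw [if_neg hq, abv_gb]
      rcases p with p | p <;> simp [UM, Matrix.one_apply, Pi.single_apply, Matrix.single_apply, hq, Ne.symm hq]

theorem rho_mvB (i : Fin g) : rhoM ((mvB i : Gam g) : MulAut (F g)) = LM (Matrix.single i i 1) := by
  have h1 : ∀ k, ((mvB i : Gam g) : MulAut (F g)) (gb k) = gb k :=
    fun k => endo_gb (fun k => if k = i then ga i * gb i else ga k) gb k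
  have h2 : ∀ k, ((mvB i : Gam g) : MulAut (F g)) (ga k) = if k = i then ga i * gb i else ga k :=
    fun k => endo_ga _ _ k
  ext p (q | q)
  · rw [rhoM_apply]
    show abv (((mvB i : Gam g) : MulAut (F g)) (ga q)) p = _
    rw [h2]
    by_cases hq : q = i
    · subst hq
      rw [if_pos rfl, abv_mul, abv_ga, abv_gb]
      rcases p with p | p <;> simp [LM, Matrix.one_apply, Pi.single_apply, Matrix.single_apply, eq_comm]
    · rw [if_neg hq, abv_ga]
      rcases p with p | p <;> simp [LM, Matrix.one_apply, Pi.single_apply, Matrix.single_apply, hq, Ne.symm hq]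
  · rw [rhoM_apply]
    show abv (((mvB i : Gam g) : MulAut (F g)) (gb q)) p = _
    rw [h1, abv_gb]
    rcases p with p | p <;> simp [LM, Matrix.one_apply, Pi.single_apply]

theorem abv_mvu (i j : Fin g) : abv (mvu i j) = Pi.single (Sum.inr j) 1 - Pi.single (Sum.inr i) 1 := by
  simp only [mvu, abv_mul, abv_inv, abv_ga, abv_gb]
  abel

theorem rho_mvC (i j : Fin g) (hij : (j : ℕ) = i + 1) :
    rhoM ((mvC i j hij : Gam g) : MulAut (F g)) =
      LM (Matrix.single i j 1 + Matrix.single j i 1 - Matrix.single i i 1 - Matrix.single j j 1) := by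
  have hne : i ≠ j := by rintro rfl; omega
  have h1 : ∀ k, ((mvC i j hij : Gam g) : MulAut (F g)) (ga k) =
      if k = i then ga i * mvu i j else if k = j then (mvu i j)⁻¹ * ga j else ga k :=
    fun k => endo_ga _ _ k
  have h2 : ∀ k, ((mvC i j hij : Gam g) : MulAut (F g)) (gb k) =
      if k = i then (mvu i j)⁻¹ * gb i * mvu i j else gb k := fun k => endo_gb _ _ k
  ext p (q | q)
  · rw [rhoM_apply]
    show abv (((mvC i j hij : Gam g) : MulAut (F g)) (ga q)) p = _
    rw [h1]
    split_ifs with h3 h4
    · subst h3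
      rw [abv_mul, abv_ga, abv_mvu]
      rcases p with p | p <;> simp [LM, Matrix.one_apply, Pi.single_apply, Matrix.single_apply, eq_comm, hne, Ne.symm hne]
    · subst h4
      rw [abv_mul, abv_inv, abv_ga, abv_mvu]
      rcases p with p | p <;> simp [LM, Matrix.one_apply, Pi.single_apply, Matrix.single_apply, eq_comm, hne, Ne.symm hne]
    · rw [abv_ga]
      rcases p with p | p <;> simp [LM, Matrix.one_apply, Pi.single_apply, Matrix.single_apply, h3, h4, Ne.symm h3, Ne.symm h4]
  · rw [rhoM_apply]
    show abv (((mvC i j hij : Gam g) : MulAut (F g)) (gb q)) p = _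
    rw [h2]
    have h5 : abv (if q = i then (mvu i j)⁻¹ * gb i * mvu i j else gb q) = Pi.single (Sum.inr q) 1 := by
      split_ifs with h3
      · subst h3
        rw [abv_mul, abv_mul, abv_inv, abv_gb]
        abel
      · exact abv_gb q
    rw [h5]
    rcases p with p | p <;> simp [LM, Matrix.one_apply, Pi.single_apply]

/-- the matrix of a transposition -/
def swM (i j : Fin g) : Matrix (Fin g) (Fin g) ℤ := Matrix.of fun a b => if a = Equiv.swap i j b then 1 else 0

theorem rho_mvP (i j : Fin g) (hij : (j : ℕ) = i + 1) :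
    rhoM ((mvP i j hij : Gam g) : MulAut (F g)) = fromBlocks (swM i j) 0 0 (swM i j) := by
  have hne : i ≠ j := by rintro rfl; omega
  have h1 : ∀ k, ((mvP i j hij : Gam g) : MulAut (F g)) (ga k) =
      if k = i then ga j else if k = j then ⁅ga j, gb j⁆⁻¹ * ga i * ⁅ga j, gb j⁆ else ga k :=
    fun k => endo_ga _ _ k
  have h2 : ∀ k, ((mvP i j hij : Gam g) : MulAut (F g)) (gb k) =
      if k = i then gb j else if k = j then ⁅ga j, gb j⁆⁻¹ * gb i * ⁅ga j, gb j⁆ else gb k :=
    fun k => endo_gb _ _ k
  have h3 : ∀ k, abv (((mvP i j hij : Gam g) : MulAut (F g)) (ga k)) = Pi.single (Sum.inl (Equiv.swap i j k)) 1 := by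
    intro k
    rw [h1]
    split_ifs with h h'
    · subst h
      rw [Equiv.swap_apply_left, abv_ga]
    · subst h'
      rw [Equiv.swap_apply_right]
      simp [abv_ga]
    · rw [Equiv.swap_apply_of_ne_of_ne h h', abv_ga]
  have h4 : ∀ k, abv (((mvP i j hij : Gam g) : MulAut (F g)) (gb k)) = Pi.single (Sum.inr (Equiv.swap i j k)) 1 := by
    intro k
    rw [h2]
    split_ifs with h h'
    · subst h
      rw [Equiv.swap_apply_left, abv_gb]
    · subst h'
      rw [Equiv.swap_apply_right]
      simp [abv_gb]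
    · rw [Equiv.swap_apply_of_ne_of_ne h h', abv_gb]
  ext p (q | q)
  · rw [rhoM_apply]
    show abv (((mvP i j hij : Gam g) : MulAut (F g)) (ga q)) p = _
    rw [h3]
    rcases p with p | p <;> simp [swM, Pi.single_apply]
  · rw [rhoM_apply]
    show abv (((mvP i j hij : Gam g) : MulAut (F g)) (gb q)) p = _
    rw [h4]
    rcases p with p | p <;> simp [swM, Pi.single_apply]

theorem swM_mul_swM (i j : Fin g) : swM i j * swM i j = 1 := by
  ext a b
  simp [swM, Matrix.mul_apply, Matrix.one_apply]

theorem swM_conj (i j a b : Fin g) : swM i j * Matrix.single a b (1 : ℤ) * swM i j =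
    Matrix.single (Equiv.swap i j a) (Equiv.swap i j b) 1 := by
  ext x y
  rw [Matrix.mul_apply]
  simp only [Matrix.mul_apply, swM, Matrix.of_apply, Matrix.single_apply]
  rw [Finset.sum_eq_single b]
  · rw [Finset.sum_eq_single a]
    · by_cases h1 : x = Equiv.swap i j a
      · by_cases h2 : y = Equiv.swap i j b
        · subst h1 h2
          simp
        · have h3 : ¬ b = Equiv.swap i j y := by
            intro h
            apply h2
            rw [h, Equiv.swap_apply_self]
          simp [h1, h3, Ne.symm h2]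
      · simp [h1, Ne.symm h1]
    · intro c _ hc
      simp [Ne.symm hc]
    · simp
  · intro c _ hc
    simp [Ne.symm hc]
  · simp

/-- the symmetric matrices `S` with `LM S` in the image -/
def SL (g : ℕ) : AddSubgroup (Matrix (Fin g) (Fin g) ℤ) where
  carrier := {S | InI (LM S)}
  zero_mem' := by
    show InI (LM 0)
    rw [LM_zero]
    exact InI.one
  add_mem' {S T} hS hT := by
    show InI (LM (S + T))
    rw [← LM_mul_LM]
    exact InI.mul hS hT
  neg_mem' {S} hS := by
    show InI (LM (-S))
    refine InI.inv hS ?_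
    rw [LM_mul_LM, add_neg_cancel, LM_zero]

/-- the symmetric matrices `S` with `UM S` in the image -/
def SU (g : ℕ) : AddSubgroup (Matrix (Fin g) (Fin g) ℤ) where
  carrier := {S | InI (UM S)}
  zero_mem' := by
    show InI (UM 0)
    rw [UM_zero]
    exact InI.one
  add_mem' {S T} hS hT := by
    show InI (UM (S + T))
    rw [← UM_mul_UM]
    exact InI.mul hS hT
  neg_mem' {S} hS := by
    show InI (UM (-S))
    refine InI.inv hS ?_
    rw [UM_mul_UM, add_neg_cancel, UM_zero]

theorem SL_diag (i : Fin g) : Matrix.single i i (1 : ℤ) ∈ SL g := ⟨mvB i, rho_mvB i⟩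
theorem SU_diag (i : Fin g) : Matrix.single i i (1 : ℤ) ∈ SU g := ⟨mvA i, rho_mvA i⟩

theorem one_eq_sum : (1 : Matrix (Fin g) (Fin g) ℤ) = ∑ i : Fin g, Matrix.single i i 1 := by
  ext a b
  rw [Matrix.sum_apply]
  by_cases h : a = b
  · subst h
    simp [Matrix.single_apply]
  · rw [Matrix.one_apply_ne h]
    symm
    refine Finset.sum_eq_zero fun c _ => ?_
    rw [Matrix.single_apply, if_neg]
    rintro ⟨rfl, rfl⟩
    exact h rfl

theorem SL_one : (1 : Matrix (Fin g) (Fin g) ℤ) ∈ SL g := by
  rw [one_eq_sum]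
  exact sum_mem fun i _ => SL_diag i

theorem SU_one : (1 : Matrix (Fin g) (Fin g) ℤ) ∈ SU g := by
  rw [one_eq_sum]
  exact sum_mem fun i _ => SU_diag i

theorem SL_swap {i j : Fin g} (hij : (j : ℕ) = i + 1) {S : Matrix (Fin g) (Fin g) ℤ} (hS : S ∈ SL g) :
    swM i j * S * swM i j ∈ SL g := by
  show InI (LM (swM i j * S * swM i j))
  have hP : InI (fromBlocks (swM i j) 0 0 (swM i j)) := ⟨mvP i j hij, rho_mvP i j hij⟩
  have h := InI.mul (InI.mul hP hS) hP
  have e : fromBlocks (swM i j) 0 0 (swM i j) * LM S * fromBlocks (swM i j) 0 0 (swM i j) =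
      LM (swM i j * S * swM i j) := by
    unfold LM
    rw [fromBlocks_multiply, fromBlocks_multiply]
    simp [swM_mul_swM]
  rw [← e]
  exact h

theorem SL_off (i : Fin g) : ∀ (n : ℕ) (j : Fin g), (j : ℕ) = i + 1 + n →
    Matrix.single i j (1 : ℤ) + Matrix.single j i 1 ∈ SL g := by
  intro n
  induction n with
  | zero =>
    intro j hj
    have h1 : Matrix.single i j (1 : ℤ) + Matrix.single j i 1 - Matrix.single i i 1 -
        Matrix.single j j 1 ∈ SL g := ⟨mvC i j hj, rho_mvC i j hj⟩
    have h2 := (SL g).add_mem ((SL g).add_mem h1 (SL_diag j)) (SL_diag i)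
    have e : Matrix.single i j (1 : ℤ) + Matrix.single j i 1 - Matrix.single i i 1 -
        Matrix.single j j 1 + Matrix.single j j 1 + Matrix.single i i 1 =
        Matrix.single i j (1 : ℤ) + Matrix.single j i 1 := by abel
    rw [e] at h2
    exact h2
  | succ n ih =>
    intro j hj
    have hlt := j.isLt
    let k : Fin g := ⟨i + 1 + n, by omega⟩
    have hk : (k : ℕ) = i + 1 + n := rfl
    have h1 := ih k hk
    have hkj : (j : ℕ) = k + 1 := by omega
    have h2 := SL_swap hkj h1
    have h3 : swM k j * (Matrix.single i k (1 : ℤ) + Matrix.single k i 1) * swM k j =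
        Matrix.single i j 1 + Matrix.single j i 1 := by
      rw [Matrix.mul_add, Matrix.add_mul, swM_conj, swM_conj, Equiv.swap_apply_left,
        Equiv.swap_apply_of_ne_of_ne]
      · intro h
        rw [Fin.ext_iff] at h
        omega
      · intro h
        rw [Fin.ext_iff] at h
        omega
    rw [h3] at h2
    exact h2

theorem SL_off' {i j : Fin g} (h : i ≠ j) : Matrix.single i j (1 : ℤ) + Matrix.single j i 1 ∈ SL g := by
  rcases lt_or_gt_of_ne h with h | h
  · exact SL_off i (j - i - 1) j (by have : (i : ℕ) < j := h; omega)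
  · rw [add_comm]
    exact SL_off j (i - j - 1) i (by have : (j : ℕ) < i := h; omega)

theorem symm_mem (A : AddSubgroup (Matrix (Fin g) (Fin g) ℤ)) (h1 : ∀ i, Matrix.single i i (1 : ℤ) ∈ A)
    (h2 : ∀ i j, i ≠ j → Matrix.single i j (1 : ℤ) + Matrix.single j i 1 ∈ A)
    {S : Matrix (Fin g) (Fin g) ℤ} (hS : S.IsSymm) : S ∈ A := by
  have e : S = ∑ i : Fin g, ∑ j : Fin g, (if i = j then S i i • Matrix.single i i (1 : ℤ) else
      if i < j then S i j • (Matrix.single i j (1 : ℤ) + Matrix.single j i 1) else 0) := by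
    ext a b
    rw [Matrix.sum_apply]
    simp only [Matrix.sum_apply]
    rcases lt_trichotomy a b with h | h | h
    · rw [Finset.sum_eq_single a]
      · rw [Finset.sum_eq_single b]
        · rw [if_neg h.ne, if_pos h]
          simp [Matrix.single_apply, h.ne, h.ne']
        · intro j _ hj
          split_ifs with h3 h4
          · subst h3
            simp [Matrix.single_apply, h.ne]
          · have h5 : ¬ (j = a ∧ a = b) := fun h6 => h.ne h6.2
            simp [Matrix.single_apply, hj, h5]
          · rfl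
        · simp
      · intro i _ hi
        refine Finset.sum_eq_zero fun j _ => ?_
        split_ifs with h3 h4
        · subst h3
          simp [Matrix.single_apply, hi]
        · have h5 : ¬ (j = a ∧ i = b) := by
            rintro ⟨rfl, rfl⟩
            exact absurd h4 (not_lt.2 h.le)
          simp [Matrix.single_apply, hi, h5]
        · rfl
      · simp
    · subst h
      rw [Finset.sum_eq_single a]
      · rw [Finset.sum_eq_single a]
        · simp [Matrix.single_apply]
        · intro j _ hj
          rw [if_neg (Ne.symm hj)]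
          split_ifs with h4
          · simp [Matrix.single_apply, hj]
          · rfl
        · simp
      · intro i _ hi
        refine Finset.sum_eq_zero fun j _ => ?_
        split_ifs with h3 h4
        · subst h3
          simp [Matrix.single_apply, hi]
        · simp [Matrix.single_apply, hi]
        · rfl
      · simp
    · have hsym : S a b = S b a := by
        have := congrFun (congrFun hS b) a
        simpa [Matrix.transpose_apply] using this
      rw [Finset.sum_eq_single b]
      · rw [Finset.sum_eq_single a]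
        · rw [if_neg h.ne, if_pos h, hsym]
          simp [Matrix.single_apply, h.ne, h.ne']
        · intro j _ hj
          split_ifs with h3 h4
          · subst h3
            simp [Matrix.single_apply, h.ne]
          · have h5 : ¬ (b = a ∧ j = b) := fun h6 => h.ne h6.1
            simp [Matrix.single_apply, hj, h5]
          · rfl
        · simp
      · intro i _ hi
        refine Finset.sum_eq_zero fun j _ => ?_
        split_ifs with h3 h4
        · subst h3
          have : ¬ (i = a ∧ i = b) := fun h6 => hi h6.2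
          simp [Matrix.single_apply, this]
        · have h5 : ¬ (i = a ∧ j = b) := by
            rintro ⟨rfl, rfl⟩
            exact absurd h4 (not_lt.2 h.le)
          simp [Matrix.single_apply, hi, h5]
        · rfl
      · simp
  rw [e]
  refine sum_mem fun i _ => sum_mem fun j _ => ?_
  split_ifs with h3 h4
  · exact A.zsmul_mem (h1 i) _
  · exact A.zsmul_mem (h2 i j h3) _
  · exact A.zero_mem

theorem SL_symm {S : Matrix (Fin g) (Fin g) ℤ} (hS : S.IsSymm) : S ∈ SL g :=
  symm_mem (SL g) SL_diag (fun _ _ h => SL_off' h) hS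

/-- `W` -/
theorem InI_W : InI (fromBlocks 0 1 (-1) 0 : Matrix (Gen g) (Gen g) ℤ) := by
  have h := InI.mul (InI.mul (SU_one (g := g)) ((SL g).neg_mem SL_one)) (SU_one (g := g))
  have e : UM (1 : Matrix (Fin g) (Fin g) ℤ) * LM (-1) * UM 1 = fromBlocks 0 1 (-1) 0 := by
    unfold UM LM
    rw [fromBlocks_multiply, fromBlocks_multiply]
    simp
  rw [← e]
  exact h

theorem SU_symm {S : Matrix (Fin g) (Fin g) ℤ} (hS : S.IsSymm) : S ∈ SU g := by
  show InI (UM S)
  have h1 : InI (LM (-S)) := SL_symm hS.neg
  have hW : InI (fromBlocks 0 (-1) 1 0 : Matrix (Gen g) (Gen g) ℤ) := by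
    refine InI.inv InI_W ?_
    rw [fromBlocks_multiply]
    simp
  have h := InI.mul (InI.mul (InI_W (g := g)) h1) hW
  have e : fromBlocks 0 1 (-1) 0 * LM (-S) * fromBlocks 0 (-1) 1 0 = UM S := by
    unfold UM LM
    rw [fromBlocks_multiply, fromBlocks_multiply]
    simp
  rw [← e]
  exact h

theorem rho_all (hg : 3 ≤ g) (M : Matrix (Gen g) (Gen g) ℤ) (hM : M ∈ symplecticGroup (Fin g) ℤ) :
    InI M := by
  obtain ⟨K, hK⟩ := ul_all (Fin g) (by simpa using hg)
  refine BP.ind (P := fun _ M => InI M) InI.one (fun _ _ _ _ h => h) ?_ (hK M hM)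
  rintro k y x ⟨S, hS, rfl | rfl⟩ _ hx
  · exact InI.mul (SU_symm hS) hx
  · exact InI.mul (SL_symm hS) hx

theorem rho_surjective (hg : 3 ≤ g) : Function.Surjective (rho g) := by
  intro M
  obtain ⟨φ, hφ⟩ := rho_all hg M.1 M.2
  exact ⟨φ, Subtype.ext hφ⟩

end TorG
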