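import Mathlib
import Pool.Agent.Lib.MP_05cdf2_gt.G.Surj
import Pool.Agent.Lib.MP_05cdf2_gt.C.Final
import Pool.Agent.Lib.MP_05cdf2_gt.B.MPrim
import Pool.Agent.Lib.MP_05cdf2_gt.B.SpFin
import Pool.Agent.Lib.MP_05cdf2_gt.K.Gfp
import Pool.Agent.Lib.MP_05cdf2_gt.D.DMain

/-! MP_05cdf2_gt, stream G (helper49): reduction of `D_main` to one transvection.

`v0` = class of `a_0`. Every vector in the list of the bounded generation theorem is `rhoM φ *ᵥ v0` for some
`φ ∈ Gam g`. `main_of_UData`: if `UData` holds for one element `τ` with `rhoM τ = tv v0 1`, then the homology of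
`Tor1 g` is finitely generated in degrees `≤ k`. -/

set_option autoImplicit false

namespace TorG
open TorM Matrix Tor
open Pool.Agent.Lib.MP_05cdf2_gt.C

variable {g : ℕ}

/-- the class of `a_0` -/
def v0 (g : ℕ) [NeZero g] : Gen g → ℤ := Pi.single (Sum.inl 0) 1

/-- vectors in the orbit of `v0` -/
def Orb (g : ℕ) [NeZero g] (v : Gen g → ℤ) : Prop := ∃ φ : Gam g, rhoM (φ : MulAut (F g)) *ᵥ v0 g = v

theorem blk_mem (B : Matrix (Fin g) (Fin g) ℤ) (hB : IsUnit B.det) :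
    fromBlocks B 0 0 (B⁻¹)ᵀ ∈ symplecticGroup (Fin g) ℤ := by
  rw [SymplecticGroup.mem_iff]
  unfold J
  rw [fromBlocks_transpose, fromBlocks_multiply, fromBlocks_multiply]
  simp only [mul_zero, add_zero, zero_add, zero_mul, mul_neg, mul_one, transpose_zero, neg_zero,
    transpose_transpose, neg_mul]
  have h1 : B * B⁻¹ = 1 := mul_nonsing_inv B hB
  have h2 : (B⁻¹)ᵀ * Bᵀ = 1 := by rw [← transpose_mul, h1, transpose_one]
  rw [h1, h2]

theorem orb_inl [NeZero g] (hg : 3 ≤ g) (w : Fin g → ℤ) (hw : Prim w) : Orb g (Sum.elim w 0) := by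
  obtain ⟨n, rfl⟩ : ∃ n, g = n + 1 := ⟨g - 1, by omega⟩
  obtain ⟨u, hu⟩ := hw
  obtain ⟨B, hB, hB2⟩ := prim_ext w (fun d hd => by
    refine isUnit_of_dvd_one ?_
    rw [← hu]
    exact Finset.dvd_sum fun i _ => (hd i).mul_right _)
  obtain ⟨φ, hφ⟩ := rho_all hg _ (blk_mem B hB)
  refine ⟨φ, ?_⟩
  rw [hφ]
  ext i
  unfold v0
  rcases i with i | i
  · simp [hB2]
  · simp

theorem orb_inr [NeZero g] (hg : 3 ≤ g) (w : Fin g → ℤ) (hw : Prim w) : Orb g (Sum.elim 0 w) := by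
  obtain ⟨φ, hφ⟩ := orb_inl hg w hw
  have hW : InI (fromBlocks 0 (-1) 1 0 : Matrix (Gen g) (Gen g) ℤ) := by
    refine InI.inv InI_W ?_
    rw [fromBlocks_multiply]
    simp
  obtain ⟨ψ, hψ⟩ := hW
  refine ⟨ψ * φ, ?_⟩
  show rhoM ((ψ : MulAut (F g)) * (φ : MulAut (F g))) *ᵥ v0 g = _
  rw [rhoM_mul, ← Matrix.mulVec_mulVec, hφ, hψ, fromBlocks_mulVec]
  ext i
  rcases i with i | i <;> simp

theorem bounded_generation_orb (g : ℕ) [NeZero g] (hg : 3 ≤ g) :
    ∃ l : List (Gen g → ℤ), (∀ v ∈ l, Orb g v) ∧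
      ∀ M ∈ symplecticGroup (Fin g) ℤ, M ∈ PT l := by
  obtain ⟨K, hK⟩ := ul_all (Fin g) (by simpa using hg)
  obtain ⟨l, hl, hS⟩ := symm_decomp g
  let lU : List (Gen g → ℤ) := l.map fun w => Sum.elim w 0
  let lL : List (Gen g → ℤ) := l.map fun w => Sum.elim 0 w
  have hU2 : ∀ S : Matrix (Fin g) (Fin g) ℤ, S.IsSymm → UM S ∈ PT lU := by
    intro S hSs
    obtain ⟨c, -, h⟩ := hS S hSs
    rw [h]
    exact ToT_U l c
  have hL2 : ∀ S : Matrix (Fin g) (Fin g) ℤ, S.IsSymm → LM S ∈ PT lL := by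
    intro S hSs
    obtain ⟨c, -, h⟩ := hS S hSs
    rw [h]
    exact ToT_L l c
  refine ⟨(List.replicate K (lU ++ lL)).flatten, ?_, ?_⟩
  · intro v hv
    obtain ⟨l', hl', hvl⟩ := List.mem_flatten.1 hv
    rw [(List.mem_replicate.1 hl').2] at hvl
    rcases List.mem_append.1 hvl with h | h
    · obtain ⟨w, hw, rfl⟩ := List.mem_map.1 h
      exact orb_inl hg w (hl w hw)
    · obtain ⟨w, hw, rfl⟩ := List.mem_map.1 h
      exact orb_inr hg w (hl w hw)
  · intro M hM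
    refine Final_UL_PT (fun S hSs => ?_) (fun S hSs => ?_) (hK M hM)
    · have h1 := PT_append (hU2 S hSs) (PT_one lL)
      rwa [mul_one] at h1
    · have h1 := PT_append (PT_one lU) (hL2 S hSs)
      rwa [one_mul] at h1

/-- a symplectic matrix maps transvections to transvections -/
theorem tv_conj {A : Matrix (Gen g) (Gen g) ℤ} (hA : A ∈ symplecticGroup (Fin g) ℤ) (v : Gen g → ℤ)
    (k : ℤ) : A * tv v k = tv (A *ᵥ v) k * A := by
  have h1 : Aᵀ * J (Fin g) ℤ * A = J (Fin g) ℤ := (SymplecticGroup.mem_iff').1 hA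
  unfold tv
  rw [Matrix.mul_add, Matrix.add_mul, mul_one, one_mul]
  congr 1
  rw [Matrix.mul_smul, Matrix.smul_mul, Matrix.mul_vecMulVec, Matrix.vecMulVec_mul]
  congr 2
  rw [← Matrix.mulVec_transpose, Matrix.mulVec_mulVec, Matrix.mulVec_mulVec, h1]

theorem tv_add (v : Gen g → ℤ) (k m : ℤ) : tv v k * tv v m = tv v (k + m) := by
  have h : (J (Fin g) ℤ *ᵥ v) ⬝ᵥ v = 0 := by
    rw [dotProduct, Fintype.sum_sum_type]
    simp only [J, fromBlocks_mulVec, Matrix.neg_mulVec, one_mulVec, zero_mulVec, zero_add, add_zero,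
      Sum.elim_inl, Sum.elim_inr, Pi.neg_apply, Function.comp_apply]
    rw [← Finset.sum_add_distrib]
    exact Finset.sum_eq_zero fun i _ => by ring
  have h2 : vecMulVec v (J (Fin g) ℤ *ᵥ v) * vecMulVec v (J (Fin g) ℤ *ᵥ v) = 0 := by
    rw [Matrix.vecMulVec_mul_vecMulVec, h]
    simp
  unfold tv
  rw [Matrix.mul_add, mul_one, Matrix.add_mul, one_mul, Matrix.smul_mul, Matrix.mul_smul, h2]
  rw [smul_zero, smul_zero, add_zero, add_smul]
  abel

theorem UData.conj {G : Type} [Group G] (N : Subgroup G) [N.Normal] (k : ℕ) (φ : G) {H : Subgroup G}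
    (hN : N ≤ H) {β : Type} [MulAction H β] {S : Set (List β)} {τ : H} {θ : List β → H}
    (hU : UData (N.subgroupOf H) β S k τ θ) :
    ∃ (H' : Subgroup G) (_ : N ≤ H') (β' : Type) (_ : MulAction H' β')
      (S' : Set (List β')) (τ' : H') (θ' : List β' → H'),
      UData (N.subgroupOf H') β' S' k τ' θ' ∧ (τ' : G) = φ * τ * φ⁻¹ := by
  let H' : Subgroup G := H.map (MulAut.conj φ).toMonoidHom
  let e : H ≃* H' := H.equivMapOfInjective (MulAut.conj φ).toMonoidHom (MulAut.conj φ).injective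
  have he : ∀ h : H, ((e h : H') : G) = φ * h * φ⁻¹ := fun h => rfl
  have he2 : ∀ h : H', ((e.symm h : H) : G) = φ⁻¹ * h * φ := by
    intro h
    have h1 := he (e.symm h)
    rw [MulEquiv.apply_symm_apply] at h1
    rw [h1]
    group
  have hNH' : N ≤ H' := by
    intro n hn
    refine ⟨φ⁻¹ * n * φ, hN ?_, ?_⟩
    · simpa using (inferInstance : N.Normal).conj_mem n hn φ⁻¹
    · show φ * (φ⁻¹ * n * φ) * φ⁻¹ = n
      group
  have hmem : ∀ n : H', n ∈ N.subgroupOf H' ↔ e.symm n ∈ N.subgroupOf H := by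
    intro n
    rw [Subgroup.mem_subgroupOf, Subgroup.mem_subgroupOf, he2]
    constructor
    · intro h
      simpa using (inferInstance : N.Normal).conj_mem _ h φ⁻¹
    · intro h
      have := (inferInstance : N.Normal).conj_mem _ h φ
      have e1 : φ * (φ⁻¹ * (n : G) * φ) * φ⁻¹ = n := by group
      rwa [e1] at this
  let iβ : MulAction H' β := MulAction.compHom β e.symm.toMonoidHom
  have hsm : ∀ (h : H') (b : β), h • b = e.symm h • b := fun h b => rfl
  refine ⟨H', hNH', β, iβ, S, e τ, fun s => e (θ s), ?_, he τ⟩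
  refine ⟨hU.nil, hU.closed, ?_, hU.exact, ?_, ?_, ?_⟩
  · intro h l hl
    exact hU.inv (e.symm h) l hl
  · intro s hs hne n hn
    have h1 := hU.equi s hs hne (e.symm n) ((hmem n).1 hn)
    show e (θ (s.map fun b => e.symm n • b)) = n * e (θ s) * n⁻¹
    rw [h1]
    simp
  · intro s hs hne
    have h1 := hU.fix s hs hne
    show s.map (fun b => e.symm (e (θ s)) • b) = s
    rw [MulEquiv.symm_apply_apply]
    exact h1
  · intro s hs hne
    have h1 := hU.coset s hs hne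
    rw [hmem]
    rw [map_mul, map_inv, MulEquiv.symm_apply_apply, MulEquiv.symm_apply_apply]
    exact h1

/-- the data needed for one transvection -/
def HasUData (g : ℕ) [NeZero g] (k : ℕ) : Prop :=
  ∃ (H : Subgroup (Gam g)) (_ : Tor1 g ≤ H) (β : Type) (_ : MulAction H β)
    (S : Set (List β)) (τ : H) (θ : List β → H),
    UData ((Tor1 g).subgroupOf H) β S k τ θ ∧ rhoM ((τ : Gam g) : MulAut (F g)) = tv (v0 g) 1

theorem gfp_quot (g : ℕ) (hg : 3 ≤ g) : GFP (Gam g ⧸ Tor1 g) :=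
  GFP.iso (QuotientGroup.quotientKerEquivOfSurjective (rho g) (rho_surjective hg)).symm (GFP_Sp g)

theorem tv_zpow [NeZero g] {τ : Gam g} {v : Gen g → ℤ} (h : rhoM (τ : MulAut (F g)) = tv v 1) (k : ℤ) :
    rhoM (((τ ^ k : Gam g)) : MulAut (F g)) = tv v k := by
  have hn : ∀ n : ℕ, rhoM (((τ ^ n : Gam g)) : MulAut (F g)) = tv v n := by
    intro n
    induction n with
    | zero =>
      rw [pow_zero]
      show rhoM (1 : MulAut (F g)) = _
      rw [rhoM_one, Nat.cast_zero, ToT_tv_zero]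
    | succ n ih =>
      rw [pow_succ]
      show rhoM (((τ ^ n : Gam g) : MulAut (F g)) * (τ : MulAut (F g))) = _
      rw [rhoM_mul, ih, h, tv_add]
      push_cast
      rfl
  rcases Int.eq_nat_or_neg k with ⟨n, rfl | rfl⟩
  · rw [zpow_natCast]
    exact hn n
  · rw [_root_.zpow_neg, zpow_natCast]
    have h1 : rhoM (((τ ^ n)⁻¹ : Gam g) : MulAut (F g)) * rhoM (((τ ^ n : Gam g)) : MulAut (F g)) = 1 := by
      rw [← rhoM_mul, ← rhoM_one]
      congr 1
      exact inv_mul_cancel ((τ ^ n : Gam g) : MulAut (F g))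
    rw [hn] at h1
    calc rhoM (((τ ^ n)⁻¹ : Gam g) : MulAut (F g))
        = rhoM (((τ ^ n)⁻¹ : Gam g) : MulAut (F g)) * (tv v n * tv v (-n)) := by
          rw [tv_add, add_neg_cancel, ToT_tv_zero, mul_one]
      _ = tv v (-n) := by rw [← mul_assoc, h1, one_mul]

theorem main_of_UData (g : ℕ) [NeZero g] (hg : 3 ≤ g) (k : ℕ) (h : HasUData g k) :
    (∀ j ≤ k, HIF (Tor1 g) j) ∧
      ∀ j ≤ k, Module.Finite ℤ (groupHomology (Rep.trivial ℤ (Tor1 g) ℤ) j) := by
  obtain ⟨H, hN, β, iβ, S, τ, θ, hU, hτ⟩ := h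
  obtain ⟨l, hl, hl2⟩ := bounded_generation_orb g hg
  choose! φ hφ using hl
  have hcl : ∀ v ∈ l, rhoM ((φ v * (τ : Gam g) * (φ v)⁻¹ : Gam g) : MulAut (F g)) = tv v 1 := by
    intro v hv
    have e1 : rhoM ((φ v * (τ : Gam g) * (φ v)⁻¹ : Gam g) : MulAut (F g)) * rhoM ((φ v : Gam g) : MulAut (F g)) =
        tv v 1 * rhoM ((φ v : Gam g) : MulAut (F g)) := by
      rw [← rhoM_mul]
      have e2 : ((φ v * (τ : Gam g) * (φ v)⁻¹ : Gam g) : MulAut (F g)) * ((φ v : Gam g) : MulAut (F g)) =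
          ((φ v : Gam g) : MulAut (F g)) * ((τ : Gam g) : MulAut (F g)) := by
        have : (φ v * (τ : Gam g) * (φ v)⁻¹ : Gam g) * φ v = φ v * τ := by group
        exact congrArg (fun x : Gam g => (x : MulAut (F g))) this
      rw [e2, rhoM_mul, hτ, tv_conj (rhoM_symp (φ v).2), hφ v hv]
    have e3 : rhoM ((φ v : Gam g) : MulAut (F g)) * rhoM (((φ v)⁻¹ : Gam g) : MulAut (F g)) = 1 := by
      rw [← rhoM_mul, ← rhoM_one]
      congr 1
      exact mul_inv_cancel ((φ v : Gam g) : MulAut (F g))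
    have e4 := congrArg (· * rhoM (((φ v)⁻¹ : Gam g) : MulAut (F g))) e1
    simp only [mul_assoc, e3, mul_one] at e4
    exact e4
  refine D_main (Tor1 g) k (gfp_gam g) (gfp_quot g hg)
    (l.map fun v => ((φ v * (τ : Gam g) * (φ v)⁻¹ : Gam g) : Gam g ⧸ Tor1 g)) ?_ ?_
  · intro q
    obtain ⟨ψ, rfl⟩ := QuotientGroup.mk_surjective q
    have h1 := hl2 _ (rhoM_symp ψ.2)
    have key : ∀ l' : List (Gen g → ℤ), (∀ v ∈ l', v ∈ l) → ∀ ψ : Gam g, rhoM (ψ : MulAut (F g)) ∈ PT l' →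
        ∃ e : List ℤ, e.length = (l'.map fun v => ((φ v * (τ : Gam g) * (φ v)⁻¹ : Gam g) : Gam g ⧸ Tor1 g)).length ∧
        (ψ : Gam g ⧸ Tor1 g) = (List.zipWith (fun t (n : ℤ) => t ^ n)
          (l'.map fun v => ((φ v * (τ : Gam g) * (φ v)⁻¹ : Gam g) : Gam g ⧸ Tor1 g)) e).prod := by
      intro l'
      induction l' with
      | nil =>
        intro _ ψ hψ
        refine ⟨[], rfl, ?_⟩
        have h2 : rhoM (ψ : MulAut (F g)) = 1 := hψ
        simp only [List.map_nil, List.zipWith_nil_left, List.prod_nil]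
        rw [QuotientGroup.eq_one_iff, mem_Tor1]
        exact (rhoM_eq_one_iff _).1 h2
      | cons v l' ih =>
        intro hsub ψ hψ
        obtain ⟨m, M', hM', hψ2⟩ := hψ
        have hv := hsub v List.mem_cons_self
        let σ : Gam g := φ v * (τ : Gam g) * (φ v)⁻¹
        have hσ : rhoM ((σ : Gam g) : MulAut (F g)) = tv v 1 := hcl v hv
        have h3 : rhoM (((σ ^ (-m) * ψ : Gam g)) : MulAut (F g)) = M' := by
          show rhoM (((σ ^ (-m) : Gam g) : MulAut (F g)) * (ψ : MulAut (F g))) = M'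
          rw [rhoM_mul, tv_zpow hσ, hψ2, ← mul_assoc, tv_add, neg_add_cancel, ToT_tv_zero, one_mul]
        obtain ⟨e, he, he2⟩ := ih (fun w hw => hsub w (List.mem_cons_of_mem _ hw)) (σ ^ (-m) * ψ) (h3 ▸ hM')
        refine ⟨m :: e, by simpa using he, ?_⟩
        simp only [List.map_cons, List.zipWith_cons_cons, List.prod_cons]
        rw [← he2]
        have h4 : (ψ : Gam g) = σ ^ m * (σ ^ (-m) * ψ) := by
          rw [← mul_assoc, ← _root_.zpow_add, add_neg_cancel, zpow_zero, one_mul]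
        calc ((ψ : Gam g) : Gam g ⧸ Tor1 g) = ((σ ^ m * (σ ^ (-m) * ψ) : Gam g) : Gam g ⧸ Tor1 g) := by rw [← h4]
          _ = _ := rfl
    exact key l (fun v hv => hv) ψ h1
  · intro t ht
    obtain ⟨v, hv, rfl⟩ := List.mem_map.1 ht
    obtain ⟨H', hN', β', iβ', S', τ', θ', hU', hτ'⟩ := UData.conj (Tor1 g) k (φ v) hN hU
    exact ⟨H', hN', β', iβ', S', τ', θ', hU', by rw [hτ']⟩

end TorG
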