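import Mathlib
import Pool.Agent.Lib.MP_05cdf2_gt.G.Chain

/-! MP_05cdf2_gt, stream G (helper49): Dehn twists.

`OC D`: the translates of `D` and their complements. `Wt D c`: an equivariant choice of elements `c A` of the
stabilisers, `A ∈ OC D`, with `c Aᶜ = (c A)⁻¹`. `Sp D x y`: the members of `OC D` which contain `y` but not `x`, a
finite chain. `del D c x y`: the product of the `c A`, `A ∈ Sp D x y`, in decreasing order; it is a cocycle.
`tw D c x = del D c 1 x * x` is an automorphism with inverse `tw D c⁻¹`, and fixes `ζ`. -/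

set_option autoImplicit false

namespace TorG
open TorM

variable {g : ℕ} {D : Set (F g)}

/-- translates of `D` and their complements -/
def OC (D : Set (F g)) : Set (Set (F g)) := {A | (∃ h, A = tr h D) ∨ ∃ h, A = (tr h D)ᶜ}

theorem oc_self (D : Set (F g)) : D ∈ OC D := Or.inl ⟨1, (tr_one D).symm⟩

theorem oc_tr {A : Set (F g)} (hA : A ∈ OC D) (k : F g) : tr k A ∈ OC D := by
  rcases hA with ⟨h, rfl⟩ | ⟨h, rfl⟩
  · exact Or.inl ⟨k * h, tr_tr _ _ _⟩
  · refine Or.inr ⟨k * h, ?_⟩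
    rw [tr_compl, tr_tr]

theorem oc_compl {A : Set (F g)} (hA : A ∈ OC D) : Aᶜ ∈ OC D := by
  rcases hA with ⟨h, rfl⟩ | ⟨h, rfl⟩
  · exact Or.inr ⟨h, rfl⟩
  · refine Or.inl ⟨h, ?_⟩
    rw [compl_compl]

theorem oc_cut (hD : CCut D) {A : Set (F g)} (hA : A ∈ OC D) : CCut A := by
  rcases hA with ⟨h, rfl⟩ | ⟨h, rfl⟩
  · exact hD.translate h
  · exact (hD.translate h).compl

theorem nest_translates (hD : CCut D) (h k : F g) : Nest (tr h D) (tr k D) := by
  have h1 := hD.nest (k⁻¹ * h)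
  rw [← nest_tr (h := k), tr_tr, mul_inv_cancel_left] at h1
  exact h1

theorem oc_nest (hD : CCut D) {A B : Set (F g)} (hA : A ∈ OC D) (hB : B ∈ OC D) : Nest A B := by
  rcases hA with ⟨h, rfl⟩ | ⟨h, rfl⟩ <;> rcases hB with ⟨k, rfl⟩ | ⟨k, rfl⟩
  · exact nest_translates hD h k
  · exact (nest_translates hD h k).compl_right
  · exact (nest_translates hD h k).compl_left
  · exact (nest_translates hD h k).compl_left.compl_right

/-- oriented cuts which contain `y` but not `x` -/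
def Sp (D : Set (F g)) (x y : F g) : Set (Set (F g)) := {A | A ∈ OC D ∧ x ∉ A ∧ y ∈ A}

theorem sp_fin (hD : CCut D) (x y : F g) : (Sp D x y).Finite := by
  refine ((hD.fin x y).union ((hD.fin x y).image fun A : Set (F g) => Aᶜ)).subset ?_
  rintro A ⟨⟨h, rfl⟩ | ⟨h, rfl⟩, h1, h2⟩
  · exact Or.inl ⟨⟨h, rfl⟩, fun h3 => h1 (h3.2 h2)⟩
  · refine Or.inr ⟨tr h D, ⟨⟨h, rfl⟩, fun h3 => ?_⟩, rfl⟩
    exact h2 (h3.1 (by simpa using h1))

theorem chain_of (hD : CCut D) {A B : Set (F g)} (hA : A ∈ OC D) (hB : B ∈ OC D) {x y : F g}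
    (hxA : x ∉ A) (hxB : x ∉ B) (hyA : y ∈ A) (hyB : y ∈ B) : A ⊆ B ∨ B ⊆ A := by
  rcases oc_nest hD hA hB with h | h | h | h
  · exact Or.inl h
  · exact Or.inr h
  · exact absurd ⟨hyA, hyB⟩ (h y)
  · exact absurd (h x) (by simp [hxA, hxB])

theorem sp_list (hD : CCut D) (x y : F g) {S : Set (Set (F g))} (hS : S ⊆ Sp D x y) : ∃ L, IsL L S :=
  exists_isL _ S ((sp_fin hD x y).subset hS) (fun _ hA _ hB =>
    chain_of hD (hS hA).1 (hS hB).1 (hS hA).2.1 (hS hB).2.1 (hS hA).2.2 (hS hB).2.2) rfl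

/-- equivariant weights -/
structure Wt (D : Set (F g)) (c : Set (F g) → F g) : Prop where
  mem : ∀ A ∈ OC D, c A ∈ stD A
  tr : ∀ A ∈ OC D, ∀ h, c (tr h A) = h * c A * h⁻¹
  compl : ∀ A ∈ OC D, c Aᶜ = (c A)⁻¹

theorem Wt.inv {c : Set (F g) → F g} (hc : Wt D c) : Wt D fun A => (c A)⁻¹ where
  mem A hA := (stD A).inv_mem (hc.mem A hA)
  tr A hA h := by
    rw [hc.tr A hA h]
    group
  compl A hA := by rw [hc.compl A hA]

/-- the displacement -/
noncomputable def del (D : Set (F g)) (c : Set (F g) → F g) (x y : F g) : F g := Pc c (Sp D x y)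

theorem Pc_union {c : Set (F g) → F g} {S S' : Set (Set (F g))} (h : ∃ L, IsL L S) (h' : ∃ L, IsL L S')
    (hlt : ∀ A ∈ S, ∀ B ∈ S', B ⊂ A) : Pc c (S ∪ S') = Pc c S * Pc c S' := by
  obtain ⟨L, hL⟩ := h
  obtain ⟨L', hL'⟩ := h'
  rw [Pc_eq (hL.append hL' hlt), Pc_eq hL, Pc_eq hL', List.map_append, List.prod_append]

theorem Pc_compl {c : Set (F g) → F g} {S : Set (Set (F g))} (h : ∃ L, IsL L S)
    (hc : ∀ A ∈ S, c Aᶜ = (c A)⁻¹) : Pc c {A | Aᶜ ∈ S} = (Pc c S)⁻¹ := by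
  obtain ⟨L, hL⟩ := h
  rw [Pc_eq hL.reverse_compl, Pc_eq hL, List.map_map, ← reverse_inv_prod]
  refine map_prod_congr fun A hA => ?_
  rw [List.mem_reverse, hL.2] at hA
  exact hc A hA

theorem Pc_tr {c : Set (F g) → F g} {S : Set (Set (F g))} (h : ∃ L, IsL L S) (k : F g)
    (hc : ∀ A ∈ S, c (tr k A) = k * c A * k⁻¹) : Pc c {A | tr k⁻¹ A ∈ S} = k * Pc c S * k⁻¹ := by
  obtain ⟨L, hL⟩ := h
  rw [Pc_eq (hL.tr k), Pc_eq hL, List.map_map, ← conj_prod]
  refine map_prod_congr fun A hA => ?_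
  exact hc A ((hL.2 A).1 hA)

theorem del_self (x : F g) (c : Set (F g) → F g) : del D c x x = 1 := by
  have : Sp D x x = ∅ := by
    ext A
    constructor
    · rintro ⟨-, h1, h2⟩
      exact absurd h2 h1
    · intro h
      exact absurd h (Set.notMem_empty _)
  unfold del
  rw [this, Pc_empty]

theorem del_trans (hD : CCut D) {c : Set (F g) → F g} (hc : Wt D c) (x y z : F g) :
    del D c x y * del D c y z = del D c x z := by
  let I : Set (Set (F g)) := {A | A ∈ Sp D x y ∧ z ∈ A}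
  let J : Set (Set (F g)) := {A | A ∈ Sp D x y ∧ z ∉ A}
  let Jc : Set (Set (F g)) := {A | Aᶜ ∈ J}
  let K : Set (Set (F g)) := {A | A ∈ OC D ∧ x ∉ A ∧ y ∉ A ∧ z ∈ A}
  have e1 : Sp D x y = I ∪ J := by
    ext A
    constructor
    · intro h
      by_cases hz : z ∈ A
      · exact Or.inl ⟨h, hz⟩
      · exact Or.inr ⟨h, hz⟩
    · rintro (h | h)
      · exact h.1
      · exact h.1
  have e2 : Sp D y z = Jc ∪ K := by
    ext A
    constructor
    · rintro ⟨h1, h2, h3⟩
      by_cases hx : x ∈ A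
      · exact Or.inl ⟨⟨oc_compl h1, fun h => h hx, h2⟩, fun h => h h3⟩
      · exact Or.inr ⟨h1, hx, h2, h3⟩
    · rintro (⟨⟨h1, h2, h3⟩, h4⟩ | ⟨h1, h2, h3, h4⟩)
      · refine ⟨?_, h3, ?_⟩
        · have := oc_compl h1
          rwa [compl_compl] at this
        · by_contra h5
          exact h4 h5
      · exact ⟨h1, h3, h4⟩
  have e3 : Sp D x z = I ∪ K := by
    ext A
    constructor
    · rintro ⟨h1, h2, h3⟩
      by_cases hy : y ∈ A
      · exact Or.inl ⟨⟨h1, h2, hy⟩, h3⟩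
      · exact Or.inr ⟨h1, h2, hy, h3⟩
    · rintro (⟨⟨h1, h2, h3⟩, h4⟩ | ⟨h1, h2, h3, h4⟩)
      · exact ⟨h1, h2, h4⟩
      · exact ⟨h1, h2, h4⟩
  have lI : ∃ L, IsL L I := sp_list hD x y (fun A hA => hA.1)
  have lJ : ∃ L, IsL L J := sp_list hD x y (fun A hA => hA.1)
  have lJc : ∃ L, IsL L Jc := sp_list hD y z (by rw [e2]; exact Set.subset_union_left)
  have lK : ∃ L, IsL L K := sp_list hD y z (by rw [e2]; exact Set.subset_union_right)
  have o1 : ∀ A ∈ I, ∀ B ∈ J, B ⊂ A := by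
    rintro A ⟨⟨a1, a2, a3⟩, a4⟩ B ⟨⟨b1, b2, b3⟩, b4⟩
    rcases chain_of hD a1 b1 a2 b2 a3 b3 with h | h
    · exact absurd (h a4) b4
    · exact ⟨h, fun h' => b4 (h' a4)⟩
  have o2 : ∀ A ∈ Jc, ∀ B ∈ K, B ⊂ A := by
    intro A hA B hB
    have hA' : A ∈ Sp D y z := by rw [e2]; exact Or.inl hA
    have hB' : B ∈ Sp D y z := by rw [e2]; exact Or.inr hB
    have hxA : x ∈ A := by
      by_contra h5
      exact hA.1.2.1 h5
    rcases chain_of hD hA'.1 hB'.1 hA'.2.1 hB'.2.1 hA'.2.2 hB'.2.2 with h | h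
    · exact absurd (h hxA) hB.2.1
    · exact ⟨h, fun h' => hB.2.1 (h' hxA)⟩
  have o3 : ∀ A ∈ I, ∀ B ∈ K, B ⊂ A := by
    rintro A ⟨⟨a1, a2, a3⟩, a4⟩ B ⟨b1, b2, b3, b4⟩
    rcases chain_of hD a1 b1 a2 b2 a4 b4 with h | h
    · exact absurd (h a3) b3
    · exact ⟨h, fun h' => b3 (h' a3)⟩
  unfold del
  rw [e1, e2, e3, Pc_union lI lJ o1, Pc_union lJc lK o2, Pc_union lI lK o3]
  rw [Pc_compl lJ (fun A hA => hc.compl A hA.1.1)]
  group

theorem del_tr (hD : CCut D) {c : Set (F g) → F g} (hc : Wt D c) (k x y : F g) :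
    del D c (k * x) (k * y) = k * del D c x y * k⁻¹ := by
  have e : Sp D (k * x) (k * y) = {A | tr k⁻¹ A ∈ Sp D x y} := by
    ext A
    constructor
    · rintro ⟨h1, h2, h3⟩
      refine ⟨oc_tr h1 _, ?_, ?_⟩
      · rw [mem_tr, _root_.inv_inv]
        exact h2
      · rw [mem_tr, _root_.inv_inv]
        exact h3
    · rintro ⟨h1, h2, h3⟩
      rw [mem_tr, _root_.inv_inv] at h2 h3
      refine ⟨?_, h2, h3⟩
      have := oc_tr h1 k
      rwa [tr_tr, mul_inv_cancel, tr_one] at this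
  unfold del
  rw [e]
  exact Pc_tr (sp_list hD x y (le_refl _)) k fun A hA => hc.tr A hA.1 k

/-- the twist as a function -/
noncomputable def tw (D : Set (F g)) (c : Set (F g) → F g) (x : F g) : F g := del D c 1 x * x

theorem tw_mul (hD : CCut D) {c : Set (F g) → F g} (hc : Wt D c) (x y : F g) :
    tw D c (x * y) = tw D c x * tw D c y := by
  unfold tw
  rw [← del_trans hD hc 1 x (x * y)]
  have h := del_tr hD hc x 1 y
  rw [mul_one] at h
  rw [h]
  group

theorem tw_one {c : Set (F g) → F g} : tw D c 1 = 1 := by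
  unfold tw
  rw [del_self, one_mul]

/-- the cuts inside `V` which contain `x` -/
def Q (D : Set (F g)) (V : Set (F g)) (x : F g) : Set (Set (F g)) := {A | A ∈ OC D ∧ A ⊂ V ∧ x ∈ A}

theorem sp_eq_Q (hD : CCut D) (x : F g) : Sp D 1 x = Q D {1}ᶜ x := by
  ext A
  constructor
  · rintro ⟨h1, h2, h3⟩
    refine ⟨h1, ⟨fun y hy => ?_, fun h => ?_⟩, h3⟩
    · intro hy1
      rw [Set.mem_singleton_iff] at hy1
      exact h2 (hy1 ▸ hy)
    · have h4 : x ≠ 1 := fun h5 => h2 (h5 ▸ h3)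
      have h5 : zeta g ≠ 1 := zeta_ne_one (zeta_pos_of_ne h4)
      have h6 : zeta g ∈ A := h h5
      have h7 := (oc_cut hD h1).zeta 1
      rw [one_mul] at h7
      exact h2 (h7.1 h6)
  · rintro ⟨h1, h2, h3⟩
    exact ⟨h1, fun h => h2.1 h rfl, h3⟩

theorem q_tail {B V : Set (F g)} {L : List (Set (F g))} {x : F g} (h : IsL (B :: L) (Q D V x)) :
    B ∈ Q D V x ∧ IsL L (Q D B x) := by
  have hB := (h.2 B).1 List.mem_cons_self
  have hp := List.pairwise_cons.1 h.1
  refine ⟨hB, hp.2, fun C => ?_⟩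
  constructor
  · intro hC
    have h1 := (h.2 C).1 (List.mem_cons_of_mem _ hC)
    exact ⟨h1.1, hp.1 C hC, h1.2.2⟩
  · rintro ⟨h1, h2, h3⟩
    have h4 := (h.2 C).2 ⟨h1, h2.trans hB.2.1, h3⟩
    rcases List.mem_cons.1 h4 with h5 | h5
    · exact absurd h5 h2.ne
    · exact h5

theorem prod_mem {c : Set (F g) → F g} (hc : Wt D c) {x : F g} : ∀ (L : List (Set (F g)))
    (A : Set (F g)), IsL L (Q D A x) → x ∈ A → (L.map c).prod * x ∈ A
  | [], A, _, hx => by simpa using hx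
  | B :: L, A, hL, _ => by
    obtain ⟨hB, hL2⟩ := q_tail hL
    have h1 := prod_mem hc L B hL2 hB.2.2
    rw [List.map_cons, List.prod_cons, mul_assoc]
    exact hB.2.1.1 ((mul_mem_iff (hc.mem B hB.1)).2 h1)

theorem q_tr {A : Set (F g)} {k y : F g} (hk : k ∈ stD A) :
    {B | tr k⁻¹ B ∈ Q D A y} = Q D A (k * y) := by
  have hkA : tr k⁻¹ A = A := (stD A).inv_mem hk
  ext B
  constructor
  · rintro ⟨h1, h2, h3⟩
    rw [mem_tr, _root_.inv_inv] at h3
    refine ⟨?_, ?_, h3⟩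
    · have := oc_tr h1 k
      rwa [tr_tr, mul_inv_cancel, tr_one] at this
    · rw [← hkA] at h2
      exact ⟨tr_subset.1 h2.1, fun h => h2.2 (tr_subset.2 h)⟩
  · rintro ⟨h1, h2, h3⟩
    refine ⟨oc_tr h1 _, ?_, ?_⟩
    · rw [← hkA]
      exact ⟨tr_subset.2 h2.1, fun h => h2.2 (tr_subset.1 h)⟩
    · rw [mem_tr, _root_.inv_inv]
      exact h3

theorem isL_singleton (A : Set (F g)) : IsL [A] {A} :=
  ⟨List.pairwise_singleton _ _, fun B => by simp⟩

theorem isL_scan (hD : CCut D) {c : Set (F g) → F g} (hc : Wt D c) {x : F g} :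
    ∀ (L : List (Set (F g))) (V : Set (F g)), V ≠ Set.univ → IsL L (Q D V x) →
      IsL (scan c 1 L) (Q D V ((L.map c).prod * x))
  | [], V, _, hL => by
    show IsL [] (Q D V (1 * x))
    rw [one_mul]
    exact hL
  | A :: L, V, hV, hL => by
    obtain ⟨hA, hL2⟩ := q_tail hL
    have hA1 : A ≠ Set.univ := by
      obtain ⟨w, hw⟩ := (oc_cut hD hA.1).ne'
      rintro rfl
      exact hw trivial
    have ih := isL_scan hD hc L A hA1 hL2
    have hy := prod_mem hc L A hL2 hA.2.2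
    have hcA := hc.mem A hA.1
    have h1 := ih.tr (c A)
    rw [q_tr hcA, scan_map, mul_one] at h1
    have hy2 : c A * ((L.map c).prod * x) ∈ A := (mul_mem_iff hcA).2 hy
    have h2 := (isL_singleton A).append h1 (by
      rintro B rfl C hC
      exact hC.2.1)
    have e : {A} ∪ Q D A (c A * ((L.map c).prod * x)) = Q D V (((A :: L).map c).prod * x) := by
      rw [List.map_cons, List.prod_cons, mul_assoc]
      ext B
      constructor
      · rintro (h | h)
        · rw [Set.mem_singleton_iff] at h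
          subst h
          exact ⟨hA.1, hA.2.1, hy2⟩
        · exact ⟨h.1, h.2.1.trans hA.2.1, h.2.2⟩
      · rintro ⟨b1, b2, b3⟩
        obtain ⟨v, hv⟩ : ∃ v, v ∉ V := by
          by_contra hcon
          push Not at hcon
          exact hV (Set.eq_univ_of_forall hcon)
        rcases chain_of hD hA.1 b1 (fun h => hv (hA.2.1.1 h)) (fun h => hv (b2.1 h)) hy2 b3 with h | h
        · have h3 : B ∈ Q D V x := ⟨b1, b2, h hA.2.2⟩
          rcases List.mem_cons.1 ((hL.2 B).2 h3) with h4 | h4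
          · exact Or.inl h4
          · exact absurd h ((List.pairwise_cons.1 hL.1).1 B h4).2
        · by_cases hBA : B = A
          · exact Or.inl hBA
          · exact Or.inr ⟨b1, h.ssubset_of_ne hBA, b3⟩
    rw [e] at h2
    show IsL (tr 1 A :: scan c (1 * c A) L) _
    rw [tr_one, one_mul]
    exact h2

theorem scan_prod {c : Set (F g) → F g} (hc : Wt D c) : ∀ (L : List (Set (F g))) (p : F g),
    (∀ A ∈ L, A ∈ OC D) → ((scan c p L).map fun A => (c A)⁻¹).prod = p * ((L.map c).prod)⁻¹ * p⁻¹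
  | [], p, _ => by simp [scan]
  | A :: L, p, h => by
    have h1 := scan_prod hc L (p * c A) (fun B hB => h B (List.mem_cons_of_mem _ hB))
    show ((tr p A :: scan c (p * c A) L).map fun A => (c A)⁻¹).prod = _
    rw [List.map_cons, List.prod_cons, h1, hc.tr A (h A List.mem_cons_self), List.map_cons, List.prod_cons]
    group

theorem tw_inv (hD : CCut D) {c : Set (F g) → F g} (hc : Wt D c) (x : F g) :
    tw D (fun A => (c A)⁻¹) (tw D c x) = x := by
  obtain ⟨L, hL⟩ := sp_list hD 1 x (le_refl (Sp D 1 x))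
  have e1 : tw D c x = (L.map c).prod * x := by
    unfold tw del
    rw [Pc_eq hL]
  have hne : ({1}ᶜ : Set (F g)) ≠ Set.univ := by
    intro h
    have : (1 : F g) ∈ ({1}ᶜ : Set (F g)) := h ▸ trivial
    exact this rfl
  have h2 := isL_scan hD hc L {1}ᶜ hne (by rw [← sp_eq_Q hD]; exact hL)
  rw [← sp_eq_Q hD] at h2
  rw [e1]
  unfold tw del
  rw [Pc_eq h2, scan_prod hc L 1 (fun A hA => ((hL.2 A).1 hA).1)]
  group

/-- the twist automorphism -/
noncomputable def twA (hD : CCut D) {c : Set (F g) → F g} (hc : Wt D c) : MulAut (F g) where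
  toFun := tw D c
  invFun := tw D fun A => (c A)⁻¹
  left_inv := tw_inv hD hc
  right_inv x := by
    have h := tw_inv hD hc.inv x
    have e : (fun A => ((c A)⁻¹)⁻¹) = c := by
      funext A
      rw [_root_.inv_inv]
    rw [e] at h
    exact h
  map_mul' := tw_mul hD hc

theorem tw_zeta (hD : CCut D) (c : Set (F g) → F g) : tw D c (zeta g) = zeta g := by
  have e : Sp D 1 (zeta g) = ∅ := by
    ext A
    constructor
    · rintro ⟨h1, h2, h3⟩
      have h7 := (oc_cut hD h1).zeta 1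
      rw [one_mul] at h7
      exact absurd (h7.1 h3) h2
    · intro h
      exact absurd h (Set.notMem_empty _)
  unfold tw del
  rw [e, Pc_empty, one_mul]

/-- the twist as an element of `Gam g` -/
noncomputable def twG (hD : CCut D) {c : Set (F g) → F g} (hc : Wt D c) : Gam g :=
  ⟨twA hD hc, tw_zeta hD c⟩

end TorG
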