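import Mathlib
import Pool.Agent.Lib.MP_05cdf2_gt.G.Twist

/-! MP_05cdf2_gt, stream G (helper49): ends, and the action of a twist on nested cuts.

An end is a consistent choice of sides of the members of `OC D`. `tw_nested`: if `A'` is nested with all
members of `OC D` then `tw D c` maps `A'` to the translate `tr p A'`, `p` a product of values of `c`. -/

set_option autoImplicit false

namespace TorG
open TorM

variable {g : ℕ} {D : Set (F g)}

/-- ends -/
structure IsEnd (D : Set (F g)) (e : Set (F g) → Prop) : Prop where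
  compl : ∀ A ∈ OC D, (e Aᶜ ↔ ¬ e A)
  mono : ∀ A ∈ OC D, ∀ B ∈ OC D, A ⊆ B → e A → e B

theorem isEnd_pt (x : F g) : IsEnd D fun A => x ∈ A where
  compl _ _ := Iff.rfl
  mono _ _ _ _ h hx := h hx

/-- oriented cuts which contain `f` but not `e` -/
def SpE (D : Set (F g)) (e f : Set (F g) → Prop) : Set (Set (F g)) := {A | A ∈ OC D ∧ ¬ e A ∧ f A}

theorem chainE (hD : CCut D) {e f : Set (F g) → Prop} (he : IsEnd D e) (hf : IsEnd D f) {A B : Set (F g)}
    (hA : A ∈ SpE D e f) (hB : B ∈ SpE D e f) : A ⊆ B ∨ B ⊆ A := by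
  rcases oc_nest hD hA.1 hB.1 with h | h | h | h
  · exact Or.inl h
  · exact Or.inr h
  · exfalso
    have h1 : A ⊆ Bᶜ := fun x hx hxB => h x ⟨hx, hxB⟩
    have h2 := hf.mono A hA.1 Bᶜ (oc_compl hB.1) h1 hA.2.2
    exact (hf.compl B hB.1).1 h2 hB.2.2
  · exfalso
    have h1 : Aᶜ ⊆ B := fun x hx => (h x).resolve_left hx
    have h2 := he.mono Aᶜ (oc_compl hA.1) B hB.1 h1 ((he.compl A hA.1).2 hA.2.1)
    exact hB.2.1 h2

theorem spE_list (hD : CCut D) {e f : Set (F g) → Prop} (he : IsEnd D e) (hf : IsEnd D f)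
    (hfin : (SpE D e f).Finite) {S : Set (Set (F g))} (hS : S ⊆ SpE D e f) : ∃ L, IsL L S :=
  exists_isL _ S (hfin.subset hS) (fun _ hA _ hB => chainE hD he hf (hS hA) (hS hB)) rfl

/-- the displacement -/
noncomputable def delE (D : Set (F g)) (c : Set (F g) → F g) (e f : Set (F g) → Prop) : F g :=
  Pc c (SpE D e f)

theorem delE_trans (hD : CCut D) {c : Set (F g) → F g} (hc : Wt D c) {x y z : Set (F g) → Prop}
    (hx : IsEnd D x) (hy : IsEnd D y) (hz : IsEnd D z) (f1 : (SpE D x y).Finite) (f2 : (SpE D y z).Finite) :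
    delE D c x y * delE D c y z = delE D c x z := by
  let I : Set (Set (F g)) := {A | A ∈ SpE D x y ∧ z A}
  let J : Set (Set (F g)) := {A | A ∈ SpE D x y ∧ ¬ z A}
  let Jc : Set (Set (F g)) := {A | Aᶜ ∈ J}
  let K : Set (Set (F g)) := {A | A ∈ OC D ∧ ¬ x A ∧ ¬ y A ∧ z A}
  have e1 : SpE D x y = I ∪ J := by
    ext A
    constructor
    · intro h
      by_cases hz : z A
      · exact Or.inl ⟨h, hz⟩
      · exact Or.inr ⟨h, hz⟩
    · rintro (h | h)
      · exact h.1
      · exact h.1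
  have cc : ∀ (w : Set (F g) → Prop) (A : Set (F g)), IsEnd D w → Aᶜ ∈ OC D → (w A ↔ ¬ w Aᶜ) := by
    intro w A hw hA
    have := hw.compl Aᶜ hA
    rwa [compl_compl] at this
  have e2 : SpE D y z = Jc ∪ K := by
    ext A
    constructor
    · rintro ⟨h1, h2, h3⟩
      by_cases hxA : x A
      · refine Or.inl ⟨⟨oc_compl h1, ?_, ?_⟩, ?_⟩
        · rw [hx.compl A h1]
          exact fun h => h hxA
        · rw [hy.compl A h1]
          exact h2
        · rw [hz.compl A h1]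
          exact fun h => h h3
      · exact Or.inr ⟨h1, hxA, h2, h3⟩
    · rintro (⟨⟨h1, h2, h3⟩, h4⟩ | ⟨h1, h2, h3, h4⟩)
      · refine ⟨?_, ?_, ?_⟩
        · have := oc_compl h1
          rwa [compl_compl] at this
        · rw [cc y A hy h1]
          exact fun h => h h3
        · rw [cc z A hz h1]
          exact h4
      · exact ⟨h1, h3, h4⟩
  have e3 : SpE D x z = I ∪ K := by
    ext A
    constructor
    · rintro ⟨h1, h2, h3⟩
      by_cases hy : y A
      · exact Or.inl ⟨⟨h1, h2, hy⟩, h3⟩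
      · exact Or.inr ⟨h1, h2, hy, h3⟩
    · rintro (⟨⟨h1, h2, h3⟩, h4⟩ | ⟨h1, h2, h3, h4⟩)
      · exact ⟨h1, h2, h4⟩
      · exact ⟨h1, h2, h4⟩
  have lI : ∃ L, IsL L I := spE_list hD hx hy f1 (fun A hA => hA.1)
  have lJ : ∃ L, IsL L J := spE_list hD hx hy f1 (fun A hA => hA.1)
  have lJc : ∃ L, IsL L Jc := spE_list hD hy hz f2 (by rw [e2]; exact Set.subset_union_left)
  have lK : ∃ L, IsL L K := spE_list hD hy hz f2 (by rw [e2]; exact Set.subset_union_right)
  have o1 : ∀ A ∈ I, ∀ B ∈ J, B ⊂ A := by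
    rintro A ⟨hA, a4⟩ B ⟨hB, b4⟩
    rcases chainE hD hx hy hA hB with h | h
    · exact absurd (hz.mono A hA.1 B hB.1 h a4) b4
    · exact ⟨h, fun h' => b4 (hz.mono A hA.1 B hB.1 h' a4)⟩
  have o2 : ∀ A ∈ Jc, ∀ B ∈ K, B ⊂ A := by
    intro A hA B hB
    have hA' : A ∈ SpE D y z := by rw [e2]; exact Or.inl hA
    have hB' : B ∈ SpE D y z := by rw [e2]; exact Or.inr hB
    have hxA : x A := by
      rw [cc x A hx hA.1.1]
      exact hA.1.2.1
    rcases chainE hD hy hz hA' hB' with h | h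
    · exact absurd (hx.mono A hA'.1 B hB'.1 h hxA) hB.2.1
    · exact ⟨h, fun h' => hB.2.1 (hx.mono A hA'.1 B hB'.1 h' hxA)⟩
  have o3 : ∀ A ∈ I, ∀ B ∈ K, B ⊂ A := by
    intro A hA B hB
    have hA' : A ∈ SpE D x z := by rw [e3]; exact Or.inl hA
    have hB' : B ∈ SpE D x z := by rw [e3]; exact Or.inr hB
    rcases chainE hD hx hz hA' hB' with h | h
    · exact absurd (hy.mono A hA'.1 B hB'.1 h hA.1.2.2) hB.2.2.1
    · exact ⟨h, fun h' => hB.2.2.1 (hy.mono A hA'.1 B hB'.1 h' hA.1.2.2)⟩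
  unfold delE
  rw [e1, e2, e3, Pc_union lI lJ o1, Pc_union lJc lK o2, Pc_union lI lK o3]
  rw [Pc_compl lJ (fun A hA => hc.compl A hA.1.1)]
  group

/-- the end just inside `A'` -/
def inE (A' A : Set (F g)) : Prop := A' ⊆ A ∨ Aᶜ ⊂ A'

theorem isEnd_in {A' : Set (F g)} (hne : A'.Nonempty) (hne' : A'ᶜ.Nonempty)
    (hn : ∀ A ∈ OC D, Nest A A') : IsEnd D (inE A') where
  compl A hA := by
    obtain ⟨a, ha⟩ := hne
    obtain ⟨b, hb⟩ := hne'
    unfold inE
    rw [compl_compl]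
    constructor
    · rintro (h | h) (h' | h')
      · exact h ha (h' ha)
      · exact h'.2 h
      · exact h.2 h'
      · by_cases hbA : b ∈ A
        · exact hb (h.1 hbA)
        · exact hb (h'.1 hbA)
    · intro h
      push Not at h
      obtain ⟨h1, h2⟩ := h
      rcases hn A hA with h | h | h | h
      · exact Or.inr ⟨h, h1⟩
      · exact absurd h h1
      · exact Or.inl fun x hx hxA => h x ⟨hxA, hx⟩
      · left
        by_contra h3
        exact h2 ⟨fun x hx => (h x).resolve_left hx, h3⟩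
  mono A hA B hB hAB h := by
    rcases h with h | h
    · exact Or.inl (h.trans hAB)
    · exact Or.inr ⟨fun x hx => h.1 fun hxA => hx (hAB hxA), fun hx => h.2 (hx.trans fun x hx hxA => hx (hAB hxA))⟩

theorem prod_mem' {c : Set (F g) → F g} (hc : Wt D c) {x : F g} {L : List (Set (F g))} {S : Set (Set (F g))}
    {V : Set (F g)} (hL : IsL L S) (h1 : ∀ A ∈ S, A ∈ OC D ∧ A ⊆ V ∧ x ∈ A)
    (h2 : ∀ A ∈ S, ∀ B, B ∈ OC D → B ⊂ A → x ∈ B → B ∈ S) (hx : x ∈ V) : (L.map c).prod * x ∈ V := by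
  cases L with
  | nil => simpa using hx
  | cons A L =>
    have hA := h1 A ((hL.2 A).1 List.mem_cons_self)
    have hp := List.pairwise_cons.1 hL.1
    have h3 : IsL L (Q D A x) := by
      refine ⟨hp.2, fun C => ?_⟩
      constructor
      · intro hC
        have h4 := h1 C ((hL.2 C).1 (List.mem_cons_of_mem _ hC))
        exact ⟨h4.1, hp.1 C hC, h4.2.2⟩
      · rintro ⟨c1, c2, c3⟩
        have h4 := (hL.2 C).2 (h2 A ((hL.2 A).1 List.mem_cons_self) C c1 c2 c3)
        rcases List.mem_cons.1 h4 with h5 | h5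
        · exact absurd h5 c2.ne
        · exact h5
    have h5 := prod_mem hc L A h3 hA.2.2
    rw [List.map_cons, List.prod_cons, mul_assoc]
    exact hA.2.1 ((mul_mem_iff (hc.mem A hA.1)).2 h5)

theorem delE_pt (c : Set (F g) → F g) (x y : F g) :
    delE D c (fun A => x ∈ A) (fun A => y ∈ A) = del D c x y := rfl

theorem spE_in_mem {A' : Set (F g)} {x : F g} (hx : x ∈ A') {A : Set (F g)}
    (he : IsEnd D (inE A')) : A ∈ SpE D (inE A') (fun A => x ∈ A) ↔ A ∈ OC D ∧ A ⊂ A' ∧ x ∈ A := by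
  constructor
  · rintro ⟨h1, h2, h3⟩
    rw [← he.compl A h1] at h2
    rcases h2 with h2 | h2
    · exact absurd h3 (h2 hx)
    · rw [compl_compl] at h2
      exact ⟨h1, h2, h3⟩
  · rintro ⟨h1, h2, h3⟩
    refine ⟨h1, ?_, h3⟩
    rw [← he.compl A h1]
    right
    rwa [compl_compl]

theorem spE_in_notMem {A' : Set (F g)} {x : F g} (hx : x ∉ A') {A : Set (F g)}
    (he : IsEnd D (inE A')) : A ∈ SpE D (inE A') (fun A => x ∈ A) ↔ A ∈ OC D ∧ A ⊆ A'ᶜ ∧ x ∈ A := by
  constructor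
  · rintro ⟨h1, h2, h3⟩
    rw [← he.compl A h1] at h2
    rcases h2 with h2 | h2
    · exact ⟨h1, fun y hy hyA => h2 hyA hy, h3⟩
    · rw [compl_compl] at h2
      exact absurd (h2.1 h3) hx
  · rintro ⟨h1, h2, h3⟩
    refine ⟨h1, ?_, h3⟩
    rw [← he.compl A h1]
    left
    exact fun y hy hyA => h2 hyA hy

theorem spE_in_fin (hD : CCut D) {A' : Set (F g)} (hne : A'.Nonempty) (hne' : A'ᶜ.Nonempty)
    (he : IsEnd D (inE A')) (x : F g) : (SpE D (inE A') (fun A => x ∈ A)).Finite := by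
  obtain ⟨a, ha⟩ := hne
  obtain ⟨b, hb⟩ := hne'
  by_cases hx : x ∈ A'
  · refine (sp_fin hD b x).subset fun A hA => ?_
    rw [spE_in_mem hx he] at hA
    exact ⟨hA.1, fun h => hb (hA.2.1.1 h), hA.2.2⟩
  · refine (sp_fin hD a x).subset fun A hA => ?_
    rw [spE_in_notMem hx he] at hA
    exact ⟨hA.1, fun h => hA.2.1 h ha, hA.2.2⟩

theorem spE_in_fin' (hD : CCut D) {A' : Set (F g)} (hne : A'.Nonempty) (hne' : A'ᶜ.Nonempty)
    (he : IsEnd D (inE A')) (x : F g) : (SpE D (fun A => x ∈ A) (inE A')).Finite := by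
  refine ((spE_in_fin hD hne hne' he x).image fun A : Set (F g) => Aᶜ).subset fun A hA => ?_
  refine ⟨Aᶜ, ⟨oc_compl hA.1, ?_, hA.2.1⟩, compl_compl A⟩
  rw [he.compl A hA.1]
  exact fun h => h hA.2.2

/-- displacement of a nested set -/
noncomputable def dsp (D : Set (F g)) (c : Set (F g) → F g) (A' : Set (F g)) : F g :=
  delE D c (fun A => (1 : F g) ∈ A) (inE A')

theorem tw_nested (hD : CCut D) {c : Set (F g) → F g} (hc : Wt D c) {A' : Set (F g)} (hne : A'.Nonempty)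
    (hne' : A'ᶜ.Nonempty) (hn : ∀ A ∈ OC D, Nest A A') (x : F g) :
    tw D c x ∈ tr (dsp D c A') A' ↔ x ∈ A' := by
  have he := isEnd_in (D := D) hne hne' hn
  have hf := spE_in_fin hD hne hne' he x
  have h1 : dsp D c A' * delE D c (inE A') (fun A => x ∈ A) = del D c 1 x :=
    delE_trans hD hc (isEnd_pt 1) he (isEnd_pt x) (spE_in_fin' hD hne hne' he 1) hf
  obtain ⟨L, hL⟩ := spE_list hD he (isEnd_pt x) hf (le_refl _)
  have h2 : (dsp D c A')⁻¹ * tw D c x = (L.map c).prod * x := by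
    unfold tw
    rw [← h1]
    unfold delE
    rw [Pc_eq hL]
    group
  rw [mem_tr, h2]
  by_cases hx : x ∈ A'
  · refine iff_of_true (prod_mem' hc hL (fun A hA => ?_) (fun A hA B h3 h4 h5 => ?_) hx) hx
    · rw [spE_in_mem hx he] at hA
      exact ⟨hA.1, hA.2.1.1, hA.2.2⟩
    · rw [spE_in_mem hx he] at hA ⊢
      exact ⟨h3, h4.trans hA.2.1, h5⟩
  · refine iff_of_false (prod_mem' hc hL (V := A'ᶜ) (fun A hA => ?_) (fun A hA B h3 h4 h5 => ?_) hx) hx
    · rwa [spE_in_notMem hx he] at hA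
    · rw [spE_in_notMem hx he] at hA ⊢
      exact ⟨h3, h4.1.trans hA.2.1, h5⟩

/-- the displacement is a product of values of `c` -/
theorem dsp_mem (hD : CCut D) {c : Set (F g) → F g} {A' : Set (F g)} (hne : A'.Nonempty)
    (hne' : A'ᶜ.Nonempty) (hn : ∀ A ∈ OC D, Nest A A') (S : Subgroup (F g)) (hS : ∀ A ∈ OC D, c A ∈ S) :
    dsp D c A' ∈ S := by
  have he := isEnd_in (D := D) hne hne' hn
  obtain ⟨L, hL⟩ := spE_list hD (isEnd_pt 1) he (spE_in_fin' hD hne hne' he 1) (le_refl _)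
  unfold dsp delE
  rw [Pc_eq hL]
  refine S.list_prod_mem fun y hy => ?_
  rw [List.mem_map] at hy
  obtain ⟨A, hA, rfl⟩ := hy
  exact hS A ((hL.2 A).1 hA).1

/-- a twist maps `A'` to a translate -/
theorem im_tw_nested (hD : CCut D) {c : Set (F g) → F g} (hc : Wt D c) {A' : Set (F g)} (hne : A'.Nonempty)
    (hne' : A'ᶜ.Nonempty) (hn : ∀ A ∈ OC D, Nest A A') :
    im (twG hD hc : MulAut (F g)) A' = tr (dsp D c A') A' := by
  ext x
  rw [mem_im]
  have h := tw_nested hD hc hne hne' hn ((twG hD hc : MulAut (F g)).symm x)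
  have e : tw D c ((twG hD hc : MulAut (F g)).symm x) = x :=
    MulEquiv.apply_symm_apply (twG hD hc : MulAut (F g)) x
  rw [e] at h
  exact h.symm

end TorG
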