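import Mathlib
import Pool.Agent.Lib.MP_05cdf2_gt.G.TwistE
import Pool.Agent.Lib.MP_05cdf2_gt.G.Gen

/-! MP_05cdf2_gt, stream G (helper49): the Dehn twist about a closed cut is a transvection.

`gn A`: the positive generator of the stabiliser of `A`. `dt hD`: the Dehn twist about `D`.
`rhoM_dt : rhoM (dt hD) = tv (abv (gn D)) 1`. `dt_im`: the twist about `im φ D` is `φ * dt hD * φ⁻¹`.
`dt_congr`: it depends only on `OC D`. -/

set_option autoImplicit false

namespace TorG
open TorM Matrix Tor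
open Pool.Agent.Lib.MP_05cdf2_gt.C

variable {g : ℕ} {D : Set (F g)}

open Classical in
/-- the positive generator of the stabiliser -/
noncomputable def gn (A : Set (F g)) : F g := if h : ∃ γ, IsGen A γ then h.choose else 1

theorem gn_spec {A : Set (F g)} (hA : WCut A) : IsGen A (gn A) := by
  have h := exists_gen hA
  unfold gn
  rw [dif_pos h]
  exact h.choose_spec

theorem gn_eq {A : Set (F g)} (hA : WCut A) {γ : F g} (h : IsGen A γ) : gn A = γ :=
  (gn_spec hA).unique hA h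

theorem gn_tr {A : Set (F g)} (hA : WCut A) (h : F g) : gn (tr h A) = h * gn A * h⁻¹ :=
  gn_eq (hA.translate h) ((gn_spec hA).tr h)

theorem gn_compl {A : Set (F g)} (hA : WCut A) : gn Aᶜ = (gn A)⁻¹ :=
  gn_eq hA.compl ((gn_spec hA).compl hA)

theorem gn_im {A : Set (F g)} (hA : WCut A) (φ : Gam g) :
    gn (im (φ : MulAut (F g)) A) = (φ : MulAut (F g)) (gn A) :=
  gn_eq (hA.im φ) ((gn_spec hA).im φ)

theorem wt_gn (hD : CCut D) : Wt D gn where
  mem _ hA := (gn_spec (oc_cut hD hA).toWCut).mem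
  tr _ hA h := gn_tr (oc_cut hD hA).toWCut h
  compl _ hA := gn_compl (oc_cut hD hA).toWCut

/-- the Dehn twist -/
noncomputable def dt (hD : CCut D) : Gam g := twG hD (wt_gn hD)

theorem dt_apply (hD : CCut D) (x : F g) : (dt hD : MulAut (F g)) x = tw D gn x := rfl

theorem abv_list (S : List (F g)) : abv S.prod = (S.map abv).sum := by
  induction S with
  | nil => simp
  | cons a S ih => rw [List.prod_cons, abv_mul, ih, List.map_cons, List.sum_cons]

theorem abv_prod_list {c : Set (F g) → F g} {v : Gen g → ℤ} {p : Set (F g) → Prop} [DecidablePred p]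
    {L : List (Set (F g))} (h1 : ∀ A ∈ L, p A → abv (c A) = v) (h2 : ∀ A ∈ L, ¬ p A → abv (c A) = -v) :
    abv (L.map c).prod = ((L.filter p).length - (L.filter fun A => ¬ p A).length : ℤ) • v := by
  induction L with
  | nil => simp
  | cons A L ih =>
    have ih' := ih (fun B hB => h1 B (List.mem_cons_of_mem _ hB)) (fun B hB => h2 B (List.mem_cons_of_mem _ hB))
    rw [List.map_cons, List.prod_cons, abv_mul, ih']
    by_cases hp : p A
    · rw [h1 A List.mem_cons_self hp, List.filter_cons_of_pos (by simpa using hp),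
        List.filter_cons_of_neg (by simpa using hp), List.length_cons]
      push_cast
      module
    · rw [h2 A List.mem_cons_self hp, List.filter_cons_of_neg (by simpa using hp),
        List.filter_cons_of_pos (by simpa using hp), List.length_cons]
      push_cast
      module

theorem isL_nodup {L : List (Set (F g))} {S : Set (Set (F g))} (h : IsL L S) : L.Nodup :=
  h.1.imp fun {_ _} hab => hab.ne'

theorem abv_del (hD : CCut D) (x : F g) :
    abv (del D gn 1 x) = om (abv (gn D)) (abv x) • abv (gn D) := by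
  classical
  obtain ⟨L, hL⟩ := sp_list hD 1 x (le_refl (Sp D 1 x))
  have hv : ∀ h, abv (gn (tr h D)) = abv (gn D) := by
    intro h
    rw [gn_tr hD.toWCut]
    exact abv_conj _ _
  have hv' : ∀ h, abv (gn (tr h D)ᶜ) = - abv (gn D) := by
    intro h
    rw [gn_compl (hD.translate h).toWCut, abv_inv, hv]
  unfold del
  rw [Pc_eq hL]
  have h1 : ∀ A ∈ L, (∃ h, A = tr h D) → abv (gn A) = abv (gn D) := by
    rintro A - ⟨h, rfl⟩
    exact hv h
  have h2 : ∀ A ∈ L, ¬ (∃ h, A = tr h D) → abv (gn A) = -abv (gn D) := by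
    rintro A hA hn
    rcases ((hL.2 A).1 hA).1 with h | ⟨h, rfl⟩
    · exact absurd h hn
    · exact hv' h
  rw [abv_prod_list h1 h2]
  by_cases hv0 : abv (gn D) = 0
  · rw [hv0, smul_zero, smul_zero]
  congr 1
  rw [← cross_formula hD.toWCut (gn_spec hD.toWCut) x]
  have hno : ∀ h k, tr h D ≠ (tr k D)ᶜ := by
    intro h k e
    have e2 := hv h
    rw [e, hv'] at e2
    apply hv0
    funext i
    have e3 := congrFun e2 i
    simp only [Pi.neg_apply] at e3
    simp only [Pi.zero_apply]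
    omega
  have c1 : (L.filter fun A => ∃ h, A = tr h D).length =
      {A | (∃ h, A = tr h D) ∧ (1 : F g) ∉ A ∧ x ∈ A}.ncard := by
    have e : {A | (∃ h, A = tr h D) ∧ (1 : F g) ∉ A ∧ x ∈ A} =
        ((L.filter fun A => ∃ h, A = tr h D).toFinset : Set (Set (F g))) := by
      ext A
      rw [Finset.mem_coe, List.mem_toFinset, List.mem_filter, hL.2]
      simp only [decide_eq_true_eq]
      constructor
      · rintro ⟨h, h3, h4⟩
        exact ⟨⟨Or.inl h, h3, h4⟩, h⟩
      · rintro ⟨⟨-, h3, h4⟩, h⟩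
        exact ⟨h, h3, h4⟩
    rw [e, Set.ncard_coe_finset, List.toFinset_card_of_nodup ((isL_nodup hL).filter _)]
  have c2 : (L.filter fun A => ¬ ∃ h, A = tr h D).length =
      {A | (∃ h, A = tr h D) ∧ (1 : F g) ∈ A ∧ x ∉ A}.ncard := by
    have e0 : {A | (∃ h, A = tr h D) ∧ (1 : F g) ∈ A ∧ x ∉ A}.ncard =
        ((fun A : Set (F g) => Aᶜ) '' {A | (∃ h, A = tr h D) ∧ (1 : F g) ∈ A ∧ x ∉ A}).ncard := by
      rw [Set.ncard_image_of_injective _ compl_injective]
    have e : ((fun A : Set (F g) => Aᶜ) '' {A | (∃ h, A = tr h D) ∧ (1 : F g) ∈ A ∧ x ∉ A}) =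
        ((L.filter fun A => ¬ ∃ h, A = tr h D).toFinset : Set (Set (F g))) := by
      ext A
      rw [Finset.mem_coe, List.mem_toFinset, List.mem_filter, hL.2]
      simp only [decide_eq_true_eq]
      constructor
      · rintro ⟨B, ⟨⟨h, rfl⟩, h3, h4⟩, rfl⟩
        refine ⟨⟨Or.inr ⟨h, rfl⟩, fun hh => hh h3, h4⟩, ?_⟩
        rintro ⟨k, hk⟩
        exact hno k h hk.symm
      · rintro ⟨⟨h | ⟨h, rfl⟩, h3, h4⟩, hn⟩
        · exact absurd h hn
        · exact ⟨tr h D, ⟨⟨h, rfl⟩, by simpa using h3, h4⟩, rfl⟩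
    rw [e0, e, Set.ncard_coe_finset, List.toFinset_card_of_nodup ((isL_nodup hL).filter _)]
  rw [c1, c2]

theorem abv_dt (hD : CCut D) (x : F g) :
    abv ((dt hD : MulAut (F g)) x) = abv x + om (abv (gn D)) (abv x) • abv (gn D) := by
  rw [dt_apply]
  unfold tw
  rw [abv_mul, abv_del hD, add_comm]

theorem J_mulVec (v : Gen g → ℤ) (j : Gen g) : (J (Fin g) ℤ *ᵥ v) j = om v (Pi.single j 1) := by
  unfold om
  rcases j with j | j
  · simp only [J, fromBlocks_mulVec, Matrix.neg_mulVec, one_mulVec, zero_mulVec, zero_add,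
      Sum.elim_inl, Pi.neg_apply, Function.comp_apply, Pi.single_apply]
    rw [Finset.sum_eq_single j]
    · simp
    · intro b _ hb
      simp [hb]
    · simp
  · simp only [J, fromBlocks_mulVec, one_mulVec, zero_mulVec, add_zero,
      Sum.elim_inr, Function.comp_apply, Pi.single_apply]
    rw [Finset.sum_eq_single j]
    · simp
    · intro b _ hb
      simp [hb]
    · simp

/-- the twist acts as a transvection -/
theorem rhoM_dt (hD : CCut D) : rhoM (dt hD : MulAut (F g)) = tv (abv (gn D)) 1 := by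
  ext i j
  rw [rhoM_apply, abv_dt, abv_of]
  unfold tv
  rw [one_smul, Matrix.add_apply, Matrix.one_apply, vecMulVec_apply, J_mulVec, Pi.add_apply, Pi.smul_apply,
    Pi.single_apply, smul_eq_mul]
  ring

theorem im_inj {φ : MulAut (F g)} {A B : Set (F g)} (h : im φ A = im φ B) : A = B :=
  Set.Subset.antisymm (im_subset.1 h.subset) (im_subset.1 h.superset)

theorem im_inv_im (φ : MulAut (F g)) (A : Set (F g)) : im φ⁻¹ (im φ A) = A := by
  ext x
  rw [mem_im, mem_im]
  show φ.symm (φ x) ∈ A ↔ _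
  rw [MulEquiv.symm_apply_apply]

theorem im_im_inv (φ : MulAut (F g)) (A : Set (F g)) : im φ (im φ⁻¹ A) = A := by
  ext x
  rw [mem_im, mem_im]
  show φ (φ.symm x) ∈ A ↔ _
  rw [MulEquiv.apply_symm_apply]

theorem im_mul (φ ψ : MulAut (F g)) (A : Set (F g)) : im (φ * ψ) A = im φ (im ψ A) := rfl

theorem im_one (A : Set (F g)) : im 1 A = A := rfl

theorem oc_im (φ : MulAut (F g)) {A : Set (F g)} : im φ A ∈ OC (im φ D) ↔ A ∈ OC D := by
  constructor
  · rintro (⟨h, hh⟩ | ⟨h, hh⟩)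
    · refine Or.inl ⟨φ.symm h, im_inj (φ := φ) ?_⟩
      rw [im_tr, MulEquiv.apply_symm_apply]
      exact hh
    · refine Or.inr ⟨φ.symm h, im_inj (φ := φ) ?_⟩
      rw [im_compl, im_tr, MulEquiv.apply_symm_apply]
      exact hh
  · rintro (⟨h, rfl⟩ | ⟨h, rfl⟩)
    · exact Or.inl ⟨φ h, im_tr _ _ _⟩
    · refine Or.inr ⟨φ h, ?_⟩
      rw [im_compl, im_tr]

theorem tw_im (hD : CCut D) (φ : Gam g) (x : F g) :
    tw (im (φ : MulAut (F g)) D) gn ((φ : MulAut (F g)) x) = (φ : MulAut (F g)) (tw D gn x) := by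
  obtain ⟨L, hL⟩ := sp_list hD 1 x (le_refl (Sp D 1 x))
  have e : {A | im (φ : MulAut (F g))⁻¹ A ∈ Sp D 1 x} = Sp (im (φ : MulAut (F g)) D) 1 ((φ : MulAut (F g)) x) := by
    ext A
    obtain ⟨B, rfl⟩ : ∃ B, A = im (φ : MulAut (F g)) B :=
      ⟨im (φ : MulAut (F g))⁻¹ A, (im_im_inv _ _).symm⟩
    show im (φ : MulAut (F g))⁻¹ (im (φ : MulAut (F g)) B) ∈ Sp D 1 x ↔ _
    rw [im_inv_im]
    constructor
    · rintro ⟨h1, h2, h3⟩
      refine ⟨(oc_im _).2 h1, ?_, map_mem_im.2 h3⟩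
      rw [mem_im, map_one]
      exact h2
    · rintro ⟨h1, h2, h3⟩
      refine ⟨(oc_im _).1 h1, ?_, map_mem_im.1 h3⟩
      rw [mem_im, map_one] at h2
      exact h2
  have h2 := hL.im (φ : MulAut (F g))
  rw [e] at h2
  unfold tw del
  rw [Pc_eq h2, Pc_eq hL, map_mul, map_list_prod, List.map_map, List.map_map]
  congr 2
  refine List.map_congr_left fun A hA => ?_
  exact gn_im (oc_cut hD ((hL.2 A).1 hA).1).toWCut φ

/-- equivariance -/
theorem dt_im (hD : CCut D) (φ : Gam g) : dt (hD.im φ) = φ * dt hD * φ⁻¹ := by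
  apply Subtype.ext
  apply MulEquiv.ext
  intro x
  show tw (im (φ : MulAut (F g)) D) gn x = (φ : MulAut (F g)) (tw D gn ((φ : MulAut (F g)).symm x))
  rw [← tw_im hD φ, MulEquiv.apply_symm_apply]

theorem dt_congr {D' : Set (F g)} (hD : CCut D) (hD' : CCut D') (h : OC D = OC D') : dt hD = dt hD' := by
  apply Subtype.ext
  apply MulEquiv.ext
  intro x
  show tw D gn x = tw D' gn x
  unfold tw del Sp
  rw [h]

theorem oc_of_tr (k : F g) (D : Set (F g)) : OC (tr k D) = OC D := by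
  ext A
  constructor
  · rintro (⟨h, rfl⟩ | ⟨h, rfl⟩)
    · exact Or.inl ⟨h * k, tr_tr _ _ _⟩
    · exact Or.inr ⟨h * k, by rw [tr_tr]⟩
  · rintro (⟨h, rfl⟩ | ⟨h, rfl⟩)
    · exact Or.inl ⟨h * k⁻¹, by rw [tr_tr, inv_mul_cancel_right]⟩
    · exact Or.inr ⟨h * k⁻¹, by rw [tr_tr, inv_mul_cancel_right]⟩

theorem oc_of_compl (D : Set (F g)) : OC Dᶜ = OC D := by
  ext A
  constructor
  · rintro (⟨h, rfl⟩ | ⟨h, rfl⟩)
    · exact Or.inr ⟨h, rfl⟩
    · exact Or.inl ⟨h, by rw [tr_compl, compl_compl]⟩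
  · rintro (⟨h, rfl⟩ | ⟨h, rfl⟩)
    · exact Or.inr ⟨h, by rw [tr_compl, compl_compl]⟩
    · exact Or.inl ⟨h, rfl⟩

theorem dt_tr (hD : CCut D) (k : F g) : dt (hD.translate k) = dt hD :=
  dt_congr _ _ (oc_of_tr k D)

/-- a twist maps a nested cut to a translate by an element of `ker φ` for every additive map which
vanishes on the class of the cut -/
theorem im_dt_nested (hD : CCut D) {A' : Set (F g)} (hne : A'.Nonempty)
    (hne' : A'ᶜ.Nonempty) (hn : ∀ A ∈ OC D, Nest A A') :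
    ∃ p : F g, im (dt hD : MulAut (F g)) A' = tr p A' ∧ ∃ n : ℤ, abv p = n • abv (gn D) := by
  refine ⟨dsp D gn A', im_tw_nested hD (wt_gn hD) hne hne' hn, ?_⟩
  let S : Subgroup (F g) :=
    { carrier := {p | ∃ n : ℤ, abv p = n • abv (gn D)}
      one_mem' := ⟨0, by simp⟩
      mul_mem' := by
        rintro a b ⟨n, hn⟩ ⟨m, hm⟩
        exact ⟨n + m, by rw [abv_mul, hn, hm, add_smul]⟩
      inv_mem' := by
        rintro a ⟨n, hn⟩
        exact ⟨-n, by rw [abv_inv, hn, neg_smul]⟩ }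
  have h : dsp D gn A' ∈ S := by
    refine dsp_mem hD hne hne' hn S fun A hA => ?_
    rcases hA with ⟨h, rfl⟩ | ⟨h, rfl⟩
    · refine ⟨1, ?_⟩
      rw [gn_tr hD.toWCut, one_smul]
      exact abv_conj _ _
    · refine ⟨-1, ?_⟩
      rw [gn_compl (hD.translate h).toWCut, gn_tr hD.toWCut, abv_inv, neg_smul, one_smul, neg_inj]
      exact abv_conj _ _
  exact h

/-- twists about nested cuts commute -/
theorem dt_comm {D' : Set (F g)} (hD : CCut D) (hD' : CCut D') (hn : ∀ A ∈ OC D, Nest A D') :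
    dt hD * dt hD' = dt hD' * dt hD := by
  obtain ⟨p, hp, -⟩ := im_dt_nested hD hD'.ne hD'.ne' hn
  have h1 := dt_im hD' (dt hD)
  have h2 : dt (hD'.im (dt hD)) = dt hD' := by
    refine dt_congr _ _ ?_
    rw [hp, oc_of_tr]
  rw [h2] at h1
  rw [eq_mul_inv_iff_mul_eq] at h1
  exact h1.symm

end TorG
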